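import Pool.Agent.Lib.MP_c95e9c_lc.OB.Spec

/-! Module BAS (helper99): elementary facts on the graphs. -/

set_option autoImplicit false

namespace Pool.Agent.Lib.MPc95e9c

namespace BASM

lemma five : ∀ w, 5 ≤ nn w
  | [] => le_rfl
  | Lk.O :: w => by have := five w; simp only [nn]; omega
  | Lk.E :: w => by have := five w; simp only [nn]; omega
  | Lk.A :: w => by have := five w; simp only [nn]; omega

lemma plt : ∀ w, pp w < nn w
  | [] => by simp [pp, nn]
  | Lk.O :: w => by simp only [pp, nn]; omega
  | Lk.E :: w => by simp only [pp, nn]; omega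
  | Lk.A :: w => by simp only [pp, nn]; omega

lemma pne : ∀ w, pp w ≠ 1 ∧ pp w ≠ 2 ∧ pp w ≠ 3 ∧ pp w ≠ 4
  | [] => by simp [pp]
  | Lk.O :: w => by have := five w; simp only [pp]; omega
  | Lk.E :: w => by have := five w; simp only [pp]; omega
  | Lk.A :: w => by have := five w; simp only [pp]; omega

lemma bnd : ∀ w u v, EE w u v → u < nn w ∧ v < nn w
  | [], u, v => by
      intro h
      simp only [EE, ed] at h
      simp only [nn]
      omega
  | Lk.O :: w, u, v => by
      intro h
      have hp := plt w
      simp only [EE] at h
      simp only [nn]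
      rcases h with h | h
      · have := bnd w u v h; omega
      · simp only [sq, ed] at h; omega
  | Lk.E :: w, u, v => by
      intro h
      have hp := plt w
      simp only [EE] at h
      simp only [nn]
      rcases h with h | h
      · have := bnd w u v h; omega
      · simp only [ed] at h; omega
  | Lk.A :: w, u, v => by
      intro h
      have hp := plt w
      simp only [EE] at h
      simp only [nn]
      rcases h with h | h
      · have := bnd w u v h; omega
      · simp only [sq, ed] at h; omega

lemma sym : ∀ w u v, EE w u v → EE w v u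
  | [], u, v => by
      intro h
      simp only [EE, ed] at h ⊢
      omega
  | Lk.O :: w, u, v => by
      intro h
      simp only [EE] at h ⊢
      rcases h with h | h
      · exact Or.inl (sym w u v h)
      · right; simp only [sq, ed] at h ⊢; omega
  | Lk.E :: w, u, v => by
      intro h
      simp only [EE] at h ⊢
      rcases h with h | h
      · exact Or.inl (sym w u v h)
      · right; simp only [ed] at h ⊢; omega
  | Lk.A :: w, u, v => by
      intro h
      simp only [EE] at h ⊢
      rcases h with h | h
      · exact Or.inl (sym w u v h)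
      · right; simp only [sq, ed] at h ⊢; omega

lemma irr : ∀ w u, ¬ EE w u u
  | [], u => by
      intro h
      simp only [EE, ed] at h
      omega
  | Lk.O :: w, u => by
      intro h
      have hp := plt w
      simp only [EE] at h
      rcases h with h | h
      · exact irr w u h
      · simp only [sq, ed] at h; omega
  | Lk.E :: w, u => by
      intro h
      have hp := plt w
      simp only [EE] at h
      rcases h with h | h
      · exact irr w u h
      · simp only [ed] at h; omega
  | Lk.A :: w, u => by
      intro h
      have hp := plt w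
      simp only [EE] at h
      rcases h with h | h
      · exact irr w u h
      · simp only [sq, ed] at h; omega

lemma nbr : ∀ w, ∃ t, EE w (pp w) t
  | [] => ⟨1, Or.inl (Or.inl ⟨rfl, rfl⟩)⟩
  | Lk.O :: w => ⟨nn w, by
      change EE w (nn w + 2) (nn w) ∨ sq (pp w) (nn w) (nn w + 2) (nn w)
      exact Or.inr (Or.inr (Or.inr (Or.inl (Or.inr ⟨rfl, rfl⟩))))⟩
  | Lk.E :: w => ⟨pp w, by
      change EE w (nn w) (pp w) ∨ ed (pp w) (nn w) (nn w) (pp w)
      exact Or.inr (Or.inr ⟨rfl, rfl⟩)⟩
  | Lk.A :: w => ⟨pp w, by
      change EE w (nn w) (pp w) ∨ sq (pp w) (nn w) (nn w) (pp w)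
      exact Or.inr (Or.inl (Or.inr ⟨rfl, rfl⟩))⟩

lemma bndF (w : List Lk) (u v : ℕ) (h : EF w u v) : u < nn w + 4 ∧ v < nn w + 4 := by
  have hp := plt w
  rcases h with h | h
  · have := bnd w u v h; omega
  · simp only [rt, ed] at h; omega

lemma symF (w : List Lk) (u v : ℕ) (h : EF w u v) : EF w v u := by
  rcases h with h | h
  · exact Or.inl (sym w u v h)
  · right; simp only [rt, ed] at h ⊢; omega

lemma irrF (w : List Lk) (u : ℕ) (h : EF w u u) : False := by
  have hp := plt w
  rcases h with h | h
  · exact irr w u h
  · simp only [rt, ed] at h; omega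

lemma adjG (n : ℕ) (w : List Lk) (u v : Fin n) : (GG n w).Adj u v ↔ EF w u v := by
  unfold GG
  rw [SimpleGraph.fromRel_adj]
  constructor
  · rintro ⟨_, h | h⟩
    · exact h
    · exact symF w _ _ h
  · intro h
    refine ⟨?_, Or.inl h⟩
    rintro rfl
    exact irrF w _ h

end BASM

theorem specBAS : SpecBAS where
  five := BASM.five
  plt := BASM.plt
  pne := BASM.pne
  bnd := BASM.bnd
  sym := BASM.sym
  irr := BASM.irr
  nbr := BASM.nbr
  bndF := BASM.bndF
  symF := BASM.symF
  irrF := fun w u h => BASM.irrF w u h
  adjG := BASM.adjG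

end Pool.Agent.Lib.MPc95e9c
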