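import Pool.Agent.Lib.MP_c95e9c_lc.OB.Spec

/-!
# MP_c95e9c, module BIP: bipartite of maximum degree at most four
-/

set_option autoImplicit false

namespace Pool.Agent.Lib.MPc95e9c

namespace BIPM

lemma par (hB : SpecBAS) : ∀ (w : List Lk) (u v : ℕ), EE w u v → (DD w u + DD w v) % 2 = 1 := by
  intro w
  induction w with
  | nil =>
    intro u v h
    simp only [EE, ed] at h
    rcases h with (⟨rfl, rfl⟩ | ⟨rfl, rfl⟩) | (⟨rfl, rfl⟩ | ⟨rfl, rfl⟩) | (⟨rfl, rfl⟩ | ⟨rfl, rfl⟩) |
      (⟨rfl, rfl⟩ | ⟨rfl, rfl⟩) <;> simp [DD]
  | cons a w ih =>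
    intro u v h
    have hp := hB.plt w
    cases a with
    | O =>
      simp only [EE] at h
      rcases h with h | h
      · obtain ⟨h1, h2⟩ := hB.bnd w u v h
        simp only [DD, h1, h2, if_true]
        exact ih u v h
      · have e0 : DD (Lk.O :: w) (pp w) = DD w (pp w) := by simp only [DD, hp, if_true]
        have e1 : DD (Lk.O :: w) (nn w) = DD w (pp w) + 1 := by
          simp only [DD]
          rw [if_neg (by omega), if_neg (by omega)]
        have e2 : DD (Lk.O :: w) (nn w + 1) = DD w (pp w) + 1 := by
          simp only [DD]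
          rw [if_neg (by omega), if_neg (by omega)]
        have e3 : DD (Lk.O :: w) (nn w + 2) = DD w (pp w) + 2 := by
          simp only [DD]
          rw [if_neg (by omega), if_pos trivial]
        simp only [sq, ed] at h
        rcases h with (⟨rfl, rfl⟩ | ⟨rfl, rfl⟩) | (⟨rfl, rfl⟩ | ⟨rfl, rfl⟩) | (⟨rfl, rfl⟩ | ⟨rfl, rfl⟩) |
          (⟨rfl, rfl⟩ | ⟨rfl, rfl⟩) <;> simp only [e0, e1, e2, e3] <;> omega
    | E =>
      simp only [EE] at h
      rcases h with h | h
      · obtain ⟨h1, h2⟩ := hB.bnd w u v h
        simp only [DD, h1, h2, if_true]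
        exact ih u v h
      · have e0 : DD (Lk.E :: w) (pp w) = DD w (pp w) := by simp only [DD, hp, if_true]
        have e1 : DD (Lk.E :: w) (nn w) = DD w (pp w) + 1 := by
          simp only [DD]
          rw [if_neg (by omega)]
        simp only [ed] at h
        rcases h with ⟨rfl, rfl⟩ | ⟨rfl, rfl⟩ <;> simp only [e0, e1] <;> omega
    | A =>
      simp only [EE] at h
      rcases h with h | h
      · obtain ⟨h1, h2⟩ := hB.bnd w u v h
        simp only [DD, h1, h2, if_true]
        exact ih u v h
      · have e0 : DD (Lk.A :: w) (pp w) = DD w (pp w) := by simp only [DD, hp, if_true]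
        have e1 : DD (Lk.A :: w) (nn w) = DD w (pp w) + 1 := by
          simp only [DD]
          rw [if_neg (by omega), if_neg (by omega)]
        have e2 : DD (Lk.A :: w) (nn w + 1) = DD w (pp w) + 1 := by
          simp only [DD]
          rw [if_neg (by omega), if_neg (by omega)]
        have e3 : DD (Lk.A :: w) (nn w + 2) = DD w (pp w) + 2 := by
          simp only [DD]
          rw [if_neg (by omega), if_pos trivial]
        simp only [sq, ed] at h
        rcases h with (⟨rfl, rfl⟩ | ⟨rfl, rfl⟩) | (⟨rfl, rfl⟩ | ⟨rfl, rfl⟩) | (⟨rfl, rfl⟩ | ⟨rfl, rfl⟩) |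
          (⟨rfl, rfl⟩ | ⟨rfl, rfl⟩) <;> simp only [e0, e1, e2, e3] <;> omega

lemma parF (hB : SpecBAS) (w : List Lk) (u v : ℕ) (h : EF w u v) : (DF w u + DF w v) % 2 = 1 := by
  have hp := hB.plt w
  rcases h with h | h
  · obtain ⟨h1, h2⟩ := hB.bnd w u v h
    simp only [DF, h1, h2, if_true]
    exact par hB w u v h
  · have e0 : DF w (pp w) = DD w (pp w) := by simp only [DF, hp, if_true]
    have e1 : DF w (nn w) = DD w (pp w) + 1 := by
      unfold DF
      rw [if_neg (by omega), if_pos (by omega)]
    have e2 : DF w (nn w + 1) = DD w (pp w) + 2 := by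
      simp only [DF]
      rw [if_neg (by omega), if_neg (by omega)]
    have e3 : DF w (nn w + 2) = DD w (pp w) + 1 := by
      unfold DF
      rw [if_neg (by omega), if_pos (by omega)]
    have e4 : DF w (nn w + 3) = DD w (pp w) + 2 := by
      simp only [DF]
      rw [if_neg (by omega), if_neg (by omega)]
    simp only [rt, ed] at h
    rcases h with (⟨rfl, rfl⟩ | ⟨rfl, rfl⟩) | (⟨rfl, rfl⟩ | ⟨rfl, rfl⟩) | (⟨rfl, rfl⟩ | ⟨rfl, rfl⟩) |
      (⟨rfl, rfl⟩ | ⟨rfl, rfl⟩) <;> simp only [e0, e1, e2, e3, e4] <;> omega

/-- `L` contains all neighbours of `v` -/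
def Co (E : ℕ → ℕ → Prop) (v : ℕ) (L : Finset ℕ) : Prop := ∀ u, E v u → u ∈ L

lemma deg_sq (hB : SpecBAS) (w : List Lk) (v : ℕ) (L : Finset ℕ) (hL : L.card ≤ 4)
    (hLp : v = pp w → L.card ≤ 2) (hC : Co (EE w) v L) :
    ∃ L' : Finset ℕ, L'.card ≤ 4 ∧ (nn w ≤ v → L'.card ≤ 2) ∧
      Co (fun a b => EE w a b ∨ sq (pp w) (nn w) a b) v L' := by
  have hp := hB.plt w
  by_cases hv : v < nn w
  · by_cases hvp : v = pp w
    · refine ⟨L ∪ {nn w, nn w + 1}, ?_, fun h => by omega, ?_⟩
      · have h1 := Finset.card_union_le L {nn w, nn w + 1}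
        have h2 : ({nn w, nn w + 1} : Finset ℕ).card ≤ 2 := Finset.card_le_two
        have h3 := hLp hvp
        omega
      · intro u hu
        rcases hu with hu | hu
        · exact Finset.mem_union_left _ (hC u hu)
        · refine Finset.mem_union_right _ ?_
          simp only [sq, ed] at hu
          rw [Finset.mem_insert, Finset.mem_singleton]
          omega
    · refine ⟨L, hL, fun h => by omega, ?_⟩
      intro u hu
      rcases hu with hu | hu
      · exact hC u hu
      · exfalso
        simp only [sq, ed] at hu
        omega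
  · by_cases hv2 : v = nn w + 2
    · refine ⟨{nn w, nn w + 1}, ?_, fun _ => Finset.card_le_two, ?_⟩
      · have h2 : ({nn w, nn w + 1} : Finset ℕ).card ≤ 2 := Finset.card_le_two
        omega
      · intro u hu
        rcases hu with hu | hu
        · exact absurd (hB.bnd w v u hu).1 hv
        · simp only [sq, ed] at hu
          rw [Finset.mem_insert, Finset.mem_singleton]
          omega
    · refine ⟨{pp w, nn w + 2}, ?_, fun _ => Finset.card_le_two, ?_⟩
      · have h2 : ({pp w, nn w + 2} : Finset ℕ).card ≤ 2 := Finset.card_le_two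
        omega
      · intro u hu
        rcases hu with hu | hu
        · exact absurd (hB.bnd w v u hu).1 hv
        · simp only [sq, ed] at hu
          rw [Finset.mem_insert, Finset.mem_singleton]
          omega

lemma deg (hB : SpecBAS) : ∀ (w : List Lk) (v : ℕ), ∃ L : Finset ℕ, L.card ≤ 4 ∧
    (v = pp w → L.card ≤ 2) ∧ Co (EE w) v L := by
  intro w
  induction w with
  | nil =>
    intro v
    by_cases h0 : v = 0
    · refine ⟨{1, 3}, by decide, fun _ => by decide, ?_⟩
      intro u hu
      simp only [EE, ed] at hu
      rw [Finset.mem_insert, Finset.mem_singleton]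
      omega
    · refine ⟨{0, v + 1, v - 1}, ?_, fun h => absurd h (by simpa [pp] using h0), ?_⟩
      · exact le_trans Finset.card_le_three (by norm_num)
      · intro u hu
        simp only [EE, ed] at hu
        rw [Finset.mem_insert, Finset.mem_insert, Finset.mem_singleton]
        omega
  | cons a w ih =>
    intro v
    obtain ⟨L, hL, hLp, hC⟩ := ih v
    have hp := hB.plt w
    cases a with
    | O =>
      obtain ⟨L', h1, h2, h3⟩ := deg_sq hB w v L hL hLp hC
      refine ⟨L', h1, ?_, h3⟩
      intro h
      apply h2
      simp only [pp] at h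
      omega
    | E =>
      by_cases hv : v < nn w
      · refine ⟨L ∪ (if v = pp w then {nn w} else ∅), ?_, ?_, ?_⟩
        · have h1 := Finset.card_union_le L (if v = pp w then {nn w} else ∅)
          by_cases hvp : v = pp w
          · rw [if_pos hvp] at h1 ⊢
            rw [Finset.card_singleton] at h1
            have h3 := hLp hvp
            omega
          · rw [if_neg hvp, Finset.union_empty]
            exact hL
        · intro h
          simp only [pp] at h
          omega
        · intro u hu
          simp only [EE] at hu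
          rcases hu with hu | hu
          · exact Finset.mem_union_left _ (hC u hu)
          · refine Finset.mem_union_right _ ?_
            simp only [ed] at hu
            have hvp : v = pp w := by omega
            rw [if_pos hvp, Finset.mem_singleton]
            omega
      · refine ⟨{pp w}, by simp, fun _ => by simp, ?_⟩
        intro u hu
        simp only [EE] at hu
        rcases hu with hu | hu
        · exact absurd (hB.bnd w v u hu).1 hv
        · simp only [ed] at hu
          rw [Finset.mem_singleton]
          omega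
    | A =>
      obtain ⟨L', h1, h2, h3⟩ := deg_sq hB w v L hL hLp hC
      refine ⟨L', h1, ?_, h3⟩
      intro h
      apply h2
      simp only [pp] at h
      omega

lemma degF (hB : SpecBAS) (w : List Lk) (v : ℕ) : ∃ L : Finset ℕ, L.card ≤ 4 ∧ Co (EF w) v L := by
  have hp := hB.plt w
  obtain ⟨L, hL, hLp, hC⟩ := deg hB w v
  by_cases hv : v < nn w
  · by_cases hvp : v = pp w
    · refine ⟨L ∪ {nn w, nn w + 2}, ?_, ?_⟩
      · have h1 := Finset.card_union_le L {nn w, nn w + 2}
        have h2 : ({nn w, nn w + 2} : Finset ℕ).card ≤ 2 := Finset.card_le_two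
        have h3 := hLp hvp
        omega
      · intro u hu
        rcases hu with hu | hu
        · exact Finset.mem_union_left _ (hC u hu)
        · refine Finset.mem_union_right _ ?_
          simp only [rt, ed] at hu
          rw [Finset.mem_insert, Finset.mem_singleton]
          omega
    · refine ⟨L, hL, ?_⟩
      intro u hu
      rcases hu with hu | hu
      · exact hC u hu
      · exfalso
        simp only [rt, ed] at hu
        omega
  · by_cases h1 : v = nn w + 1
    · refine ⟨{nn w}, by simp, ?_⟩
      intro u hu
      rcases hu with hu | hu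
      · exact absurd (hB.bnd w v u hu).1 hv
      · simp only [rt, ed] at hu
        rw [Finset.mem_singleton]
        omega
    · refine ⟨{pp w, nn w + 1, nn w + 2, nn w + 3}, ?_, ?_⟩
      · exact le_trans (Finset.card_insert_le _ _) (Nat.add_le_add_right Finset.card_le_three 1)
      · intro u hu
        rcases hu with hu | hu
        · exact absurd (hB.bnd w v u hu).1 hv
        · simp only [rt, ed] at hu
          rw [Finset.mem_insert, Finset.mem_insert, Finset.mem_insert, Finset.mem_singleton]
          omega

end BIPM

open BIPM in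
theorem specBIP (hBAS : SpecBAS) : SpecBIP := by
  intro w n hn
  constructor
  · refine ⟨SimpleGraph.Coloring.mk (fun v => (⟨DF w v % 2, Nat.mod_lt _ two_pos⟩ : Fin 2)) ?_⟩
    intro u v huv
    have h1 := parF hBAS w u v ((hBAS.adjG n w u v).mp huv)
    intro h
    have h2 : DF w u % 2 = DF w v % 2 := by
      have := congrArg Fin.val h
      exact this
    omega
  · intro v
    obtain ⟨L, hL, hC⟩ := degF hBAS w v
    have h1 : (Fin.val '' ((GG n w).neighborSet v)).ncard = ((GG n w).neighborSet v).ncard :=
      Set.ncard_image_of_injective _ Fin.val_injective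
    rw [← h1]
    have h2 : Fin.val '' ((GG n w).neighborSet v) ⊆ (L : Set ℕ) := by
      rintro _ ⟨u, hu, rfl⟩
      exact hC u ((hBAS.adjG n w v u).mp hu)
    calc _ ≤ (L : Set ℕ).ncard := Set.ncard_le_ncard h2 (Finset.finite_toSet L)
      _ = L.card := Set.ncard_coe_finset L
      _ ≤ 4 := hL

end Pool.Agent.Lib.MPc95e9c
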