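import Pool.Agent.Lib.MP_c95e9c_lc.OB.Spec

/-!
# MP_c95e9c_lc, module C4: squares in a representation
-/

set_option autoImplicit false

namespace Pool.Agent.Lib.MPc95e9c

theorem specC4 : SpecC4 := by
  intro E S N l r hR hsym a ha b hb c hc d hd hac hbd hab hbc hcd hda eab ebc ecd eda nac nbd
  by_contra hcon
  push Not at hcon
  obtain ⟨h1, h2⟩ := hcon
  have pair : ∀ u ∈ S, ∀ v ∈ S, u ≠ v → E u v → l u ≤ r v ∧ l v ≤ r u := by
    intro u hu v hv huv he
    refine (hR.adj u hu v hv huv ?_).mp he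
    rintro ⟨x, y⟩
    exact hR.ind u hu v hv x y he
  have p1 := pair a ha b hb hab eab
  have p2 := pair b hb c hc hbc ebc
  have p3 := pair c hc d hd hcd ecd
  have p4 := pair d hd a ha hda eda
  have q1 : ¬ (l a ≤ r c ∧ l c ≤ r a) := fun h =>
    nac ((hR.adj a ha c hc hac (fun h' => h1 h'.1 h'.2)).mpr h)
  have q2 : ¬ (l b ≤ r d ∧ l d ≤ r b) := fun h =>
    nbd ((hR.adj b hb d hd hbd (fun h' => h2 h'.1 h'.2)).mpr h)
  have q1' : r c < l a ∨ r a < l c := by
    by_contra hh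
    push Not at hh
    exact q1 hh
  apply q2
  rcases q1' with h | h
  · constructor
    · linarith [p1.2, p2.1, p3.1, p4.2, p1.1, p2.2, p3.2, p4.1]
    · linarith [p1.2, p2.1, p3.1, p4.2, p1.1, p2.2, p3.2, p4.1]
  · constructor
    · linarith [p1.2, p2.1, p3.1, p4.2, p1.1, p2.2, p3.2, p4.1]
    · linarith [p1.2, p2.1, p3.1, p4.2, p1.1, p2.2, p3.2, p4.1]

end Pool.Agent.Lib.MPc95e9c
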