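import Pool.Agent.Lib.MP_c95e9c_lc.OB.Spec

/-!
# MP_c95e9c: module CLW, the centre of a subdivided claw is a non-probe
-/

set_option autoImplicit false

namespace Pool.Agent.Lib.MPc95e9c

namespace CLWM

/-- the mirror image of a representation -/
lemma mirror {E : ℕ → ℕ → Prop} {S N : Set ℕ} {l r : ℕ → ℝ} (h : Rp E S N l r) :
    Rp E S N (fun v => -r v) (fun v => -l v) where
  le := fun v hv => neg_le_neg (h.le v hv)
  ind := h.ind
  adj := fun u hu v hv huv hN => by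
    rw [h.adj u hu v hv huv hN]
    simp only [neg_le_neg_iff]
    exact and_comm

/-- two arms whose ends are to the left of the centre, the end of the first one before that of the second -/
lemma left_lt {E : ℕ → ℕ → Prop} {S N : Set ℕ} {l r : ℕ → ℝ} (h : Rp E S N l r) {c a s b t : ℕ}
    (hc : c ∈ S) (hcN : c ∉ N) (ha : a ∈ S) (hs : s ∈ S) (hb : b ∈ S) (ht : t ∈ S)
    (has : a ≠ s) (hbt : b ≠ t) (hca : c ≠ a) (hcb : c ≠ b)
    (eca : E c a) (ecb : E c b) (eas : E a s) (ebt : E b t)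
    (hab : a ≠ b) (hat : a ≠ t) (nab : ¬ E a b) (nat : ¬ E a t)
    (h1 : r s < l c) (h2 : r t < l c) (h3 : r s < l t) : False := by
  have k1 := (h.adj c hc a ha hca (fun k => hcN k.1)).mp eca
  have k2 := (h.adj c hc b hb hcb (fun k => hcN k.1)).mp ecb
  have k3 := (h.adj a ha s hs has (fun k => h.ind a ha s hs k.1 k.2 eas)).mp eas
  have k4 := (h.adj b hb t ht hbt (fun k => h.ind b hb t ht k.1 k.2 ebt)).mp ebt
  -- `a` and `b` overlap, so both are in `N`
  have k5 : a ∈ N ∧ b ∈ N := by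
    by_contra hn
    exact nab ((h.adj a ha b hb hab hn).mpr ⟨by linarith [k3.1, k2.1], by linarith [k4.1, k1.1]⟩)
  have k6 : t ∉ N := fun k => h.ind b hb t ht k5.2 k ebt
  have k7 := h.le t ht
  exact nat ((h.adj a ha t ht hat (fun k => k6 k.2)).mpr
    ⟨by linarith [k3.1], by linarith [k1.1]⟩)

/-- two arms whose ends are to the left of the centre -/
lemma left {E : ℕ → ℕ → Prop} {S N : Set ℕ} {l r : ℕ → ℝ} (h : Rp E S N l r)
    {c a s b t : ℕ}
    (hc : c ∈ S) (hcN : c ∉ N) (ha : a ∈ S) (hs : s ∈ S) (hb : b ∈ S) (ht : t ∈ S)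
    (has : a ≠ s) (hbt : b ≠ t) (hca : c ≠ a) (hcb : c ≠ b)
    (eca : E c a) (ecb : E c b) (eas : E a s) (ebt : E b t)
    (hab : a ≠ b) (hat : a ≠ t) (hbs : b ≠ s) (hst : s ≠ t)
    (nab : ¬ E a b) (nba : ¬ E b a) (nat : ¬ E a t) (nbs : ¬ E b s) (nst : ¬ E s t)
    (h1 : r s < l c) (h2 : r t < l c) : False := by
  have k1 := (h.adj c hc a ha hca (fun k => hcN k.1)).mp eca
  have k2 := (h.adj c hc b hb hcb (fun k => hcN k.1)).mp ecb
  have k3 := (h.adj a ha s hs has (fun k => h.ind a ha s hs k.1 k.2 eas)).mp eas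
  have k4 := (h.adj b hb t ht hbt (fun k => h.ind b hb t ht k.1 k.2 ebt)).mp ebt
  have k5 : a ∈ N ∧ b ∈ N := by
    by_contra hn
    exact nab ((h.adj a ha b hb hab hn).mpr ⟨by linarith [k3.1, k2.1], by linarith [k4.1, k1.1]⟩)
  have k6 : t ∉ N := fun k => h.ind b hb t ht k5.2 k ebt
  rcases lt_or_ge (r s) (l t) with h3 | h3
  · exact left_lt h hc hcN ha hs hb ht has hbt hca hcb eca ecb eas ebt hab hat nab nat h1 h2 h3
  rcases lt_or_ge (r t) (l s) with h4 | h4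
  · exact left_lt h hc hcN hb ht ha hs hbt has hcb hca ecb eca ebt eas hab.symm hbs nba nbs h2 h1 h4
  · exact nst ((h.adj s hs t ht hst (fun k => k6 k.2)).mpr ⟨h4, h3⟩)

/-- two of three are equal -/
lemma pigeon (p : Fin 3 → Prop) : ∃ i j : Fin 3, i ≠ j ∧ (p i ↔ p j) := by
  by_cases h0 : p 0 <;> by_cases h1 : p 1 <;> by_cases h2 : p 2
  · exact ⟨0, 1, by decide, iff_of_true h0 h1⟩
  · exact ⟨0, 1, by decide, iff_of_true h0 h1⟩
  · exact ⟨0, 2, by decide, iff_of_true h0 h2⟩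
  · exact ⟨1, 2, by decide, iff_of_false h1 h2⟩
  · exact ⟨1, 2, by decide, iff_of_true h1 h2⟩
  · exact ⟨0, 2, by decide, iff_of_false h0 h2⟩
  · exact ⟨0, 1, by decide, iff_of_false h0 h1⟩
  · exact ⟨0, 1, by decide, iff_of_false h0 h1⟩

end CLWM

open CLWM in
/-- Module CLW. -/
theorem specCLW : SpecCLW := by
  intro E S N l r h hsym c m t hc hm hij
  by_contra hcN
  have side : ∀ i, r (t i) < l c ∨ r c < l (t i) := by
    intro i
    obtain ⟨hmi, hti, hne, hcm, hct, e1, e2, e3⟩ := hm i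
    by_contra hn
    push Not at hn
    exact e3 ((h.adj c hc (t i) hti hct (fun k => hcN k.1)).mpr ⟨hn.1, hn.2⟩)
  obtain ⟨i, j, hne, hp⟩ := pigeon fun i => r (t i) < l c
  obtain ⟨a1, a2, a3, a4, a5, a6, a7, a8⟩ := hm i
  obtain ⟨b1, b2, b3, b4, b5, b6, b7, b8⟩ := hm j
  obtain ⟨c1, c2, c3, c4, c5, c6⟩ := hij i j hne
  obtain ⟨d1, d2, d3, d4, d5, d6⟩ := hij j i hne.symm
  by_cases hi : r (t i) < l c
  · exact left h hc hcN a1 a2 b1 b2 a3 b3 a4 b4 a6 b6 a7 b7 c1 c2 d2 c3 c4 d4 c5 d5 c6 hi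
      (hp.mp hi)
  · have hj : ¬ r (t j) < l c := fun k => hi (hp.mpr k)
    have hi' := (side i).resolve_left hi
    have hj' := (side j).resolve_left hj
    exact left (mirror h) hc hcN a1 a2 b1 b2 a3 b3 a4 b4 a6 b6 a7 b7 c1 c2 d2 c3 c4 d4 c5 d5 c6
      (neg_lt_neg hi') (neg_lt_neg hj')

end Pool.Agent.Lib.MPc95e9c
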