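import Pool.Agent.Lib.MP_c95e9c_lc.OB.Spec

/-!
# MP_c95e9c, module CNT: the number of vertices in some levels
-/

set_option autoImplicit false

namespace Pool.Agent.Lib.MPc95e9c

namespace CNTM

/-- the level of the exit -/
def tt (w : List Lk) : ℕ := DD w (pp w)

/-- the number of vertices of level `L` -/
def cn (w : List Lk) (L : ℕ) : ℕ := ∑ v ∈ Finset.range (nn w), if DD w v = L then 1 else 0

lemma DD_lt (x : Lk) (w : List Lk) (v : ℕ) (hv : v < nn w) : DD (x :: w) v = DD w v := by
  cases x <;> simp [DD, hv]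

lemma DDO0 (w : List Lk) : DD (Lk.O :: w) (nn w) = tt w + 1 := by simp [DD, tt]
lemma DDO1 (w : List Lk) : DD (Lk.O :: w) (nn w + 1) = tt w + 1 := by simp [DD, tt]
lemma DDO2 (w : List Lk) : DD (Lk.O :: w) (nn w + 2) = tt w + 2 := by simp [DD, tt]
lemma DDA0 (w : List Lk) : DD (Lk.A :: w) (nn w) = tt w + 1 := by simp [DD, tt]
lemma DDA1 (w : List Lk) : DD (Lk.A :: w) (nn w + 1) = tt w + 1 := by simp [DD, tt]
lemma DDA2 (w : List Lk) : DD (Lk.A :: w) (nn w + 2) = tt w + 2 := by simp [DD, tt]
lemma DDE0 (w : List Lk) : DD (Lk.E :: w) (nn w) = tt w + 1 := by simp [DD, tt]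

lemma tt_O (w : List Lk) : tt (Lk.O :: w) = tt w + 2 := DDO2 w
lemma tt_A (w : List Lk) : tt (Lk.A :: w) = tt w + 1 := DDA0 w
lemma tt_E (w : List Lk) : tt (Lk.E :: w) = tt w + 1 := DDE0 w

lemma old_sum (x : Lk) (w : List Lk) (L : ℕ) :
    (∑ v ∈ Finset.range (nn w), if DD (x :: w) v = L then 1 else 0) = cn w L := by
  unfold cn
  apply Finset.sum_congr rfl
  intro v hv
  rw [DD_lt x w v (Finset.mem_range.1 hv)]

lemma cn_O (w : List Lk) (L : ℕ) : cn (Lk.O :: w) L =
    cn w L + (if tt w + 1 = L then 1 else 0) + (if tt w + 1 = L then 1 else 0) +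
      (if tt w + 2 = L then 1 else 0) := by
  have h : cn (Lk.O :: w) L =
      ∑ v ∈ Finset.range (nn w + 3), if DD (Lk.O :: w) v = L then 1 else 0 := rfl
  rw [h, Finset.sum_range_succ, Finset.sum_range_succ, Finset.sum_range_succ, old_sum, DDO0,
    DDO1, DDO2]

lemma cn_A (w : List Lk) (L : ℕ) : cn (Lk.A :: w) L =
    cn w L + (if tt w + 1 = L then 1 else 0) + (if tt w + 1 = L then 1 else 0) +
      (if tt w + 2 = L then 1 else 0) := by
  have h : cn (Lk.A :: w) L =
      ∑ v ∈ Finset.range (nn w + 3), if DD (Lk.A :: w) v = L then 1 else 0 := rfl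
  rw [h, Finset.sum_range_succ, Finset.sum_range_succ, Finset.sum_range_succ, old_sum, DDA0,
    DDA1, DDA2]

lemma cn_E (w : List Lk) (L : ℕ) : cn (Lk.E :: w) L =
    cn w L + (if tt w + 1 = L then 1 else 0) := by
  have h : cn (Lk.E :: w) L =
      ∑ v ∈ Finset.range (nn w + 1), if DD (Lk.E :: w) v = L then 1 else 0 := rfl
  rw [h, Finset.sum_range_succ, old_sum, DDE0]

/-- all levels are at most one more than that of the exit -/
def UB (w : List Lk) : Prop := ∀ v < nn w, DD w v ≤ tt w + 1

lemma UB_O (w : List Lk) (h : UB w) : UB (Lk.O :: w) := by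
  intro v hv
  rw [tt_O]
  have hv' : v < nn w + 3 := hv
  by_cases h1 : v < nn w
  · rw [DD_lt _ _ _ h1]
    have := h v h1
    omega
  · rcases (show v = nn w ∨ v = nn w + 1 ∨ v = nn w + 2 by omega) with h2 | h2 | h2
    · rw [h2, DDO0]; omega
    · rw [h2, DDO1]; omega
    · rw [h2, DDO2]; omega

lemma UB_A (w : List Lk) (h : UB w) : UB (Lk.A :: w) := by
  intro v hv
  rw [tt_A]
  have hv' : v < nn w + 3 := hv
  by_cases h1 : v < nn w
  · rw [DD_lt _ _ _ h1]
    have := h v h1
    omega
  · rcases (show v = nn w ∨ v = nn w + 1 ∨ v = nn w + 2 by omega) with h2 | h2 | h2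
    · rw [h2, DDA0]; omega
    · rw [h2, DDA1]; omega
    · rw [h2, DDA2]

lemma UB_E (w : List Lk) (h : UB w) : UB (Lk.E :: w) := by
  intro v hv
  rw [tt_E]
  have hv' : v < nn w + 1 := hv
  by_cases h1 : v < nn w
  · rw [DD_lt _ _ _ h1]
    have := h v h1
    omega
  · have h2 : v = nn w := by omega
    rw [h2, DDE0]; omega

lemma UB_rep (k : ℕ) : UB (List.replicate (k + 1) Lk.O) := by
  induction k with
  | zero =>
    intro v hv
    have hv' : v < 8 := hv
    have ht : tt (List.replicate 1 Lk.O) = 2 := rfl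
    rw [ht]
    interval_cases v <;> decide
  | succ k ih =>
    rw [List.replicate_succ]
    exact UB_O _ ih

lemma tt_rep (k : ℕ) : tt (List.replicate k Lk.O) = 2 * k := by
  induction k with
  | zero => rfl
  | succ k ih =>
    rw [List.replicate_succ, tt_O, ih]
    ring

lemma cn_zero (w : List Lk) (h : UB w) (L : ℕ) (hL : tt w + 1 < L) : cn w L = 0 := by
  unfold cn
  apply Finset.sum_eq_zero
  intro v hv
  have := h v (Finset.mem_range.1 hv)
  rw [if_neg (by omega)]

lemma wd_facts (k : ℕ) (hk : 1 ≤ k) (bs : List Bool) :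
    UB (wd k bs) ∧ tt (wd k bs) = 2 * k + 4 * bs.length := by
  induction bs with
  | nil =>
    obtain ⟨k', rfl⟩ : ∃ k', k = k' + 1 := ⟨k - 1, by omega⟩
    exact ⟨UB_rep k', by rw [List.length_nil]; exact tt_rep _⟩
  | cons b bs ih =>
    obtain ⟨h1, h2⟩ := ih
    cases b with
    | false =>
      refine ⟨UB_A _ (UB_E _ (UB_O _ h1)), ?_⟩
      show tt (Lk.A :: Lk.E :: Lk.O :: wd k bs) = _
      rw [tt_A, tt_E, tt_O, h2, List.length_cons]
      ring
    | true =>
      refine ⟨UB_O _ (UB_A _ (UB_E _ h1)), ?_⟩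
      show tt (Lk.O :: Lk.A :: Lk.E :: wd k bs) = _
      rw [tt_O, tt_A, tt_E, h2, List.length_cons]
      ring

lemma main (k : ℕ) (hk : 1 ≤ k) (bs : List Bool) : ∀ (j : ℕ) (hj : j < bs.length),
    cn (wd k bs) (2 * k + 4 * (bs.length - 1 - j) + 2) = 1 + (bs[j]).toNat := by
  induction bs with
  | nil =>
    intro j hj
    exact absurd hj (by simp)
  | cons b bs ih =>
    intro j hj
    obtain ⟨h1, h2⟩ := wd_facts k hk bs
    have hlen : (b :: bs).length = bs.length + 1 := List.length_cons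
    have hj' : j < bs.length + 1 := by
      rw [← hlen]
      exact hj
    set u := wd k bs with hu
    cases j with
    | zero =>
      have hL : 2 * k + 4 * ((b :: bs).length - 1 - 0) + 2 = tt u + 2 := by
        rw [hlen, h2]
        simp
      rw [hL]
      have h0 : cn u (tt u + 2) = 0 := cn_zero u h1 _ (by omega)
      cases b with
      | false =>
        show cn (Lk.A :: Lk.E :: Lk.O :: u) (tt u + 2) = 1 + (false).toNat
        rw [cn_A, cn_E, cn_O, tt_E, tt_O, h0, if_neg (by omega), if_pos rfl,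
          if_neg (by omega), if_neg (by omega), if_neg (by omega)]
        rfl
      | true =>
        show cn (Lk.O :: Lk.A :: Lk.E :: u) (tt u + 2) = 1 + (true).toNat
        rw [cn_O, cn_A, cn_E, tt_A, tt_E, h0]
        simp
    | succ j =>
      have hj2 : j < bs.length := by omega
      have hL : 2 * k + 4 * ((b :: bs).length - 1 - (j + 1)) + 2 =
          2 * k + 4 * (bs.length - 1 - j) + 2 := by
        rw [hlen]
        congr 3
        omega
      rw [hL]
      have h3 := ih j hj2
      set L := 2 * k + 4 * (bs.length - 1 - j) + 2 with hLdef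
      have hLt : L < tt u := by
        rw [h2]
        omega
      have e1 : ¬ (tt u + 1 = L) := by omega
      have e2 : ¬ (tt u + 2 = L) := by omega
      have e3 : ¬ (tt u + 2 + 1 = L) := by omega
      have e4 : ¬ (tt u + 2 + 1 + 1 = L) := by omega
      have e5 : ¬ (tt u + 2 + 1 + 2 = L) := by omega
      have e6 : ¬ (tt u + 1 + 1 = L) := by omega
      have e7 : ¬ (tt u + 1 + 2 = L) := by omega
      have e9 : ¬ (tt u + 1 + 1 + 2 = L) := by omega
      cases b with
      | false =>
        show cn (Lk.A :: Lk.E :: Lk.O :: u) L = 1 + (bs[j]).toNat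
        rw [cn_A, cn_E, cn_O, tt_E, tt_O, if_neg e1, if_neg e2, if_neg e3, if_neg e4,
          if_neg e5, ← h3]
        simp only [Nat.add_zero]
      | true =>
        show cn (Lk.O :: Lk.A :: Lk.E :: u) L = 1 + (bs[j]).toNat
        rw [cn_O, cn_A, cn_E, tt_A, tt_E, ← h3]
        simp only [e1, e6, e7, e9, if_false, Nat.add_zero]

end CNTM

open CNTM in
theorem specCNT (_hBAS : SpecBAS) : SpecCNT := by
  intro k bs j hj hk
  obtain ⟨h1, h2⟩ := wd_facts k hk bs
  have h3 := main k hk bs j hj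
  set u := wd k bs with hu
  set L := 2 * k + 4 * (bs.length - 1 - j) + 2 with hL
  have hLt : L < tt u := by
    rw [h2]
    omega
  rw [Finset.card_filter, Finset.sum_range_succ, Finset.sum_range_succ, Finset.sum_range_succ,
    Finset.sum_range_succ]
  have e0 : (∑ v ∈ Finset.range (nn (Lk.E :: u)), if DF (Lk.E :: u) v = L then 1 else 0) =
      cn (Lk.E :: u) L := by
    unfold cn
    apply Finset.sum_congr rfl
    intro v hv
    have hv' := Finset.mem_range.1 hv
    have : DF (Lk.E :: u) v = DD (Lk.E :: u) v := by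
      unfold DF
      rw [if_pos hv']
    rw [this]
  have hge : ∀ i, tt (Lk.E :: u) < DF (Lk.E :: u) (nn (Lk.E :: u) + i) := by
    intro i
    have ht : tt (Lk.E :: u) = DD (Lk.E :: u) (pp (Lk.E :: u)) := rfl
    unfold DF
    rw [if_neg (by omega), ht]
    split_ifs <;> omega
  have hn : ∀ i, ¬ (DF (Lk.E :: u) (nn (Lk.E :: u) + i) = L) := by
    intro i
    have := hge i
    rw [tt_E] at this
    omega
  have hn0 : ¬ (DF (Lk.E :: u) (nn (Lk.E :: u)) = L) := hn 0
  rw [e0, if_neg hn0, if_neg (hn 1), if_neg (hn 2), if_neg (hn 3), cn_E, if_neg (by omega), h3]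
  simp only [Nat.add_zero]

end Pool.Agent.Lib.MPc95e9c
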