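import Pool.Agent.Lib.MP_c95e9c_lc.OB.Spec

/-! # Module CNV: between `IsIPG` and `Pl`. -/

set_option autoImplicit false

namespace Pool.Agent.Lib.MPc95e9c

open Classical in
theorem specCNV : SpecCNV := by
  refine ⟨?_, ?_⟩
  · rintro n G E hE ⟨N, H, hind, hGH, hHG, l, r, hle, hadj⟩
    refine ⟨{v | ∃ h : v < n, (⟨v, h⟩ : Fin n) ∈ N}, fun v => if h : v < n then l ⟨v, h⟩ else 0,
      fun v => if h : v < n then r ⟨v, h⟩ else 0, ?_, ?_, ?_⟩
    · intro v hv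
      have hv' : v < n := hv
      simp only [dif_pos hv']
      exact hle _
    · rintro u hu v hv ⟨hu1, huN⟩ ⟨hv1, hvN⟩ hEuv
      exact hind _ huN _ hvN ((hE ⟨u, hu1⟩ ⟨v, hv1⟩).mpr hEuv)
    · intro u hu v hv huv hn
      have hu' : u < n := hu
      have hv' : v < n := hv
      simp only [dif_pos hu', dif_pos hv']
      have hne : (⟨u, hu'⟩ : Fin n) ≠ ⟨v, hv'⟩ := fun h => huv (congrArg Fin.val h)
      rw [← hadj _ _ hne]
      have h1 : E u v ↔ G.Adj ⟨u, hu'⟩ ⟨v, hv'⟩ := (hE ⟨u, hu'⟩ ⟨v, hv'⟩).symm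
      rw [h1]
      constructor
      · intro h
        exact hGH h
      · intro h
        rcases hHG _ _ h with h2 | h2
        · exact h2
        · exact absurd ⟨⟨hu', h2.1⟩, ⟨hv', h2.2⟩⟩ hn
  · rintro n G E hE S T hST ⟨N, l, r, hR⟩
    have hT : ∀ v : S, ((v : Fin n) : ℕ) ∈ T := fun v => hST v v.2
    have hne : ∀ u v : S, u ≠ v → ((u : Fin n) : ℕ) ≠ ((v : Fin n) : ℕ) := by
      intro u v huv h
      exact huv (Subtype.ext (Fin.ext h))
    let H : SimpleGraph S := SimpleGraph.fromRel fun u v =>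
      l ((u : Fin n) : ℕ) ≤ r ((v : Fin n) : ℕ) ∧ l ((v : Fin n) : ℕ) ≤ r ((u : Fin n) : ℕ)
    have hH : ∀ u v : S, H.Adj u v ↔ u ≠ v ∧
        (l ((u : Fin n) : ℕ) ≤ r ((v : Fin n) : ℕ) ∧ l ((v : Fin n) : ℕ) ≤ r ((u : Fin n) : ℕ)) := by
      intro u v
      simp only [H, SimpleGraph.fromRel_adj]
      constructor
      · rintro ⟨h1, h2 | h2⟩
        · exact ⟨h1, h2⟩
        · exact ⟨h1, h2.symm⟩
      · rintro ⟨h1, h2⟩
        exact ⟨h1, Or.inl h2⟩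
    have hG : ∀ u v : S, (G.induce S).Adj u v ↔ E ((u : Fin n) : ℕ) ((v : Fin n) : ℕ) := by
      intro u v
      rw [SimpleGraph.comap_adj]
      exact hE u v
    refine ⟨{v : S | ((v : Fin n) : ℕ) ∈ N}, H, ?_, ?_, ?_,
      fun v => l ((v : Fin n) : ℕ), fun v => r ((v : Fin n) : ℕ), ?_, ?_⟩
    · intro u hu v hv h
      exact hR.ind _ (hT u) _ (hT v) hu hv ((hG u v).mp h)
    · intro u v h
      have h1 := (hG u v).mp h
      have h2 : u ≠ v := h.ne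
      refine (hH u v).mpr ⟨h2, ?_⟩
      refine (hR.adj _ (hT u) _ (hT v) (hne u v h2) ?_).mp h1
      rintro ⟨h3, h4⟩
      exact hR.ind _ (hT u) _ (hT v) h3 h4 h1
    · intro u v h
      obtain ⟨h1, h2⟩ := (hH u v).mp h
      by_cases h3 : ((u : Fin n) : ℕ) ∈ N ∧ ((v : Fin n) : ℕ) ∈ N
      · exact Or.inr h3
      · exact Or.inl ((hG u v).mpr ((hR.adj _ (hT u) _ (hT v) (hne u v h1) h3).mpr h2))
    · intro v
      exact hR.le _ (hT v)
    · intro u v huv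
      rw [hH]
      exact ⟨fun h => h.2, fun h => ⟨huv, h⟩⟩

end Pool.Agent.Lib.MPc95e9c
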