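import Pool.Agent.Lib.MP_c95e9c_lc.OB.Spec

/-!
# MP_c95e9c, OB, module FIN
-/

set_option autoImplicit false

namespace Pool.Agent.Lib.MPc95e9c

namespace FINM

lemma card_eq (n : ℕ) (D D' : ℕ → ℕ) (φ : Fin n ≃ Fin n) (h : ∀ v : Fin n, D' (φ v) = D v)
    (t : ℕ) : ((Finset.range n).filter (fun v => D v = t)).card =
      ((Finset.range n).filter (fun v => D' v = t)).card := by
  apply Finset.card_bij
    (fun v hv => (φ ⟨v, Finset.mem_range.1 (Finset.mem_filter.1 hv).1⟩ : ℕ))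
  · intro v hv
    rw [Finset.mem_filter, Finset.mem_range]
    refine ⟨(φ _).2, ?_⟩
    rw [h]
    exact (Finset.mem_filter.1 hv).2
  · intro a ha b hb hab
    have h1 := φ.injective (Fin.ext hab)
    exact Fin.mk.inj_iff.1 h1
  · intro b hb
    have hb1 := Finset.mem_range.1 (Finset.mem_filter.1 hb).1
    have hb2 := (Finset.mem_filter.1 hb).2
    refine ⟨(φ.symm ⟨b, hb1⟩ : ℕ), ?_, ?_⟩
    · rw [Finset.mem_filter, Finset.mem_range]
      refine ⟨(φ.symm ⟨b, hb1⟩).2, ?_⟩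
      rw [← h, Equiv.apply_symm_apply]
      exact hb2
    · simp

lemma exists_k (n : ℕ) (hn : 31 ≤ n) : ∃ k m' : ℕ, 1 ≤ k ∧ k ≤ 7 ∧ n = 10 + 3 * k + 7 * m' := by
  have h : n % 7 = 0 ∨ n % 7 = 1 ∨ n % 7 = 2 ∨ n % 7 = 3 ∨ n % 7 = 4 ∨ n % 7 = 5 ∨ n % 7 = 6 := by
    omega
  rcases h with h | h | h | h | h | h | h
  · exact ⟨6, (n - 28) / 7, by omega, by omega, by omega⟩
  · exact ⟨4, (n - 22) / 7, by omega, by omega, by omega⟩
  · exact ⟨2, (n - 16) / 7, by omega, by omega, by omega⟩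
  · exact ⟨7, (n - 31) / 7, by omega, by omega, by omega⟩
  · exact ⟨5, (n - 25) / 7, by omega, by omega, by omega⟩
  · exact ⟨3, (n - 19) / 7, by omega, by omega, by omega⟩
  · exact ⟨1, (n - 13) / 7, by omega, by omega, by omega⟩

end FINM

open FINM in
theorem specFIN (hMIN : SpecMIN) (hLIS : SpecLIS) (hLEV : SpecLEV) (hROO : SpecROO)
    (hCNT : SpecCNT) (hWRD : SpecWRD) (hBIP : SpecBIP) : SpecFIN := by
  intro n hn
  obtain ⟨k, m', hk1, hk7, hm'⟩ := exists_k n hn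
  have hmm : (n - 31) / 7 ≤ m' := by omega
  generalize (n - 31) / 7 = m at hmm ⊢
  let bs : (Fin m → Bool) → List Bool := fun f => List.ofFn f ++ List.replicate (m' - m) false
  have hlen : ∀ f, (bs f).length = m' := by
    intro f
    simp only [bs, List.length_append, List.length_ofFn, List.length_replicate]
    omega
  have hget : ∀ (f : Fin m → Bool) (i : Fin m) (hi : (i : ℕ) < (bs f).length),
      (bs f)[(i : ℕ)] = f i := by
    intro f i hi
    simp only [bs]
    rw [List.getElem_append_left (by rw [List.length_ofFn]; exact i.2)]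
    simp
  have hnn : ∀ f, n = nn (Lk.E :: wd k (bs f)) + 4 := by
    intro f
    rw [hWRD.num, hlen]
    exact hm'
  have h0 : 0 < n := by omega
  refine ⟨fun f => GG n (Lk.E :: wd k (bs f)), fun f => ⟨?_, hBIP _ n (hnn f)⟩, ?_⟩
  · obtain ⟨w, hw⟩ := hWRD.frm k (bs f) hk1
    have h1 := hWRD.okk k (bs f)
    have h2 := hnn f
    simp only
    rw [hw] at h1 h2 ⊢
    exact hMIN w n h1 h2
  · intro f g hfg
    refine ⟨fun φ => hfg ?_⟩
    have hφ0 : φ ⟨0, h0⟩ = ⟨0, h0⟩ := by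
      obtain ⟨w, hw⟩ := hWRD.frm k (bs f) hk1
      obtain ⟨w', hw'⟩ := hWRD.frm k (bs g) hk1
      have h1 := hROO w w' n h0 (by rw [← hw]; exact hnn f) (by rw [← hw']; exact hnn g)
      rw [← hw, ← hw'] at h1
      exact h1 φ
    have hD := hLIS _ _ _ _ _ _ _ _ (hLEV _ n h0 (hnn f)) (hLEV _ n h0 (hnn g)) φ hφ0
    have hbit : ∀ (j : ℕ) (hj : j < m') (h1 : j < (bs f).length) (h2 : j < (bs g).length),
        (bs f)[j] = (bs g)[j] := by
      intro j hj h1 h2
      have e1 := hCNT k (bs f) j h1 hk1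
      have e2 := hCNT k (bs g) j h2 hk1
      rw [← hnn f, hlen] at e1
      rw [← hnn g, hlen] at e2
      have e3 := card_eq n (DF (Lk.E :: wd k (bs f))) (DF (Lk.E :: wd k (bs g))) φ.toEquiv hD
        (2 * k + 4 * (m' - 1 - j) + 2)
      rw [e1, e2] at e3
      cases hb1 : (bs f)[j] <;> cases hb2 : (bs g)[j] <;> simp_all
    funext i
    have him : (i : ℕ) < m' := lt_of_lt_of_le i.2 hmm
    rw [← hget f i (by rw [hlen]; exact him), ← hget g i (by rw [hlen]; exact him)]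
    exact hbit i him _ _

end Pool.Agent.Lib.MPc95e9c
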