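import Pool.Agent.Lib.MP_c95e9c_lc.OB.Spec

/-!
# Module FRC: the graphs are not interval probe graphs
-/

set_option autoImplicit false

namespace Pool.Agent.Lib.MPc95e9c

namespace FRCM

theorem restr (t : Lk) (u : List Lk) (x y : ℕ) (hx : x < nn u) (hy : y < nn u) :
    EE (t :: u) x y ↔ EE u x y := by
  cases t <;> simp only [EE, sq, ed] <;> constructor
  all_goals first
    | (intro h; rcases h with h | h; · exact h
       · exfalso; omega)
    | (intro h; exact Or.inl h)

theorem nn_le (t : Lk) (u : List Lk) : nn u ≤ nn (t :: u) := by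
  cases t <;> simp only [nn] <;> omega

/-- the situation: `F` agrees with `EE u` on the vertices of `u` -/
def Agr (F : ℕ → ℕ → Prop) (u : List Lk) : Prop := ∀ x < nn u, ∀ y < nn u, (F x y ↔ EE u x y)

theorem Agr.tail {F : ℕ → ℕ → Prop} {t : Lk} {u : List Lk} (h : Agr F (t :: u)) : Agr F u := by
  intro x hx y hy
  rw [h x (lt_of_lt_of_le hx (nn_le t u)) y (lt_of_lt_of_le hy (nn_le t u)), restr t u x y hx hy]

/-- the statuses of a square -/
theorem square (hC4 : SpecC4) {F : ℕ → ℕ → Prop} {S N : Set ℕ} {l r : ℕ → ℝ} (hR : Rp F S N l r)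
    (hsym : ∀ u v, F u v → F v u) {p x : ℕ} (hpx : p < x) (hp : p ∈ S) (h0 : x ∈ S)
    (h1 : x + 1 ∈ S) (h2 : x + 2 ∈ S) (e1 : F p x) (e2 : F p (x + 1)) (e3 : F x (x + 2))
    (e4 : F (x + 1) (x + 2)) (n1 : ¬ F p (x + 2)) (n2 : ¬ F x (x + 1)) :
    (p ∈ N ∧ x + 2 ∈ N ∧ x ∉ N) ∨ (p ∉ N ∧ x + 2 ∉ N ∧ x ∈ N) := by
  have h := hC4 F S N l r hR hsym p hp x h0 (x + 2) h2 (x + 1) h1 (by omega) (by omega) (by omega)
    (by omega) (by omega) (by omega) e1 e3 (hsym _ _ e4) (hsym _ _ e2) n1 n2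
  rcases h with ⟨a, b⟩ | ⟨a, b⟩
  · exact Or.inl ⟨a, b, fun c => hR.ind p hp x h0 a c e1⟩
  · exact Or.inr ⟨fun c => hR.ind p hp x h0 c a e1, fun c => hR.ind x h0 (x + 2) h2 a c e3, a⟩

theorem sqfacts {F : ℕ → ℕ → Prop} {u : List Lk} (hBAS : SpecBAS) (t : Lk) (ht : t = Lk.O ∨ t = Lk.A)
    (hA : Agr F (t :: u)) : F (pp u) (nn u) ∧ F (pp u) (nn u + 1) ∧ F (nn u) (nn u + 2) ∧
      F (nn u + 1) (nn u + 2) ∧ ¬ F (pp u) (nn u + 2) ∧ ¬ F (nn u) (nn u + 1) := by
  have hp := hBAS.plt u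
  have hb := hBAS.bnd u
  have hn : nn (t :: u) = nn u + 3 := by rcases ht with rfl | rfl <;> rfl
  have hE : ∀ x y, EE (t :: u) x y ↔ (EE u x y ∨ sq (pp u) (nn u) x y) := by
    intro x y
    rcases ht with rfl | rfl <;> rfl
  refine ⟨?_, ?_, ?_, ?_, ?_, ?_⟩
  · rw [hA _ (by omega) _ (by omega), hE]
    exact Or.inr (Or.inl (Or.inl ⟨rfl, rfl⟩))
  · rw [hA _ (by omega) _ (by omega), hE]
    exact Or.inr (Or.inr (Or.inl (Or.inl ⟨rfl, rfl⟩)))
  · rw [hA _ (by omega) _ (by omega), hE]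
    exact Or.inr (Or.inr (Or.inr (Or.inl (Or.inl ⟨rfl, rfl⟩))))
  · rw [hA _ (by omega) _ (by omega), hE]
    exact Or.inr (Or.inr (Or.inr (Or.inr (Or.inl ⟨rfl, rfl⟩))))
  · rw [hA _ (by omega) _ (by omega), hE]
    rintro (h | h)
    · have := hb _ _ h; omega
    · simp only [sq, ed] at h; omega
  · rw [hA _ (by omega) _ (by omega), hE]
    rintro (h | h)
    · have := hb _ _ h; omega
    · simp only [sq, ed] at h; omega

theorem forced (hBAS : SpecBAS) (hC4 : SpecC4) (hCLW : SpecCLW) {F : ℕ → ℕ → Prop} {S N : Set ℕ}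
    {l r : ℕ → ℝ} (hR : Rp F S N l r) (hsym : ∀ u v, F u v → F v u) :
    ∀ w' : List Lk, Agr F (w' ++ [Lk.O]) → (∀ v < nn (w' ++ [Lk.O]), v ∈ S) → Ok (w' ++ [Lk.O]) →
      (pp (w' ++ [Lk.O]) ∈ N ↔ ss (w' ++ [Lk.O]) = true) := by
  intro w'
  induction w' with
  | nil =>
    intro hA hS _
    have hn : nn ([Lk.O] : List Lk) = 8 := rfl
    have hS' : ∀ v < 8, v ∈ S := hS
    have hA' : ∀ x < 8, ∀ y < 8, (F x y ↔ EE [Lk.O] x y) := hA
    have hf : ∀ x < 8, ∀ y < 8, (F x y ↔ (ed 0 1 x y ∨ ed 1 2 x y ∨ ed 0 3 x y ∨ ed 3 4 x y) ∨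
      sq 0 5 x y) := hA'
    have h0 : (0 : ℕ) ∈ N := by
      refine hCLW F S N l r hR hsym 0 ![1, 3, 5] ![2, 4, 7] (hS' 0 (by norm_num)) ?_ ?_
      · intro i
        fin_cases i
        · refine ⟨hS' 1 (by norm_num), hS' 2 (by norm_num), by decide, by decide, by decide,
            (hf 0 (by norm_num) 1 (by norm_num)).mpr ?_, (hf 1 (by norm_num) 2 (by norm_num)).mpr ?_,
            fun h => ?_⟩
          · simp [ed]
          · simp [ed]
          · have := (hf 0 (by norm_num) 2 (by norm_num)).mp h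
            simp [ed, sq] at this
        · refine ⟨hS' 3 (by norm_num), hS' 4 (by norm_num), by decide, by decide, by decide,
            (hf 0 (by norm_num) 3 (by norm_num)).mpr ?_, (hf 3 (by norm_num) 4 (by norm_num)).mpr ?_,
            fun h => ?_⟩
          · simp [ed]
          · simp [ed]
          · have := (hf 0 (by norm_num) 4 (by norm_num)).mp h
            simp [ed, sq] at this
        · refine ⟨hS' 5 (by norm_num), hS' 7 (by norm_num), by decide, by decide, by decide,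
            (hf 0 (by norm_num) 5 (by norm_num)).mpr ?_, (hf 5 (by norm_num) 7 (by norm_num)).mpr ?_,
            fun h => ?_⟩
          · simp [ed, sq]
          · simp [ed, sq]
          · have := (hf 0 (by norm_num) 7 (by norm_num)).mp h
            simp [ed, sq] at this
      · have key : ∀ x < 8, ∀ y < 8, ¬ ((ed 0 1 x y ∨ ed 1 2 x y ∨ ed 0 3 x y ∨ ed 3 4 x y) ∨
            sq 0 5 x y) → ¬ F x y := fun x hx y hy h h' => h ((hf x hx y hy).mp h')
        intro i j hij
        fin_cases i <;> fin_cases j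
        all_goals first
          | exact absurd rfl hij
          | (refine ⟨by decide, by decide, by decide, key _ (by decide) _ (by decide) ?_,
              key _ (by decide) _ (by decide) ?_, key _ (by decide) _ (by decide) ?_⟩ <;>
              simp [ed, sq])
    obtain ⟨e1, e2, e3, e4, n1, n2⟩ := sqfacts (u := []) hBAS Lk.O (Or.inl rfl) hA
    have hsq := square hC4 hR hsym (p := 0) (x := 5) (by norm_num) (hS' 0 (by norm_num))
      (hS' 5 (by norm_num)) (hS' 6 (by norm_num)) (hS' 7 (by norm_num)) e1 e2 e3 e4 n1 n2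
    have h7 : (7 : ℕ) ∈ N := by
      rcases hsq with h | h
      · exact h.2.1
      · exact absurd h0 h.1
    exact iff_of_true h7 rfl
  | cons t w' ih =>
    intro hA hS hok
    have hA' : Agr F (t :: (w' ++ [Lk.O])) := hA
    set u : List Lk := w' ++ [Lk.O] with hu
    have hS' : ∀ v < nn (t :: u), v ∈ S := hS
    have hSu : ∀ v < nn u, v ∈ S := fun v hv => hS' v (lt_of_lt_of_le hv (nn_le t u))
    have hp := hBAS.plt u
    cases t with
    | O =>
      have h1 := ih hA'.tail hSu hok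
      have hn : nn (Lk.O :: u) = nn u + 3 := rfl
      obtain ⟨e1, e2, e3, e4, n1, n2⟩ := sqfacts hBAS Lk.O (Or.inl rfl) hA'
      have hsq := square hC4 hR hsym hp (hSu _ hp) (hS' _ (by omega)) (hS' _ (by omega))
        (hS' _ (by omega)) e1 e2 e3 e4 n1 n2
      change (nn u + 2 ∈ N ↔ ss u = true)
      rw [← h1]
      rcases hsq with h | h
      · exact iff_of_true h.2.1 h.1
      · exact iff_of_false h.2.1 h.1
    | E =>
      have hok' : Ok u ∧ ss u = true := hok
      have h1 := (ih hA'.tail hSu hok'.1).mpr hok'.2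
      have hn : nn (Lk.E :: u) = nn u + 1 := rfl
      have e1 : F (pp u) (nn u) := by
        rw [hA' _ (by omega) _ (by omega)]
        exact Or.inr (Or.inl ⟨rfl, rfl⟩)
      change (nn u ∈ N ↔ false = true)
      refine iff_of_false (fun h => hR.ind _ (hSu _ hp) _ (hS' _ (by omega)) h1 h e1) (by decide)
    | A =>
      have hok' : Ok u ∧ ss u = false := hok
      have h1 := ih hA'.tail hSu hok'.1
      have h2 : pp u ∉ N := fun h => by
        have := h1.mp h
        rw [hok'.2] at this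
        exact Bool.noConfusion this
      have hn : nn (Lk.A :: u) = nn u + 3 := rfl
      obtain ⟨e1, e2, e3, e4, n1, n2⟩ := sqfacts hBAS Lk.A (Or.inr rfl) hA'
      have hsq := square hC4 hR hsym hp (hSu _ hp) (hS' _ (by omega)) (hS' _ (by omega))
        (hS' _ (by omega)) e1 e2 e3 e4 n1 n2
      change (nn u ∈ N ↔ true = true)
      rcases hsq with h | h
      · exact absurd h.1 h2
      · exact iff_of_true h.2.2 rfl

end FRCM

open FRCM in
theorem specFRC (hBAS : SpecBAS) (hC4 : SpecC4) (hCLW : SpecCLW) : SpecFRC := by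
  intro w hok hPl
  obtain ⟨N, l, r, hR⟩ := hPl
  set u : List Lk := w ++ [Lk.O] with hu
  have hsym := hBAS.symF (Lk.E :: u)
  have hp := hBAS.plt u
  have hn : nn (Lk.E :: u) = nn u + 1 := rfl
  have hA : Agr (EF (Lk.E :: u)) (Lk.E :: u) := by
    intro x hx y hy
    unfold EF
    constructor
    · rintro (h | h)
      · exact h
      · exfalso
        have := hBAS.plt (Lk.E :: u)
        simp only [rt, ed] at h
        omega
    · exact Or.inl
  have hS : ∀ v < nn (Lk.E :: u), v ∈ {v | v < nn (Lk.E :: u) + 4} := by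
    intro v hv
    change v < nn (Lk.E :: u) + 4
    omega
  have hok' : Ok u ∧ ss u = true := hok
  have hPN : pp (Lk.E :: u) ∉ N := by
    intro h
    have h1 := (forced hBAS hC4 hCLW hR hsym (Lk.E :: w) (by simpa [hu] using hA)
      (by simpa [hu] using hS) (by simpa [hu] using hok)).mp (by simpa [hu] using h)
    exact Bool.noConfusion h1
  apply hPN
  obtain ⟨t, ht⟩ := hBAS.nbr u
  have htb := hBAS.bnd u _ _ ht
  set m : ℕ := nn u with hm
  have hpp : pp (Lk.E :: u) = m := rfl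
  rw [hpp]
  have hEF : ∀ x y, EF (Lk.E :: u) x y ↔ ((EE u x y ∨ ed (pp u) m x y) ∨ (ed m (m + 1) x y ∨
      ed (m + 1) (m + 2) x y ∨ ed m (m + 3) x y ∨ ed (m + 3) (m + 4) x y)) := by
    intro x y
    exact Iff.rfl
  have htp : t ≠ pp u := by
    intro h
    rw [h] at ht
    exact hBAS.irr u _ ht
  have hno : ∀ x y, (m ≤ x ∨ m ≤ y) → ¬ EE u x y := by
    intro x y hxy h
    have := hBAS.bnd u x y h
    omega
  have hkey : ∀ x y, (m ≤ x ∨ m ≤ y) → ¬ (ed (pp u) m x y ∨ (ed m (m + 1) x y ∨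
      ed (m + 1) (m + 2) x y ∨ ed m (m + 3) x y ∨ ed (m + 3) (m + 4) x y)) →
      ¬ EF (Lk.E :: u) x y := by
    intro x y hxy h h'
    rcases (hEF x y).mp h' with (h1 | h1) | h1
    · exact hno x y hxy h1
    · exact h (Or.inl h1)
    · exact h (Or.inr h1)
  refine hCLW _ _ _ _ _ hR hsym m ![m + 1, m + 3, pp u] ![m + 2, m + 4, t] ?_ ?_ ?_
  · change m < nn (Lk.E :: u) + 4
    omega
  · intro i
    fin_cases i
    · refine ⟨?_, ?_, ?_, ?_, ?_, (hEF _ _).mpr ?_, (hEF _ _).mpr ?_, hkey _ _ ?_ ?_⟩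
      · change m + 1 < nn (Lk.E :: u) + 4
        omega
      · change m + 2 < nn (Lk.E :: u) + 4
        omega
      · change m + 1 ≠ m + 2
        omega
      · change m ≠ m + 1
        omega
      · change m ≠ m + 2
        omega
      · right; left; exact Or.inl ⟨rfl, rfl⟩
      · right; right; left; exact Or.inl ⟨rfl, rfl⟩
      · exact Or.inl le_rfl
      · change ¬ (ed (pp u) m m (m + 2) ∨ (ed m (m + 1) m (m + 2) ∨
          ed (m + 1) (m + 2) m (m + 2) ∨ ed m (m + 3) m (m + 2) ∨ ed (m + 3) (m + 4) m (m + 2)))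
        simp only [ed]
        omega
    · refine ⟨?_, ?_, ?_, ?_, ?_, (hEF _ _).mpr ?_, (hEF _ _).mpr ?_, hkey _ _ ?_ ?_⟩
      · change m + 3 < nn (Lk.E :: u) + 4
        omega
      · change m + 4 < nn (Lk.E :: u) + 4
        omega
      · change m + 3 ≠ m + 4
        omega
      · change m ≠ m + 3
        omega
      · change m ≠ m + 4
        omega
      · right; right; right; left; exact Or.inl ⟨rfl, rfl⟩
      · right; right; right; right; exact Or.inl ⟨rfl, rfl⟩
      · exact Or.inl le_rfl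
      · change ¬ (ed (pp u) m m (m + 4) ∨ (ed m (m + 1) m (m + 4) ∨
          ed (m + 1) (m + 2) m (m + 4) ∨ ed m (m + 3) m (m + 4) ∨ ed (m + 3) (m + 4) m (m + 4)))
        simp only [ed]
        omega
    · refine ⟨?_, ?_, ?_, ?_, ?_, (hEF _ _).mpr ?_, (hEF _ _).mpr ?_, hkey _ _ ?_ ?_⟩
      · change pp u < nn (Lk.E :: u) + 4
        omega
      · change t < nn (Lk.E :: u) + 4
        omega
      · exact htp.symm
      · change m ≠ pp u
        omega
      · change m ≠ t
        omega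
      · left; right; exact Or.inr ⟨rfl, rfl⟩
      · left; left; exact ht
      · exact Or.inl le_rfl
      · change ¬ (ed (pp u) m m t ∨ (ed m (m + 1) m t ∨
          ed (m + 1) (m + 2) m t ∨ ed m (m + 3) m t ∨ ed (m + 3) (m + 4) m t))
        simp only [ed]
        omega
  · intro i j hij
    fin_cases i <;> fin_cases j
    all_goals first
      | exact absurd rfl hij
      | skip
    · refine ⟨?_, ?_, ?_, hkey _ _ ?_ ?_, hkey _ _ ?_ ?_, hkey _ _ ?_ ?_⟩ <;>
        (try simp) <;> (try simp only [ed]) <;> omega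
    · refine ⟨?_, ?_, ?_, hkey _ _ ?_ ?_, hkey _ _ ?_ ?_, hkey _ _ ?_ ?_⟩ <;>
        (try simp) <;> (try simp only [ed]) <;> omega
    · refine ⟨?_, ?_, ?_, hkey _ _ ?_ ?_, hkey _ _ ?_ ?_, hkey _ _ ?_ ?_⟩ <;>
        (try simp) <;> (try simp only [ed]) <;> omega
    · refine ⟨?_, ?_, ?_, hkey _ _ ?_ ?_, hkey _ _ ?_ ?_, hkey _ _ ?_ ?_⟩ <;>
        (try simp) <;> (try simp only [ed]) <;> omega
    · refine ⟨?_, ?_, ?_, hkey _ _ ?_ ?_, hkey _ _ ?_ ?_, hkey _ _ ?_ ?_⟩ <;>
        (try simp) <;> (try simp only [ed]) <;> omega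
    · refine ⟨?_, ?_, ?_, hkey _ _ ?_ ?_, hkey _ _ ?_ ?_, hkey _ _ ?_ ?_⟩ <;>
        (try simp) <;> (try simp only [ed]) <;> omega

end Pool.Agent.Lib.MPc95e9c
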