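import Pool.Agent.Lib.MP_c95e9c_lc.OB.Spec

/-! # Module GLU: gluing of representations. -/

set_option autoImplicit false

namespace Pool.Agent.Lib.MPc95e9c

open Classical in
theorem specGLU : SpecGLU := by
  intro E E' S T N NT l r a b p M e hR hdis hpT hM1 hM2 he hsym hSS hST hab hTind hpind hTT hpT2
  have hnT : ∀ v ∈ S, v ∉ T := fun v hv hT => Set.disjoint_left.mp hdis hv hT
  let l' : ℕ → ℝ := fun v => if v ∈ T then M + a v else l v
  let r' : ℕ → ℝ := fun v => if v ∈ T then M + b v else if v = p then M + e else r v
  let N' : Set ℕ := (N ∩ S) ∪ (NT ∩ T)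
  have lT : ∀ v ∈ T, l' v = M + a v := fun v hv => if_pos hv
  have rT : ∀ v ∈ T, r' v = M + b v := fun v hv => if_pos hv
  have lS : ∀ v ∈ S, l' v = l v := fun v hv => if_neg (hnT v hv)
  have rS : ∀ v ∈ S, v ≠ p → r' v = r v := by
    intro v hv hvp
    simp only [r', if_neg (hnT v hv), if_neg hvp]
  have rp : r' p = M + e := by
    simp only [r', if_neg hpT, if_true]
  have NS : ∀ v ∈ S, (v ∈ N' ↔ v ∈ N) := by
    intro v hv
    constructor
    · rintro (h | h)
      · exact h.1
      · exact absurd h.2 (hnT v hv)
    · intro h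
      exact Or.inl ⟨h, hv⟩
  have NTT : ∀ v ∈ T, (v ∈ N' ↔ v ∈ NT) := by
    intro v hv
    constructor
    · rintro (h | h)
      · exact absurd hv (hnT v h.2)
      · exact h.1
    · intro h
      exact Or.inr ⟨h, hv⟩
  -- mixed independence and adjacency
  have indST : ∀ u ∈ S, ∀ v ∈ T, u ∈ N' → v ∈ N' → ¬ E' u v := by
    intro u hu v hv huN hvN
    by_cases hup : u = p
    · subst hup
      exact hpind hu ((NS u hu).mp huN) v hv ((NTT v hv).mp hvN)
    · exact hST u hu hup v hv
  have adjST : ∀ u ∈ S, ∀ v ∈ T, ¬ (u ∈ N' ∧ v ∈ N') → (E' u v ↔ l' u ≤ r' v ∧ l' v ≤ r' u) := by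
    intro u hu v hv hn
    rw [lS u hu, lT v hv, rT v hv]
    obtain ⟨ha1, ha2⟩ := hab v hv
    by_cases hup : u = p
    · subst hup
      rw [NS u hu, NTT v hv] at hn
      rw [rp, hpT2 hu v hv hn]
      have h1 := hM2 hu
      have h2 := hR.le u hu
      constructor
      · intro h
        exact ⟨by linarith, by linarith⟩
      · intro h
        linarith [h.2]
    · rw [rS u hu hup]
      have h1 := hM1 u hu hup
      constructor
      · intro h
        exact absurd h (hST u hu hup v hv)
      · intro h
        linarith [h.2]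
  refine ⟨N', l', r', ⟨?_, ?_, ?_⟩, ?_, ?_, ?_⟩
  · rintro v (hv | hv)
    · rw [lS v hv]
      by_cases hvp : v = p
      · subst hvp
        rw [rp]
        have h1 := hM2 hv
        have h2 := hR.le v hv
        linarith
      · rw [rS v hv hvp]
        exact hR.le v hv
    · rw [lT v hv, rT v hv]
      have := (hab v hv).2
      linarith
  · rintro u (hu | hu) v (hv | hv) huN hvN
    · rw [hSS u hu v hv]
      exact hR.ind u hu v hv ((NS u hu).mp huN) ((NS v hv).mp hvN)
    · exact indST u hu v hv huN hvN
    · intro h
      exact indST v hv u hu hvN huN (hsym u v h)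
    · exact hTind u hu v hv ((NTT u hu).mp huN) ((NTT v hv).mp hvN)
  · rintro u (hu | hu) v (hv | hv) huv hn
    · rw [NS u hu, NS v hv] at hn
      rw [hSS u hu v hv, lS u hu, lS v hv, hR.adj u hu v hv huv hn]
      by_cases hup : u = p
      · have hvp : v ≠ p := fun h => huv (hup.trans h.symm)
        subst hup
        rw [rp, rS v hv hvp, hM2 hu]
        have h1 := hM1 v hv hvp
        have h2 := hR.le v hv
        constructor
        · intro h
          exact ⟨h.1, by linarith⟩
        · intro h
          exact ⟨h.1, by linarith⟩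
      · by_cases hvp : v = p
        · subst hvp
          rw [rp, rS u hu hup, hM2 hv]
          have h1 := hM1 u hu hup
          have h2 := hR.le u hu
          constructor
          · intro h
            exact ⟨by linarith, h.2⟩
          · intro h
            exact ⟨by linarith, h.2⟩
        · rw [rS u hu hup, rS v hv hvp]
    · exact adjST u hu v hv hn
    · have h1 := adjST v hv u hu (fun h => hn ⟨h.2, h.1⟩)
      constructor
      · intro h
        exact (h1.mp (hsym u v h)).symm
      · intro h
        exact hsym v u (h1.mpr h.symm)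
    · rw [NTT u hu, NTT v hv] at hn
      rw [hTT u hu v hv huv hn, lT u hu, lT v hv, rT u hu, rT v hv]
      constructor
      · intro h
        exact ⟨by linarith [h.1], by linarith [h.2]⟩
      · intro h
        exact ⟨by linarith [h.1], by linarith [h.2]⟩
  · intro v hv
    exact ⟨NTT v hv, rT v hv⟩
  · intro v hv hvp
    rw [rS v hv hvp]
    exact hM1 v hv hvp
  · intro hp
    exact ⟨rp, NS p hp⟩

end Pool.Agent.Lib.MPc95e9c
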