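import Pool.Agent.Lib.MP_c95e9c_lc.OB.Spec

/-!
# Module LEV: the distances
-/

set_option autoImplicit false

namespace Pool.Agent.Lib.MPc95e9c

namespace LEVM

theorem DD_O (w : List Lk) {v : ℕ} (h : v < nn w) : DD (Lk.O :: w) v = DD w v := by
  show (if v < nn w then _ else _) = _
  rw [if_pos h]

theorem DD_E (w : List Lk) {v : ℕ} (h : v < nn w) : DD (Lk.E :: w) v = DD w v := by
  show (if v < nn w then _ else _) = _
  rw [if_pos h]

theorem DD_A (w : List Lk) {v : ℕ} (h : v < nn w) : DD (Lk.A :: w) v = DD w v := by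
  show (if v < nn w then _ else _) = _
  rw [if_pos h]

theorem DD_O1 (w : List Lk) : DD (Lk.O :: w) (nn w) = DD w (pp w) + 1 := by
  show (if nn w < nn w then _ else if nn w = nn w + 2 then _ else _) = _
  rw [if_neg (by omega), if_neg (by omega)]

theorem DD_O2 (w : List Lk) : DD (Lk.O :: w) (nn w + 1) = DD w (pp w) + 1 := by
  show (if nn w + 1 < nn w then _ else if nn w + 1 = nn w + 2 then _ else _) = _
  rw [if_neg (by omega), if_neg (by omega)]

theorem DD_O3 (w : List Lk) : DD (Lk.O :: w) (nn w + 2) = DD w (pp w) + 2 := by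
  show (if nn w + 2 < nn w then _ else if nn w + 2 = nn w + 2 then _ else _) = _
  rw [if_neg (by omega), if_pos rfl]

theorem DD_A1 (w : List Lk) : DD (Lk.A :: w) (nn w) = DD w (pp w) + 1 := by
  show (if nn w < nn w then _ else if nn w = nn w + 2 then _ else _) = _
  rw [if_neg (by omega), if_neg (by omega)]

theorem DD_A2 (w : List Lk) : DD (Lk.A :: w) (nn w + 1) = DD w (pp w) + 1 := by
  show (if nn w + 1 < nn w then _ else if nn w + 1 = nn w + 2 then _ else _) = _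
  rw [if_neg (by omega), if_neg (by omega)]

theorem DD_A3 (w : List Lk) : DD (Lk.A :: w) (nn w + 2) = DD w (pp w) + 2 := by
  show (if nn w + 2 < nn w then _ else if nn w + 2 = nn w + 2 then _ else _) = _
  rw [if_neg (by omega), if_pos rfl]

theorem DD_E1 (w : List Lk) : DD (Lk.E :: w) (nn w) = DD w (pp w) + 1 := by
  show (if nn w < nn w then _ else _) = _
  rw [if_neg (by omega)]

theorem DD_zero (hB : SpecBAS) (w : List Lk) : DD w 0 = 0 := by
  induction w with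
  | nil => rfl
  | cons l w ih =>
    have h5 := hB.five w
    cases l
    · rw [DD_O w (by omega), ih]
    · rw [DD_E w (by omega), ih]
    · rw [DD_A w (by omega), ih]

theorem step_DD (hB : SpecBAS) (w : List Lk) : ∀ u v, EE w u v → DD w v ≤ DD w u + 1 := by
  induction w with
  | nil =>
    intro u v h
    simp only [EE, ed] at h
    rcases h with (⟨rfl, rfl⟩ | ⟨rfl, rfl⟩) | (⟨rfl, rfl⟩ | ⟨rfl, rfl⟩) |
      (⟨rfl, rfl⟩ | ⟨rfl, rfl⟩) | (⟨rfl, rfl⟩ | ⟨rfl, rfl⟩) <;> simp [DD]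
  | cons l w ih =>
    intro u v h
    have hp := hB.plt w
    cases l
    · have h' : EE w u v ∨ sq (pp w) (nn w) u v := h
      rcases h' with h | h
      · obtain ⟨hu, hv⟩ := hB.bnd w u v h
        rw [DD_O w hu, DD_O w hv]
        exact ih u v h
      · simp only [sq, ed] at h
        rcases h with (⟨rfl, rfl⟩ | ⟨rfl, rfl⟩) | (⟨rfl, rfl⟩ | ⟨rfl, rfl⟩) |
          (⟨rfl, rfl⟩ | ⟨rfl, rfl⟩) | (⟨rfl, rfl⟩ | ⟨rfl, rfl⟩) <;>
        simp only [DD_O w hp, DD_O1, DD_O2, DD_O3] <;> omega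
    · have h' : EE w u v ∨ ed (pp w) (nn w) u v := h
      rcases h' with h | h
      · obtain ⟨hu, hv⟩ := hB.bnd w u v h
        rw [DD_E w hu, DD_E w hv]
        exact ih u v h
      · simp only [ed] at h
        rcases h with ⟨rfl, rfl⟩ | ⟨rfl, rfl⟩ <;>
        simp only [DD_E w hp, DD_E1] <;> omega
    · have h' : EE w u v ∨ sq (pp w) (nn w) u v := h
      rcases h' with h | h
      · obtain ⟨hu, hv⟩ := hB.bnd w u v h
        rw [DD_A w hu, DD_A w hv]
        exact ih u v h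
      · simp only [sq, ed] at h
        rcases h with (⟨rfl, rfl⟩ | ⟨rfl, rfl⟩) | (⟨rfl, rfl⟩ | ⟨rfl, rfl⟩) |
          (⟨rfl, rfl⟩ | ⟨rfl, rfl⟩) | (⟨rfl, rfl⟩ | ⟨rfl, rfl⟩) <;>
        simp only [DD_A w hp, DD_A1, DD_A2, DD_A3] <;> omega

theorem pre_DD (hB : SpecBAS) (w : List Lk) : ∀ v, v < nn w → v ≠ 0 →
    ∃ u, EE w u v ∧ DD w v = DD w u + 1 := by
  induction w with
  | nil =>
    intro v hv h0
    have hv' : v < 5 := hv
    have hc : v = 1 ∨ v = 2 ∨ v = 3 ∨ v = 4 := by omega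
    rcases hc with rfl | rfl | rfl | rfl
    · exact ⟨0, by simp [EE, ed], by simp [DD]⟩
    · exact ⟨1, by simp [EE, ed], by simp [DD]⟩
    · exact ⟨0, by simp [EE, ed], by simp [DD]⟩
    · exact ⟨3, by simp [EE, ed], by simp [DD]⟩
  | cons l w ih =>
    intro v hv h0
    have hp := hB.plt w
    cases l
    · have hv' : v < nn w + 3 := hv
      by_cases hlt : v < nn w
      · obtain ⟨u, hu, hd⟩ := ih v hlt h0
        have hb := (hB.bnd w u v hu).1
        exact ⟨u, Or.inl hu, by rw [DD_O w hlt, DD_O w hb, hd]⟩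
      · have hc : v = nn w ∨ v = nn w + 1 ∨ v = nn w + 2 := by omega
        rcases hc with rfl | rfl | rfl
        · exact ⟨pp w, Or.inr (Or.inl (Or.inl ⟨rfl, rfl⟩)), by rw [DD_O w hp, DD_O1]⟩
        · exact ⟨pp w, Or.inr (Or.inr (Or.inl (Or.inl ⟨rfl, rfl⟩))), by rw [DD_O w hp, DD_O2]⟩
        · exact ⟨nn w, Or.inr (Or.inr (Or.inr (Or.inl (Or.inl ⟨rfl, rfl⟩)))), by
            rw [DD_O3, DD_O1]⟩
    · have hv' : v < nn w + 1 := hv
      by_cases hlt : v < nn w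
      · obtain ⟨u, hu, hd⟩ := ih v hlt h0
        have hb := (hB.bnd w u v hu).1
        exact ⟨u, Or.inl hu, by rw [DD_E w hlt, DD_E w hb, hd]⟩
      · have hc : v = nn w := by omega
        subst hc
        exact ⟨pp w, Or.inr (Or.inl ⟨rfl, rfl⟩), by rw [DD_E w hp, DD_E1]⟩
    · have hv' : v < nn w + 3 := hv
      by_cases hlt : v < nn w
      · obtain ⟨u, hu, hd⟩ := ih v hlt h0
        have hb := (hB.bnd w u v hu).1
        exact ⟨u, Or.inl hu, by rw [DD_A w hlt, DD_A w hb, hd]⟩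
      · have hc : v = nn w ∨ v = nn w + 1 ∨ v = nn w + 2 := by omega
        rcases hc with rfl | rfl | rfl
        · exact ⟨pp w, Or.inr (Or.inl (Or.inl ⟨rfl, rfl⟩)), by rw [DD_A w hp, DD_A1]⟩
        · exact ⟨pp w, Or.inr (Or.inr (Or.inl (Or.inl ⟨rfl, rfl⟩))), by rw [DD_A w hp, DD_A2]⟩
        · exact ⟨nn w, Or.inr (Or.inr (Or.inr (Or.inl (Or.inl ⟨rfl, rfl⟩)))), by
            rw [DD_A3, DD_A1]⟩

theorem DF_lt {w : List Lk} {v : ℕ} (h : v < nn w) : DF w v = DD w v := by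
  unfold DF
  rw [if_pos h]

theorem DF_1 (w : List Lk) : DF w (nn w) = DD w (pp w) + 1 := by
  unfold DF
  rw [if_neg (by omega), if_pos (Or.inl rfl)]

theorem DF_2 (w : List Lk) : DF w (nn w + 1) = DD w (pp w) + 2 := by
  unfold DF
  rw [if_neg (by omega), if_neg (by omega)]

theorem DF_3 (w : List Lk) : DF w (nn w + 2) = DD w (pp w) + 1 := by
  unfold DF
  rw [if_neg (by omega), if_pos (Or.inr rfl)]

theorem DF_4 (w : List Lk) : DF w (nn w + 3) = DD w (pp w) + 2 := by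
  unfold DF
  rw [if_neg (by omega), if_neg (by omega)]

theorem step_DF (hB : SpecBAS) (w : List Lk) (u v : ℕ) (h : EF w u v) :
    DF w v ≤ DF w u + 1 := by
  have hp := hB.plt w
  rcases h with h | h
  · obtain ⟨hu, hv⟩ := hB.bnd w u v h
    rw [DF_lt hu, DF_lt hv]
    exact step_DD hB w u v h
  · simp only [rt, ed] at h
    rcases h with (⟨rfl, rfl⟩ | ⟨rfl, rfl⟩) | (⟨rfl, rfl⟩ | ⟨rfl, rfl⟩) |
      (⟨rfl, rfl⟩ | ⟨rfl, rfl⟩) | (⟨rfl, rfl⟩ | ⟨rfl, rfl⟩) <;>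
    simp only [DF_lt hp, DF_1, DF_2, DF_3, DF_4] <;> omega

theorem pre_DF (hB : SpecBAS) (w : List Lk) (v : ℕ) (hv : v < nn w + 4) (h0 : v ≠ 0) :
    ∃ u, EF w u v ∧ DF w v = DF w u + 1 := by
  have hp := hB.plt w
  by_cases hlt : v < nn w
  · obtain ⟨u, hu, hd⟩ := pre_DD hB w v hlt h0
    have hb := (hB.bnd w u v hu).1
    exact ⟨u, Or.inl hu, by rw [DF_lt hlt, DF_lt hb, hd]⟩
  · have hc : v = nn w ∨ v = nn w + 1 ∨ v = nn w + 2 ∨ v = nn w + 3 := by omega
    rcases hc with rfl | rfl | rfl | rfl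
    · exact ⟨pp w, Or.inr (Or.inl (Or.inl ⟨rfl, rfl⟩)), by rw [DF_lt hp, DF_1]⟩
    · exact ⟨nn w, Or.inr (Or.inr (Or.inl (Or.inl ⟨rfl, rfl⟩))), by rw [DF_2, DF_1]⟩
    · exact ⟨pp w, Or.inr (Or.inr (Or.inr (Or.inl (Or.inl ⟨rfl, rfl⟩)))), by
        rw [DF_lt hp, DF_3]⟩
    · exact ⟨nn w + 2, Or.inr (Or.inr (Or.inr (Or.inr (Or.inl ⟨rfl, rfl⟩)))), by
        rw [DF_4, DF_3]⟩

end LEVM

open LEVM in
theorem specLEV (hBAS : SpecBAS) : SpecLEV := by
  intro w n h0 hn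
  refine ⟨?_, ?_, ?_⟩
  · have h5 := hBAS.five w
    show DF w 0 = 0
    rw [DF_lt (by omega), DD_zero hBAS]
  · intro u v h
    exact step_DF hBAS w u v ((hBAS.adjG n w u v).1 h)
  · intro v hv
    have hv0 : (v : ℕ) ≠ 0 := fun h => hv (Fin.ext h)
    obtain ⟨u, hu, hd⟩ := pre_DF hBAS w v (by have := v.2; omega) hv0
    have hb := (hBAS.bndF w u v hu).1
    exact ⟨⟨u, by omega⟩, (hBAS.adjG n w _ _).2 hu, hd⟩

end Pool.Agent.Lib.MPc95e9c
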