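import Pool.Agent.Lib.MP_c95e9c_lc.OB.Spec

/-!
# MP_c95e9c_lc, module LIS: isomorphisms preserve the distances from the root
-/

set_option autoImplicit false

namespace Pool.Agent.Lib.MPc95e9c

namespace LISM

lemma le_aux {V V' : Type} {G : SimpleGraph V} {G' : SimpleGraph V'} {o : V} {o' : V'}
    {D : V → ℕ} {D' : V' → ℕ} (h : Lev G o D) (h' : Lev G' o' D') (φ : G ≃g G') (ho : φ o = o') :
    ∀ (n : ℕ) (v : V), D v = n → D' (φ v) ≤ n := by
  intro n
  induction n using Nat.strong_induction_on with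
  | _ n ih =>
    intro v hv
    by_cases hvo : v = o
    · subst hvo
      rw [ho, h'.zero]
      exact Nat.zero_le _
    · obtain ⟨u, hu, hD⟩ := h.pre v hvo
      have h1 : D' (φ v) ≤ D' (φ u) + 1 := h'.step _ _ (φ.map_adj_iff.2 hu)
      have h2 := ih (D u) (by omega) u rfl
      omega

end LISM

theorem specLIS : SpecLIS := by
  intro V V' G G' o o' D D' h h' φ ho v
  apply le_antisymm
  · exact LISM.le_aux h h' φ ho (D v) v rfl
  · have h1 := LISM.le_aux h' h φ.symm (by rw [← ho]; exact φ.symm_apply_apply o) (D' (φ v)) (φ v) rfl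
    have h2 : φ.symm (φ v) = v := φ.symm_apply_apply v
    rw [h2] at h1
    exact h1

end Pool.Agent.Lib.MPc95e9c
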