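import Pool.Agent.Lib.MP_c95e9c_lc.OB.Spec

/-!
# Module MIN (helper52)
-/

set_option autoImplicit false

namespace Pool.Agent.Lib.MPc95e9c

namespace MINM

theorem inv_of_ok (hNIL : SpecNIL) (hSTE : SpecSTE) (hSTO : SpecSTO) (hSTA : SpecSTA) :
    ∀ w : List Lk, Ok w → Inv w := by
  intro w
  induction w with
  | nil => exact fun _ => hNIL
  | cons x w ih =>
    cases x with
    | O => exact fun h => hSTO w (ih h)
    | E => exact fun h => hSTE w (ih h.1) h.2
    | A => exact fun h => hSTA w (ih h.1) h.2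

end MINM

theorem specMIN (hBAS : SpecBAS) (hNIL : SpecNIL) (hSTE : SpecSTE) (hSTO : SpecSTO)
    (hSTA : SpecSTA) (hEND : SpecEND) (hFRC : SpecFRC) (hCNV : SpecCNV) : SpecMIN := by
  intro w n hok hn
  have hadj : ∀ u v : Fin n, (GG n (Lk.E :: (w ++ [Lk.O]))).Adj u v ↔
      EF (Lk.E :: (w ++ [Lk.O])) u v := hBAS.adjG n _
  constructor
  · intro hI
    have h1 := hCNV.fwd n _ _ hadj hI
    rw [hn] at h1
    exact hFRC w hok h1
  · intro S hS
    obtain ⟨u, hu⟩ := (Set.ne_univ_iff_exists_notMem S).1 hS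
    have hinv := MINM.inv_of_ok hNIL hSTE hSTO hSTA _ hok
    have hlt : (u : ℕ) < nn (Lk.E :: (w ++ [Lk.O])) + 4 := hn ▸ u.2
    have hpl := hEND _ hinv rfl u hlt
    refine hCNV.bwd n _ _ hadj S ({v | v < nn (Lk.E :: (w ++ [Lk.O])) + 4} \ {(u : ℕ)})
      (fun v hv => ⟨?_, ?_⟩) hpl
    · show (v : ℕ) < nn (Lk.E :: (w ++ [Lk.O])) + 4
      exact hn ▸ v.2
    · intro h
      have h2 : v = u := Fin.ext h
      exact hu (h2 ▸ hv)

end Pool.Agent.Lib.MPc95e9c
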