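import Pool.Agent.Lib.MP_c95e9c_lc.OB.Spec

/-! # Module NIL: the left end. -/

set_option autoImplicit false

namespace Pool.Agent.Lib.MPc95e9c

namespace NILM

/-- a representation with integral end points -/
lemma mk (E : ℕ → ℕ → Prop) (S N : Set ℕ) (L R : ℕ → ℤ) (h1 : ∀ v ∈ S, L v ≤ R v)
    (h2 : ∀ u ∈ S, ∀ v ∈ S, u ∈ N → v ∈ N → ¬ E u v)
    (h3 : ∀ u ∈ S, ∀ v ∈ S, u ≠ v → ¬ (u ∈ N ∧ v ∈ N) → (E u v ↔ L u ≤ R v ∧ L v ≤ R u)) :
    Rp E S N (fun v => (L v : ℝ)) (fun v => (R v : ℝ)) := by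
  refine ⟨fun v hv => ?_, h2, fun u hu v hv huv hn => ?_⟩
  · exact_mod_cast h1 v hv
  · rw [h3 u hu v hv huv hn, Int.cast_le, Int.cast_le]

/-- five intervals -/
def f5 (x0 x1 x2 x3 x4 : ℤ) (v : ℕ) : ℤ :=
  if v = 0 then x0 else if v = 1 then x1 else if v = 2 then x2 else if v = 3 then x3 else x4

lemma nil_iff (u v : ℕ) : EE [] u v ↔ (((u = 0 ∧ v = 1) ∨ (u = 1 ∧ v = 0)) ∨
    ((u = 1 ∧ v = 2) ∨ (u = 2 ∧ v = 1)) ∨ ((u = 0 ∧ v = 3) ∨ (u = 3 ∧ v = 0)) ∨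
    ((u = 3 ∧ v = 4) ∨ (u = 4 ∧ v = 3))) := by
  simp only [EE, ed]

lemma mem_V (v : ℕ) : v ∈ Vw [] ↔ v < 5 := Iff.rfl

lemma full : Ex (EE []) (Vw []) (pp []) (ss []) := by
  refine ⟨{v | v = 0 ∨ v = 4}, _, _, mk (EE []) (Vw []) {v | v = 0 ∨ v = 4}
    (f5 2 1 0 3 4) (f5 10 2 1 4 5) ?_ ?_ ?_, ?_, ?_, ?_⟩
  · intro v hv
    rw [mem_V] at hv
    interval_cases v <;> decide
  · intro u hu v hv
    rw [mem_V] at hu hv
    rw [nil_iff]
    simp only [Set.mem_ofPred_eq]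
    interval_cases u <;> interval_cases v <;> decide
  · intro u hu v hv
    rw [mem_V] at hu hv
    rw [nil_iff]
    simp only [Set.mem_ofPred_eq]
    interval_cases u <;> interval_cases v <;> decide
  · show (0 : ℕ) < 5
    decide
  · show (0 : ℕ) ∈ {v | v = 0 ∨ v = 4} ↔ true = true
    simp
  · intro v hv hv0
    rw [mem_V] at hv
    have h0 : v ≠ 0 := hv0
    show ((f5 10 2 1 4 5 v : ℤ) : ℝ) < ((f5 10 2 1 4 5 0 : ℤ) : ℝ)
    rw [Int.cast_lt]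
    interval_cases v
    · exact absurd rfl h0
    all_goals decide

lemma delc (w : ℕ) (L R : ℕ → ℤ) (h1 : ∀ v < 5, v ≠ w → L v ≤ R v)
    (h3 : ∀ u < 5, ∀ v < 5, u ≠ w → v ≠ w → u ≠ v → (((u = 0 ∧ v = 1) ∨ (u = 1 ∧ v = 0)) ∨
    ((u = 1 ∧ v = 2) ∨ (u = 2 ∧ v = 1)) ∨ ((u = 0 ∧ v = 3) ∨ (u = 3 ∧ v = 0)) ∨
    ((u = 3 ∧ v = 4) ∨ (u = 4 ∧ v = 3)) ↔ L u ≤ R v ∧ L v ≤ R u)) :
    Rp (EE []) (Vw [] \ {w}) ∅ (fun v => (L v : ℝ)) (fun v => (R v : ℝ)) := by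
  refine mk _ _ _ L R ?_ ?_ ?_
  · intro v hv
    exact h1 v hv.1 hv.2
  · intro u hu v hv h
    exact absurd h (Set.notMem_empty u)
  · intro u hu v hv huv _
    rw [nil_iff]
    exact h3 u hu.1 v hv.1 hu.2 hv.2 huv

lemma del (u : ℕ) (hu : u ∈ Vw []) (hu0 : u ≠ 0) : Ex (EE []) (Vw [] \ {u}) 0 false := by
  rw [mem_V] at hu
  have key : ∃ L R : ℕ → ℤ, (∀ v < 5, v ≠ u → L v ≤ R v) ∧
      (∀ x < 5, ∀ v < 5, x ≠ u → v ≠ u → x ≠ v → (((x = 0 ∧ v = 1) ∨ (x = 1 ∧ v = 0)) ∨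
      ((x = 1 ∧ v = 2) ∨ (x = 2 ∧ v = 1)) ∨ ((x = 0 ∧ v = 3) ∨ (x = 3 ∧ v = 0)) ∨
      ((x = 3 ∧ v = 4) ∨ (x = 4 ∧ v = 3)) ↔ L x ≤ R v ∧ L v ≤ R x)) ∧
      (∀ v < 5, v ≠ u → v ≠ 0 → R v < R 0) := by
    interval_cases u
    · exact absurd rfl hu0
    · refine ⟨f5 2 0 (-3) 1 0, f5 10 0 (-2) 2 1, ?_, ?_, ?_⟩
      · intro v hv
        interval_cases v <;> decide
      · intro x hx v hv
        interval_cases x <;> interval_cases v <;> decide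
      · intro v hv
        interval_cases v <;> decide
    · refine ⟨f5 2 4 0 1 0, f5 10 5 0 2 1, ?_, ?_, ?_⟩
      · intro v hv
        interval_cases v <;> decide
      · intro x hx v hv
        interval_cases x <;> interval_cases v <;> decide
      · intro v hv
        interval_cases v <;> decide
    · refine ⟨f5 2 1 0 0 (-3), f5 10 2 1 0 (-2), ?_, ?_, ?_⟩
      · intro v hv
        interval_cases v <;> decide
      · intro x hx v hv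
        interval_cases x <;> interval_cases v <;> decide
      · intro v hv
        interval_cases v <;> decide
    · refine ⟨f5 2 1 0 4 0, f5 10 2 1 5 0, ?_, ?_, ?_⟩
      · intro v hv
        interval_cases v <;> decide
      · intro x hx v hv
        interval_cases x <;> interval_cases v <;> decide
      · intro v hv
        interval_cases v <;> decide
  obtain ⟨L, R, h1, h2, h3⟩ := key
  refine ⟨∅, _, _, delc u L R h1 h2, ⟨?_, ?_⟩, ?_, ?_⟩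
  · rw [mem_V]
    decide
  · exact fun h => hu0 h.symm
  · simp
  · intro v hv hv0
    show ((R v : ℤ) : ℝ) < ((R 0 : ℤ) : ℝ)
    rw [Int.cast_lt]
    exact h3 v hv.1 hv.2 hv0

lemma pdel : Pl (EE []) (Vw [] \ {0}) := by
  refine ⟨∅, _, _, delc 0 (f5 0 1 0 4 5) (f5 0 2 1 5 6) ?_ ?_⟩
  · intro v hv
    interval_cases v <;> decide
  · intro x hx v hv
    interval_cases x <;> interval_cases v <;> decide

end NILM

theorem specNIL : SpecNIL := ⟨NILM.full, fun u hu hu0 => NILM.del u hu hu0, NILM.pdel⟩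

end Pool.Agent.Lib.MPc95e9c
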