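import Pool.Agent.Lib.MP_c95e9c_lc.OB.Spec

/-!
# Module ROO: an isomorphism maps the vertex 0 to the vertex 0
-/

set_option autoImplicit false

namespace Pool.Agent.Lib.MPc95e9c

namespace ROOM

/-- `v` starts a path `v, u, z` with `z` a leaf, and `v` has four neighbours. -/
def Q {V : Type} (G : SimpleGraph V) (v : V) : Prop :=
  (∃ u z, G.Adj v u ∧ G.Adj u z ∧ z ≠ v ∧ ∀ t, G.Adj z t → t = u) ∧
  ∃ a b c d, G.Adj v a ∧ G.Adj v b ∧ G.Adj v c ∧ G.Adj v d ∧ a ≠ b ∧ a ≠ c ∧ a ≠ d ∧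
    b ≠ c ∧ b ≠ d ∧ c ≠ d

theorem Q_iso {V V' : Type} {G : SimpleGraph V} {G' : SimpleGraph V'} (φ : G ≃g G') {v : V}
    (h : Q G v) : Q G' (φ v) := by
  obtain ⟨⟨u, z, h1, h2, h3, h4⟩, a, b, c, d, ha, hb, hc, hd, n1, n2, n3, n4, n5, n6⟩ := h
  refine ⟨⟨φ u, φ z, φ.map_adj_iff.2 h1, φ.map_adj_iff.2 h2, fun h => h3 (φ.injective h), ?_⟩,
    φ a, φ b, φ c, φ d, φ.map_adj_iff.2 ha, φ.map_adj_iff.2 hb, φ.map_adj_iff.2 hc,
    φ.map_adj_iff.2 hd, fun h => n1 (φ.injective h), fun h => n2 (φ.injective h),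
    fun h => n3 (φ.injective h), fun h => n4 (φ.injective h), fun h => n5 (φ.injective h),
    fun h => n6 (φ.injective h)⟩
  intro t ht
  obtain ⟨s, rfl⟩ := φ.surjective t
  rw [h4 s (φ.map_adj_iff.1 ht)]

/-- More links, more edges. -/
theorem EE_app (w v : List Lk) (a b : ℕ) (h : EE v a b) : EE (w ++ v) a b := by
  induction w with
  | nil => exact h
  | cons l w ih =>
    cases l
    · exact Or.inl ih
    · exact Or.inl ih
    · exact Or.inl ih

/-- The vertices with one neighbour in `EE w`. -/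
theorem two (hB : SpecBAS) (w : List Lk) : ∀ z, z < nn w → z ≠ 2 → z ≠ 4 → z ≠ pp w →
    ∃ s t, s ≠ t ∧ EE w z s ∧ EE w z t := by
  induction w with
  | nil =>
    intro z hz h2 h4 hp
    have hz' : z < 5 := hz
    have hp' : z ≠ 0 := hp
    have hc : z = 1 ∨ z = 3 := by omega
    rcases hc with rfl | rfl
    · exact ⟨0, 2, by omega, by simp [EE, ed], by simp [EE, ed]⟩
    · exact ⟨0, 4, by omega, by simp [EE, ed], by simp [EE, ed]⟩
  | cons l w ih =>
    intro z hz h2 h4 hp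
    have hpl := hB.plt w
    have key : z < nn w → z = pp w ∨ ∃ s t, s ≠ t ∧ EE w z s ∧ EE w z t := by
      intro h
      by_cases hc : z = pp w
      · exact Or.inl hc
      · exact Or.inr (ih z h h2 h4 hc)
    obtain ⟨t₀, ht₀⟩ := hB.nbr w
    have hb₀ := (hB.bnd w _ _ ht₀).2
    cases l
    · have hz' : z < nn w + 3 := hz
      have hp' : z ≠ nn w + 2 := hp
      by_cases hlt : z < nn w
      · rcases key hlt with rfl | ⟨s, t, hst, hs, ht⟩
        · exact ⟨t₀, nn w, by omega, Or.inl ht₀, Or.inr (Or.inl (Or.inl ⟨rfl, rfl⟩))⟩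
        · exact ⟨s, t, hst, Or.inl hs, Or.inl ht⟩
      · have hc : z = nn w ∨ z = nn w + 1 := by omega
        rcases hc with rfl | rfl
        · exact ⟨pp w, nn w + 2, by omega, Or.inr (Or.inl (Or.inr ⟨rfl, rfl⟩)),
            Or.inr (Or.inr (Or.inr (Or.inl (Or.inl ⟨rfl, rfl⟩))))⟩
        · exact ⟨pp w, nn w + 2, by omega, Or.inr (Or.inr (Or.inl (Or.inr ⟨rfl, rfl⟩))),
            Or.inr (Or.inr (Or.inr (Or.inr (Or.inl ⟨rfl, rfl⟩))))⟩
    · have hz' : z < nn w + 1 := hz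
      have hp' : z ≠ nn w := hp
      rcases key (by omega) with rfl | ⟨s, t, hst, hs, ht⟩
      · exact ⟨t₀, nn w, by omega, Or.inl ht₀, Or.inr (Or.inl ⟨rfl, rfl⟩)⟩
      · exact ⟨s, t, hst, Or.inl hs, Or.inl ht⟩
    · have hz' : z < nn w + 3 := hz
      have hp' : z ≠ nn w := hp
      by_cases hlt : z < nn w
      · rcases key hlt with rfl | ⟨s, t, hst, hs, ht⟩
        · exact ⟨t₀, nn w, by omega, Or.inl ht₀, Or.inr (Or.inl (Or.inl ⟨rfl, rfl⟩))⟩
        · exact ⟨s, t, hst, Or.inl hs, Or.inl ht⟩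
      · have hc : z = nn w + 1 ∨ z = nn w + 2 := by omega
        rcases hc with rfl | rfl
        · exact ⟨pp w, nn w + 2, by omega, Or.inr (Or.inr (Or.inl (Or.inr ⟨rfl, rfl⟩))),
            Or.inr (Or.inr (Or.inr (Or.inr (Or.inl ⟨rfl, rfl⟩))))⟩
        · exact ⟨nn w, nn w + 1, by omega,
            Or.inr (Or.inr (Or.inr (Or.inl (Or.inr ⟨rfl, rfl⟩)))),
            Or.inr (Or.inr (Or.inr (Or.inr (Or.inr ⟨rfl, rfl⟩))))⟩

/-- The neighbours of the vertices 1, 2, 3, 4. -/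
theorem small (hB : SpecBAS) (w : List Lk) : ∀ v,
    (EE w 1 v → v = 0 ∨ v = 2) ∧ (EE w 2 v → v = 1) ∧ (EE w 3 v → v = 0 ∨ v = 4) ∧
    (EE w 4 v → v = 3) := by
  induction w with
  | nil =>
    intro v
    simp only [EE, ed]
    refine ⟨?_, ?_, ?_, ?_⟩ <;> intro h <;> omega
  | cons l w ih =>
    intro v
    have h5 := hB.five w
    obtain ⟨p1, p2, p3, p4⟩ := hB.pne w
    obtain ⟨i1, i2, i3, i4⟩ := ih v
    cases l
    · refine ⟨fun h => ?_, fun h => ?_, fun h => ?_, fun h => ?_⟩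
      · rcases (show EE w 1 v ∨ sq (pp w) (nn w) 1 v from h) with h | h
        · exact i1 h
        · simp only [sq, ed] at h; omega
      · rcases (show EE w 2 v ∨ sq (pp w) (nn w) 2 v from h) with h | h
        · exact i2 h
        · simp only [sq, ed] at h; omega
      · rcases (show EE w 3 v ∨ sq (pp w) (nn w) 3 v from h) with h | h
        · exact i3 h
        · simp only [sq, ed] at h; omega
      · rcases (show EE w 4 v ∨ sq (pp w) (nn w) 4 v from h) with h | h
        · exact i4 h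
        · simp only [sq, ed] at h; omega
    · refine ⟨fun h => ?_, fun h => ?_, fun h => ?_, fun h => ?_⟩
      · rcases (show EE w 1 v ∨ ed (pp w) (nn w) 1 v from h) with h | h
        · exact i1 h
        · simp only [ed] at h; omega
      · rcases (show EE w 2 v ∨ ed (pp w) (nn w) 2 v from h) with h | h
        · exact i2 h
        · simp only [ed] at h; omega
      · rcases (show EE w 3 v ∨ ed (pp w) (nn w) 3 v from h) with h | h
        · exact i3 h
        · simp only [ed] at h; omega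
      · rcases (show EE w 4 v ∨ ed (pp w) (nn w) 4 v from h) with h | h
        · exact i4 h
        · simp only [ed] at h; omega
    · refine ⟨fun h => ?_, fun h => ?_, fun h => ?_, fun h => ?_⟩
      · rcases (show EE w 1 v ∨ sq (pp w) (nn w) 1 v from h) with h | h
        · exact i1 h
        · simp only [sq, ed] at h; omega
      · rcases (show EE w 2 v ∨ sq (pp w) (nn w) 2 v from h) with h | h
        · exact i2 h
        · simp only [sq, ed] at h; omega
      · rcases (show EE w 3 v ∨ sq (pp w) (nn w) 3 v from h) with h | h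
        · exact i3 h
        · simp only [sq, ed] at h; omega
      · rcases (show EE w 4 v ∨ sq (pp w) (nn w) 4 v from h) with h | h
        · exact i4 h
        · simp only [sq, ed] at h; omega

theorem smallF (hB : SpecBAS) (w : List Lk) (v : ℕ) :
    (EF w 1 v → v = 0 ∨ v = 2) ∧ (EF w 2 v → v = 1) ∧ (EF w 3 v → v = 0 ∨ v = 4) ∧
    (EF w 4 v → v = 3) := by
  have h5 := hB.five w
  obtain ⟨p1, p2, p3, p4⟩ := hB.pne w
  obtain ⟨i1, i2, i3, i4⟩ := small hB w v
  refine ⟨fun h => ?_, fun h => ?_, fun h => ?_, fun h => ?_⟩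
  · rcases h with h | h
    · exact i1 h
    · simp only [rt, ed] at h; omega
  · rcases h with h | h
    · exact i2 h
    · simp only [rt, ed] at h; omega
  · rcases h with h | h
    · exact i3 h
    · simp only [rt, ed] at h; omega
  · rcases h with h | h
    · exact i4 h
    · simp only [rt, ed] at h; omega

/-- The neighbours of the new vertices of the right end. -/
theorem newF (hB : SpecBAS) (w : List Lk) (v : ℕ) :
    (EF w (nn w) v → v = pp w ∨ v = nn w + 1) ∧ (EF w (nn w + 1) v → v = nn w) ∧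
    (EF w (nn w + 2) v → v = pp w ∨ v = nn w + 3) ∧ (EF w (nn w + 3) v → v = nn w + 2) := by
  have hp := hB.plt w
  have hb := hB.bnd w
  refine ⟨fun h => ?_, fun h => ?_, fun h => ?_, fun h => ?_⟩
  · rcases h with h | h
    · have := (hb _ _ h).1; omega
    · simp only [rt, ed] at h; omega
  · rcases h with h | h
    · have := (hb _ _ h).1; omega
    · simp only [rt, ed] at h; omega
  · rcases h with h | h
    · have := (hb _ _ h).1; omega
    · simp only [rt, ed] at h; omega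
  · rcases h with h | h
    · have := (hb _ _ h).1; omega
    · simp only [rt, ed] at h; omega

/-- All vertices but the four leaves have two neighbours. -/
theorem twoF (hB : SpecBAS) (w : List Lk) (z : ℕ) (hz : z < nn w + 4) (h2 : z ≠ 2) (h4 : z ≠ 4)
    (h5 : z ≠ nn w + 1) (h6 : z ≠ nn w + 3) : ∃ s t, s ≠ t ∧ EF w z s ∧ EF w z t := by
  have hp := hB.plt w
  by_cases hlt : z < nn w
  · by_cases hpz : z = pp w
    · subst hpz
      obtain ⟨t₀, ht₀⟩ := hB.nbr w
      have hb₀ := (hB.bnd w _ _ ht₀).2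
      exact ⟨t₀, nn w, by omega, Or.inl ht₀, Or.inr (Or.inl (Or.inl ⟨rfl, rfl⟩))⟩
    · obtain ⟨s, t, hst, hs, ht⟩ := two hB w z hlt h2 h4 hpz
      exact ⟨s, t, hst, Or.inl hs, Or.inl ht⟩
  · have hc : z = nn w ∨ z = nn w + 2 := by omega
    rcases hc with rfl | rfl
    · exact ⟨pp w, nn w + 1, by omega, Or.inr (Or.inl (Or.inr ⟨rfl, rfl⟩)),
        Or.inr (Or.inr (Or.inl (Or.inl ⟨rfl, rfl⟩)))⟩
    · exact ⟨pp w, nn w + 3, by omega, Or.inr (Or.inr (Or.inr (Or.inl (Or.inr ⟨rfl, rfl⟩)))),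
        Or.inr (Or.inr (Or.inr (Or.inr (Or.inl ⟨rfl, rfl⟩))))⟩

/-- The neighbours of the exit of a link `E`. -/
theorem exitF (hB : SpecBAS) (w : List Lk) (v : ℕ) (h : EF (Lk.E :: w) (pp (Lk.E :: w)) v) :
    v = pp w ∨ v = nn (Lk.E :: w) ∨ v = nn (Lk.E :: w) + 2 := by
  have hp := hB.plt w
  have hb := hB.bnd w
  have e1 : pp (Lk.E :: w) = nn w := rfl
  have e2 : nn (Lk.E :: w) = nn w + 1 := rfl
  rw [e1] at h
  rw [e2]
  rcases h with h | h
  · rcases (show EE w (nn w) v ∨ ed (pp w) (nn w) (nn w) v from h) with h | h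
    · have := (hb _ _ h).1; omega
    · simp only [ed] at h; omega
  · rw [e1, e2] at h
    simp only [rt, ed] at h
    omega

/-- `Q` characterises the vertex `0`. -/
theorem Q_only (hB : SpecBAS) (w : List Lk) (n : ℕ) (hn : n = nn (Lk.E :: w) + 4) (v : Fin n)
    (h : Q (GG n (Lk.E :: w)) v) : (v : ℕ) = 0 := by
  obtain ⟨⟨u, z, h1, h2, h3, h4⟩, a, b, c, d, ha, hb, hc, hd, n1, n2, n3, n4, n5, n6⟩ := h
  have hadj := hB.adjG n (Lk.E :: w)
  rw [hadj] at h1 h2 ha hb hc hd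
  have h3' : (z : ℕ) ≠ v := fun h => h3 (Fin.ext h)
  have hleaf : ∀ t, EF (Lk.E :: w) z t → t = u := by
    intro t ht
    have hb := (hB.bndF _ _ _ ht).2
    have := h4 ⟨t, by omega⟩ ((hadj _ _).2 ht)
    exact congrArg Fin.val this
  have hcase : (z : ℕ) = 2 ∨ (z : ℕ) = 4 ∨ (z : ℕ) = nn (Lk.E :: w) + 1 ∨
      (z : ℕ) = nn (Lk.E :: w) + 3 := by
    by_contra hcon
    push Not at hcon
    obtain ⟨c1, c2, c3, c4⟩ := hcon
    obtain ⟨s, t, hst, hs, ht⟩ := twoF hB (Lk.E :: w) z (by have := z.2; omega) c1 c2 c3 c4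
    exact hst ((hleaf s hs).trans (hleaf t ht).symm)
  have h2' := hB.symF _ _ _ h2
  have h1' := hB.symF _ _ _ h1
  have hbad : (v : ℕ) = pp (Lk.E :: w) → False := by
    intro hv
    rw [hv] at ha hb hc hd
    have ea := exitF hB w _ ha
    have eb := exitF hB w _ hb
    have ec := exitF hB w _ hc
    have ed' := exitF hB w _ hd
    have m1 : (a : ℕ) ≠ b := fun h => n1 (Fin.ext h)
    have m2 : (a : ℕ) ≠ c := fun h => n2 (Fin.ext h)
    have m3 : (a : ℕ) ≠ d := fun h => n3 (Fin.ext h)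
    have m4 : (b : ℕ) ≠ c := fun h => n4 (Fin.ext h)
    have m5 : (b : ℕ) ≠ d := fun h => n5 (Fin.ext h)
    have m6 : (c : ℕ) ≠ d := fun h => n6 (Fin.ext h)
    omega
  rcases hcase with hz | hz | hz | hz
  · rw [hz] at h2' h3'
    have hu := (smallF hB _ _).2.1 h2'
    rw [hu] at h1'
    have := (smallF hB _ _).1 h1'
    omega
  · rw [hz] at h2' h3'
    have hu := (smallF hB _ _).2.2.2 h2'
    rw [hu] at h1'
    have := (smallF hB _ _).2.2.1 h1'
    omega
  · rw [hz] at h2' h3'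
    have hu := (newF hB _ _).2.1 h2'
    rw [hu] at h1'
    rcases (newF hB _ _).1 h1' with h | h
    · exact (hbad h).elim
    · exact (h3' h.symm).elim
  · rw [hz] at h2' h3'
    have hu := (newF hB _ _).2.2.2 h2'
    rw [hu] at h1'
    rcases (newF hB _ _).2.2.1 h1' with h | h
    · exact (hbad h).elim
    · exact (h3' h.symm).elim

/-- `Q` holds for the vertex `0`. -/
theorem Q_zero (hB : SpecBAS) (w : List Lk) (n : ℕ) (h0 : 0 < n)
    (hn : n = nn (Lk.E :: (w ++ [Lk.O])) + 4) : Q (GG n (Lk.E :: (w ++ [Lk.O]))) ⟨0, h0⟩ := by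
  set W := Lk.E :: (w ++ [Lk.O]) with hW
  have hadj := hB.adjG n W
  have hE : ∀ a b, EE [Lk.O] a b → EF W a b := fun a b h =>
    Or.inl (Or.inl (EE_app w [Lk.O] a b h))
  have e01 : EF W 0 1 := hE _ _ (by simp [EE, ed])
  have e12 : EF W 1 2 := hE _ _ (by simp [EE, ed])
  have e03 : EF W 0 3 := hE _ _ (by simp [EE, ed])
  have e05 : EF W 0 5 := hE _ _ (by simp [EE, ed, sq, pp, nn])
  have e06 : EF W 0 6 := hE _ _ (by simp [EE, ed, sq, pp, nn])
  have b6 := (hB.bndF _ _ _ e06).2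
  refine ⟨⟨⟨1, by omega⟩, ⟨2, by omega⟩, (hadj _ _).2 e01, (hadj _ _).2 e12, ?_, ?_⟩,
    ⟨1, by omega⟩, ⟨3, by omega⟩, ⟨5, by omega⟩, ⟨6, by omega⟩, (hadj _ _).2 e01,
    (hadj _ _).2 e03, (hadj _ _).2 e05, (hadj _ _).2 e06, ?_, ?_, ?_, ?_, ?_, ?_⟩
  · simp
  · intro t ht
    have := (smallF hB W _).2.1 ((hadj _ _).1 ht)
    exact Fin.ext this
  all_goals simp

end ROOM

open ROOM in
theorem specROO (hBAS : SpecBAS) : SpecROO := by
  intro w w' n h0 hn hn' φ
  have h := Q_iso φ (Q_zero hBAS w n h0 hn)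
  exact Fin.ext (Q_only hBAS (w' ++ [Lk.O]) n hn' _ h)

end Pool.Agent.Lib.MPc95e9c
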