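import Pool.Agent.Lib.MP_c95e9c_lc.OB.Spec

/-!
# STA: the link `A`
-/

set_option autoImplicit false

namespace Pool.Agent.Lib.MPc95e9c

namespace STAM

/-- the data of the new vertices -/
structure ND (R : ℕ → ℕ → Prop) (n : ℕ) (T NT : Set ℕ) (a b : ℕ → ℝ) : Prop where
  ge : ∀ v ∈ T, n ≤ v
  pos : ∀ v ∈ T, 0 < a v ∧ a v ≤ b v
  ind : ∀ u ∈ T, ∀ v ∈ T, u ∈ NT → v ∈ NT → ¬ R u v
  adj : ∀ u ∈ T, ∀ v ∈ T, u ≠ v → ¬ (u ∈ NT ∧ v ∈ NT) → (R u v ↔ a u ≤ b v ∧ a v ≤ b u)

/-- the new edges -/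
structure NR (w : List Lk) (R : ℕ → ℕ → Prop) : Prop where
  sym : ∀ u v, R u v → R v u
  sup : ∀ u v, R u v → (u = pp w ∨ nn w ≤ u) ∧ (v = pp w ∨ nn w ≤ v) ∧ (nn w ≤ u ∨ nn w ≤ v)

theorem glue (hB : SpecBAS) (hG : SpecGLU) {w : List Lk} {R : ℕ → ℕ → Prop} (hR : NR w R)
    {S T N NT : Set ℕ} {l r a b : ℕ → ℝ} {M e : ℝ} (hRp : Rp (EE w) S N l r) (hS : S ⊆ Vw w)
    (hT : ND R (nn w) T NT a b) (h1 : ∀ v ∈ S, v ≠ pp w → r v < M) (h2 : pp w ∈ S → r (pp w) = M)
    (he : 0 ≤ e) (h3 : pp w ∈ S → pp w ∈ N → ∀ v ∈ T, v ∈ NT → ¬ R (pp w) v)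
    (h4 : pp w ∈ S → ∀ v ∈ T, ¬ (pp w ∈ N ∧ v ∈ NT) → (R (pp w) v ↔ a v ≤ e)) :
    ∃ (N' : Set ℕ) (l' r' : ℕ → ℝ), Rp (fun u v => EE w u v ∨ R u v) (S ∪ T) N' l' r' ∧
      (∀ v ∈ T, (v ∈ N' ↔ v ∈ NT) ∧ r' v = M + b v) ∧ (∀ v ∈ S, r' v ≤ M + e) := by
  have hp := hB.plt w
  have k1 : Disjoint S T := by
    rw [Set.disjoint_left]
    intro v hv hv'
    have h5 : v < nn w := hS hv
    have h6 := hT.ge v hv'
    omega
  have k2 : pp w ∉ T := by
    intro h
    have := hT.ge _ h
    omega
  have k3 : ∀ u v, (EE w u v ∨ R u v) → (EE w v u ∨ R v u) := by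
    rintro u v (h | h)
    · exact Or.inl (hB.sym w u v h)
    · exact Or.inr (hR.sym u v h)
  have k4 : ∀ u ∈ S, ∀ v ∈ S, ((EE w u v ∨ R u v) ↔ EE w u v) := by
    intro u hu v hv
    refine ⟨?_, Or.inl⟩
    rintro (h | h)
    · exact h
    · have h5 : u < nn w := hS hu
      have h6 : v < nn w := hS hv
      have := (hR.sup u v h).2.2
      omega
  have k5 : ∀ u ∈ S, u ≠ pp w → ∀ v ∈ T, ¬ (EE w u v ∨ R u v) := by
    rintro u hu hup v hv (h | h)
    · have := (hB.bnd w u v h).2
      have := hT.ge v hv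
      omega
    · have h5 : u < nn w := hS hu
      rcases (hR.sup u v h).1 with h6 | h6
      · exact hup h6
      · omega
  have k6 : ∀ u ∈ T, ∀ v ∈ T, u ∈ NT → v ∈ NT → ¬ (EE w u v ∨ R u v) := by
    rintro u hu v hv hu' hv' (h | h)
    · have := (hB.bnd w u v h).2
      have := hT.ge v hv
      omega
    · exact hT.ind u hu v hv hu' hv' h
  have k7 : pp w ∈ S → pp w ∈ N → ∀ v ∈ T, v ∈ NT → ¬ (EE w (pp w) v ∨ R (pp w) v) := by
    rintro hpS hpN v hv hv' (h | h)
    · have := (hB.bnd w _ v h).2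
      have := hT.ge v hv
      omega
    · exact h3 hpS hpN v hv hv' h
  have k8 : ∀ u ∈ T, ∀ v ∈ T, u ≠ v → ¬ (u ∈ NT ∧ v ∈ NT) →
      ((EE w u v ∨ R u v) ↔ a u ≤ b v ∧ a v ≤ b u) := by
    intro u hu v hv huv hN
    rw [← hT.adj u hu v hv huv hN]
    refine ⟨?_, Or.inr⟩
    rintro (h | h)
    · have := (hB.bnd w u v h).2
      have := hT.ge v hv
      omega
    · exact h
  have k9 : pp w ∈ S → ∀ v ∈ T, ¬ (pp w ∈ N ∧ v ∈ NT) →
      ((EE w (pp w) v ∨ R (pp w) v) ↔ a v ≤ e) := by
    intro hpS v hv hN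
    rw [← h4 hpS v hv hN]
    refine ⟨?_, Or.inr⟩
    rintro (h | h)
    · have := (hB.bnd w _ v h).2
      have := hT.ge v hv
      omega
    · exact h
  obtain ⟨N', l', r', g1, g2, g3, g4⟩ := hG (EE w) (fun u v => EE w u v ∨ R u v) S T N NT l r a b
    (pp w) M e hRp k1 k2 h1 h2 he k3 k4 k5 hT.pos k6 k7 k8 k9
  refine ⟨N', l', r', g1, g2, fun v hv => ?_⟩
  by_cases hvp : v = pp w
  · subst hvp
    exact (g4 hv).1.le
  · have := g3 v hv hvp
    linarith

/-- gluing, from a representation in which the interval of the exit ends last -/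
theorem fromEx (hB : SpecBAS) (hG : SpecGLU) {w : List Lk} {R : ℕ → ℕ → Prop} (hR : NR w R)
    {S T NT : Set ℕ} {a b : ℕ → ℝ} {e : ℝ} {s : Bool} (hE : Ex (EE w) S (pp w) s)
    (hS : S ⊆ Vw w) (hT : ND R (nn w) T NT a b) (he : 0 ≤ e)
    (h3 : s = true → ∀ v ∈ T, v ∈ NT → ¬ R (pp w) v)
    (h4 : ∀ v ∈ T, ¬ (s = true ∧ v ∈ NT) → (R (pp w) v ↔ a v ≤ e)) :
    ∃ (N' : Set ℕ) (l' r' : ℕ → ℝ) (M : ℝ),
      Rp (fun u v => EE w u v ∨ R u v) (S ∪ T) N' l' r' ∧
      (∀ v ∈ T, (v ∈ N' ↔ v ∈ NT) ∧ r' v = M + b v) ∧ (∀ v ∈ S, r' v ≤ M + e) := by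
  obtain ⟨N, l, r, g1, g2, g3, g4⟩ := hE
  obtain ⟨N', l', r', k⟩ := glue hB hG hR g1 hS hT g4 (fun _ => rfl) he
    (fun _ hp => h3 (g3.1 hp)) (fun _ v hv hN => h4 v hv (fun h => hN ⟨g3.2 h.1, h.2⟩))
  exact ⟨N', l', r', _, k⟩

/-- gluing, the exit is deleted -/
theorem fromPl (hB : SpecBAS) (hG : SpecGLU) {w : List Lk} {R : ℕ → ℕ → Prop} (hR : NR w R)
    {S T NT : Set ℕ} {a b : ℕ → ℝ} (hE : Pl (EE w) S) (hpS : pp w ∉ S)
    (hS : S ⊆ Vw w) (hT : ND R (nn w) T NT a b) :
    ∃ (N' : Set ℕ) (l' r' : ℕ → ℝ) (M : ℝ),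
      Rp (fun u v => EE w u v ∨ R u v) (S ∪ T) N' l' r' ∧
      (∀ v ∈ T, (v ∈ N' ↔ v ∈ NT) ∧ r' v = M + b v) ∧ (∀ v ∈ S, r' v ≤ M + 0) := by
  obtain ⟨N, l, r, g1⟩ := hE
  have hfin : (r '' S).Finite := (Set.Finite.subset (Set.finite_lt_nat (nn w)) hS).image r
  obtain ⟨M, hM⟩ := hfin.bddAbove
  obtain ⟨N', l', r', k⟩ := glue hB hG hR (M := M + 1) (e := 0) g1 hS hT
    (fun v hv _ => by
      have := hM ⟨v, hv, rfl⟩
      linarith) (fun h => absurd h hpS) le_rfl (fun h => absurd h hpS) (fun h => absurd h hpS)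
  exact ⟨N', l', r', _, k⟩

theorem toEx {E : ℕ → ℕ → Prop} {S T NT U : Set ℕ} {b : ℕ → ℝ} {e : ℝ} {p : ℕ} {s : Bool}
    (h : ∃ (N' : Set ℕ) (l' r' : ℕ → ℝ) (M : ℝ), Rp E (S ∪ T) N' l' r' ∧
      (∀ v ∈ T, (v ∈ N' ↔ v ∈ NT) ∧ r' v = M + b v) ∧ (∀ v ∈ S, r' v ≤ M + e))
    (hU : U = S ∪ T) (hp : p ∈ T) (hs : p ∈ NT ↔ s = true) (hb : ∀ v ∈ T, v ≠ p → b v < b p)
    (he : e < b p) : Ex E U p s := by
  obtain ⟨N', l', r', M, h1, h2, h3⟩ := h
  subst hU
  refine ⟨N', l', r', h1, Or.inr hp, (h2 p hp).1.trans hs, ?_⟩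
  rintro v (hv | hv) hvp
  · rw [(h2 p hp).2]
    have := h3 v hv
    linarith
  · rw [(h2 p hp).2, (h2 v hv).2]
    have := hb v hv hvp
    linarith

theorem toPl {E : ℕ → ℕ → Prop} {S T NT U : Set ℕ} {b : ℕ → ℝ} {e : ℝ}
    (h : ∃ (N' : Set ℕ) (l' r' : ℕ → ℝ) (M : ℝ), Rp E (S ∪ T) N' l' r' ∧
      (∀ v ∈ T, (v ∈ N' ↔ v ∈ NT) ∧ r' v = M + b v) ∧ (∀ v ∈ S, r' v ≤ M + e))
    (hU : U = S ∪ T) : Pl E U := by
  obtain ⟨N', l', r', M, h1, h2, h3⟩ := h
  subst hU
  exact ⟨N', l', r', h1⟩

/-- a function with four given values -/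
def f4 (n : ℕ) (a0 a1 a2 a3 : ℝ) (v : ℕ) : ℝ :=
  if v = n then a0 else if v = n + 1 then a1 else if v = n + 2 then a2 else a3

theorem f40 (n : ℕ) (a0 a1 a2 a3 : ℝ) : f4 n a0 a1 a2 a3 n = a0 := by simp [f4]
theorem f41 (n : ℕ) (a0 a1 a2 a3 : ℝ) : f4 n a0 a1 a2 a3 (n + 1) = a1 := by simp [f4]
theorem f42 (n : ℕ) (a0 a1 a2 a3 : ℝ) : f4 n a0 a1 a2 a3 (n + 2) = a2 := by simp [f4]
theorem f43 (n : ℕ) (a0 a1 a2 a3 : ℝ) : f4 n a0 a1 a2 a3 (n + 3) = a3 := by simp [f4]

theorem nrsq (hB : SpecBAS) (w : List Lk) : NR w (sq (pp w) (nn w)) := by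
  have hp := hB.plt w
  constructor
  · intro u v h
    unfold sq ed at *
    omega
  · intro u v h
    unfold sq ed at *
    omega

end STAM

open STAM in
theorem specSTA (hB : SpecBAS) (hG : SpecGLU) : SpecSTA := by
  intro w hI hs
  have hp := hB.plt w
  have hR := nrsq hB w
  have hsub : ∀ u, Vw w \ {u} ⊆ Vw w := fun u => Set.sdiff_subset
  have hfull := hI.full
  rw [hs] at hfull
  refine ⟨?_, ?_, ?_⟩
  · refine toEx (E := EE (Lk.A :: w)) (p := nn w) (s := true)
      (fromEx hB hG hR (S := Vw w) (T := {nn w, nn w + 1, nn w + 2}) (NT := {nn w, nn w + 1})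
        (a := f4 (nn w) 1 1 2 0) (b := f4 (nn w) 4 2 3 0) (e := 1) hfull subset_rfl
        ⟨?_, ?_, ?_, ?_⟩ (by norm_num) ?_ ?_) ?_ ?_ ?_ ?_ ?_
    · rintro v (rfl | rfl | rfl) <;> omega
    · rintro v (rfl | rfl | rfl) <;> simp only [f40, f41, f42] <;> norm_num
    · rintro u (rfl | rfl | rfl) v (rfl | rfl | rfl) hu hv h <;> unfold sq ed at h <;>
        simp only [Set.mem_insert_iff, Set.mem_singleton_iff] at hu hv <;> omega
    · rintro u (rfl | rfl | rfl) v (rfl | rfl | rfl) huv hN <;> simp only [f40, f41, f42] <;>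
        first
        | exact absurd rfl huv
        | (refine absurd ?_ hN; (constructor <;> simp); done)
        | exact iff_of_true (by unfold sq ed; omega) (by norm_num)
        | exact iff_of_false (by unfold sq ed; omega) (by norm_num)
    · intro h
      exact absurd h (by simp)
    · rintro v (rfl | rfl | rfl) hN <;> simp only [f40, f41, f42] <;>
        first
        | exact iff_of_true (by unfold sq ed; omega) (by norm_num)
        | exact iff_of_false (by unfold sq ed; omega) (by norm_num)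
    · ext v
      simp only [Vw, nn, Set.mem_ofPred_eq, Set.mem_union, Set.mem_insert_iff,
        Set.mem_singleton_iff]
      omega
    · simp
    · simp
    · rintro v (rfl | rfl | rfl) hv <;> simp only [f40, f41, f42] <;>
        first
        | exact absurd rfl hv
        | norm_num
    · simp only [f40]
      norm_num
  · intro u hu hup
    change u < nn w + 3 at hu
    change u ≠ nn w at hup
    by_cases h1 : u = pp w
    · subst h1
      refine toEx (E := EE (Lk.A :: w)) (p := nn w) (s := false)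
        (fromPl hB hG hR (S := Vw w \ {pp w}) (T := {nn w, nn w + 1, nn w + 2}) (NT := ∅)
          (a := f4 (nn w) 3 1 2 0) (b := f4 (nn w) 6 2 3 0) hI.pdel (by simp) (hsub _)
          ⟨?_, ?_, ?_, ?_⟩) ?_ ?_ ?_ ?_ ?_
      · rintro v (rfl | rfl | rfl) <;> omega
      · rintro v (rfl | rfl | rfl) <;> simp only [f40, f41, f42] <;> norm_num
      · rintro u hu v hv hu' hv' h
        exact hu'
      · rintro u (rfl | rfl | rfl) v (rfl | rfl | rfl) huv hN <;> simp only [f40, f41, f42] <;>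
          first
          | exact absurd rfl huv
          | exact iff_of_true (by unfold sq ed; omega) (by norm_num)
          | exact iff_of_false (by unfold sq ed; omega) (by norm_num)
      · ext v
        simp only [Vw, nn, Set.mem_ofPred_eq, Set.mem_union, Set.mem_insert_iff,
          Set.mem_singleton_iff, Set.mem_sdiff]
        omega
      · simp
      · simp
      · rintro v (rfl | rfl | rfl) hv <;> simp only [f40, f41, f42] <;>
          first
          | exact absurd rfl hv
          | norm_num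
      · simp only [f40]
        norm_num
    by_cases h2 : u < nn w
    · have hE := hI.del u h2 h1
      rw [hs] at hE
      refine toEx (E := EE (Lk.A :: w)) (p := nn w) (s := false)
        (fromEx hB hG hR (S := Vw w \ {u}) (T := {nn w, nn w + 1, nn w + 2}) (NT := {nn w + 2})
          (a := f4 (nn w) 3 1 2 0) (b := f4 (nn w) 6 2 3 0) (e := 4) hE (hsub _)
          ⟨?_, ?_, ?_, ?_⟩ (by norm_num) ?_ ?_) ?_ ?_ ?_ ?_ ?_
      · rintro v (rfl | rfl | rfl) <;> omega
      · rintro v (rfl | rfl | rfl) <;> simp only [f40, f41, f42] <;> norm_num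
      · rintro u (rfl | rfl | rfl) v (rfl | rfl | rfl) hu hv h <;> unfold sq ed at h <;>
          simp only [Set.mem_singleton_iff] at hu hv <;> omega
      · rintro u (rfl | rfl | rfl) v (rfl | rfl | rfl) huv hN <;> simp only [f40, f41, f42] <;>
          first
          | exact absurd rfl huv
          | exact iff_of_true (by unfold sq ed; omega) (by norm_num)
          | exact iff_of_false (by unfold sq ed; omega) (by norm_num)
      · rintro - v (rfl | rfl | rfl) hv h <;> unfold sq ed at h <;>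
          simp only [Set.mem_singleton_iff] at hv <;> omega
      · rintro v (rfl | rfl | rfl) hN <;> simp only [f40, f41, f42] <;>
          first
          | (refine absurd ?_ hN; (constructor <;> simp); done)
          | exact iff_of_true (by unfold sq ed; omega) (by norm_num)
          | exact iff_of_false (by unfold sq ed; omega) (by norm_num)
      · ext v
        simp only [Vw, nn, Set.mem_ofPred_eq, Set.mem_union, Set.mem_insert_iff,
          Set.mem_singleton_iff, Set.mem_sdiff]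
        omega
      · simp
      · simp
      · rintro v (rfl | rfl | rfl) hv <;> simp only [f40, f41, f42] <;>
          first
          | exact absurd rfl hv
          | norm_num
      · simp only [f40]
        norm_num
    by_cases h3 : u = nn w + 1
    · subst h3
      refine toEx (E := EE (Lk.A :: w)) (p := nn w) (s := false)
        (fromEx hB hG hR (S := Vw w) (T := {nn w, nn w + 2}) (NT := ∅)
          (a := f4 (nn w) 1 0 2 0) (b := f4 (nn w) 4 0 3 0) (e := 1) hfull subset_rfl
          ⟨?_, ?_, ?_, ?_⟩ (by norm_num) ?_ ?_) ?_ ?_ ?_ ?_ ?_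
      · rintro v (rfl | rfl) <;> omega
      · rintro v (rfl | rfl) <;> simp only [f40, f42] <;> norm_num
      · rintro u hu v hv hu' hv' h
        exact hu'
      · rintro u (rfl | rfl) v (rfl | rfl) huv hN <;> simp only [f40, f42] <;>
          first
          | exact absurd rfl huv
          | exact iff_of_true (by unfold sq ed; omega) (by norm_num)
          | exact iff_of_false (by unfold sq ed; omega) (by norm_num)
      · intro h
        exact absurd h (by simp)
      · rintro v (rfl | rfl) hN <;> simp only [f40, f42] <;>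
          first
          | exact iff_of_true (by unfold sq ed; omega) (by norm_num)
          | exact iff_of_false (by unfold sq ed; omega) (by norm_num)
      · ext v
        simp only [Vw, nn, Set.mem_ofPred_eq, Set.mem_union, Set.mem_insert_iff,
          Set.mem_singleton_iff, Set.mem_sdiff]
        omega
      · simp
      · simp
      · rintro v (rfl | rfl) hv <;> simp only [f40, f42] <;>
          first
          | exact absurd rfl hv
          | norm_num
      · simp only [f40]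
        norm_num
    · have h4 : u = nn w + 2 := by omega
      subst h4
      refine toEx (E := EE (Lk.A :: w)) (p := nn w) (s := false)
        (fromEx hB hG hR (S := Vw w) (T := {nn w, nn w + 1}) (NT := ∅)
          (a := f4 (nn w) 3 1 0 0) (b := f4 (nn w) 6 2 0 0) (e := 4) hfull subset_rfl
          ⟨?_, ?_, ?_, ?_⟩ (by norm_num) ?_ ?_) ?_ ?_ ?_ ?_ ?_
      · rintro v (rfl | rfl) <;> omega
      · rintro v (rfl | rfl) <;> simp only [f40, f41] <;> norm_num
      · rintro u hu v hv hu' hv' h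
        exact hu'
      · rintro u (rfl | rfl) v (rfl | rfl) huv hN <;> simp only [f40, f41] <;>
          first
          | exact absurd rfl huv
          | exact iff_of_true (by unfold sq ed; omega) (by norm_num)
          | exact iff_of_false (by unfold sq ed; omega) (by norm_num)
      · intro h
        exact absurd h (by simp)
      · rintro v (rfl | rfl) hN <;> simp only [f40, f41] <;>
          first
          | exact iff_of_true (by unfold sq ed; omega) (by norm_num)
          | exact iff_of_false (by unfold sq ed; omega) (by norm_num)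
      · ext v
        simp only [Vw, nn, Set.mem_ofPred_eq, Set.mem_union, Set.mem_insert_iff,
          Set.mem_singleton_iff, Set.mem_sdiff]
        omega
      · simp
      · simp
      · rintro v (rfl | rfl) hv <;> simp only [f40, f41] <;>
          first
          | exact absurd rfl hv
          | norm_num
      · simp only [f40]
        norm_num
  · refine toPl (E := EE (Lk.A :: w))
      (fromEx hB hG hR (S := Vw w) (T := {nn w + 1, nn w + 2}) (NT := ∅)
        (a := f4 (nn w) 0 1 2 0) (b := f4 (nn w) 0 2 3 0) (e := 1) hfull subset_rfl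
        ⟨?_, ?_, ?_, ?_⟩ (by norm_num) ?_ ?_) ?_
    · rintro v (rfl | rfl) <;> omega
    · rintro v (rfl | rfl) <;> simp only [f41, f42] <;> norm_num
    · rintro u hu v hv hu' hv' h
      exact hu'
    · rintro u (rfl | rfl) v (rfl | rfl) huv hN <;> simp only [f41, f42] <;>
        first
        | exact absurd rfl huv
        | exact iff_of_true (by unfold sq ed; omega) (by norm_num)
        | exact iff_of_false (by unfold sq ed; omega) (by norm_num)
    · intro h
      exact absurd h (by simp)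
    · rintro v (rfl | rfl) hN <;> simp only [f41, f42] <;>
        first
        | exact iff_of_true (by unfold sq ed; omega) (by norm_num)
        | exact iff_of_false (by unfold sq ed; omega) (by norm_num)
    · ext v
      simp only [Vw, nn, pp, Set.mem_ofPred_eq, Set.mem_union, Set.mem_insert_iff,
        Set.mem_singleton_iff, Set.mem_sdiff]
      omega

end Pool.Agent.Lib.MPc95e9c
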