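import Pool.Agent.Lib.MP_c95e9c_lc.OB.Spec

/-! # Module STE: the link `E`. -/

set_option autoImplicit false

namespace Pool.Agent.Lib.MPc95e9c

namespace STEM

lemma mono {E : ℕ → ℕ → Prop} {S S' N : Set ℕ} {l r : ℕ → ℝ} (h : Rp E S N l r) (hS : S' ⊆ S) :
    Rp E S' N l r :=
  ⟨fun v hv => h.le v (hS hv), fun u hu v hv => h.ind u (hS hu) v (hS hv),
    fun u hu v hv => h.adj u (hS hu) v (hS hv)⟩

lemma bound (n : ℕ) (r : ℕ → ℝ) : ∃ M : ℝ, ∀ v < n, r v < M := by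
  refine ⟨∑ v ∈ Finset.range n, |r v| + 1, fun v hv => ?_⟩
  have h1 : |r v| ≤ ∑ v ∈ Finset.range n, |r v| :=
    Finset.single_le_sum (f := fun v => |r v|) (fun _ _ => abs_nonneg _) (Finset.mem_range.mpr hv)
  have h2 := le_abs_self (r v)
  linarith

/-- the link `E` glued to a representation -/
lemma glue (hGLU : SpecGLU) (hBAS : SpecBAS) (w : List Lk) (S N NT : Set ℕ) (l r : ℕ → ℝ) (M : ℝ)
    (hS : S ⊆ Vw w) (hR : Rp (EE w) S N l r) (hM : ∀ v ∈ S, v ≠ pp w → r v < M)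
    (hp : pp w ∈ S → r (pp w) = M) (hn : pp w ∈ S → ¬ (pp w ∈ N ∧ nn w ∈ NT)) :
    ∃ (N' : Set ℕ) (l' r' : ℕ → ℝ), Rp (EE (Lk.E :: w)) (S ∪ {nn w}) N' l' r' ∧
      (nn w ∈ N' ↔ nn w ∈ NT) ∧ ∀ v ∈ S, r' v < r' (nn w) := by
  have hx : ∀ v ∈ S, v < nn w := fun v hv => hS hv
  have hplt := hBAS.plt w
  have hE : ∀ u v, EE (Lk.E :: w) u v ↔ EE w u v ∨ ed (pp w) (nn w) u v := fun u v => Iff.rfl
  have hpx : EE (Lk.E :: w) (pp w) (nn w) := Or.inr (Or.inl ⟨rfl, rfl⟩)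
  have g1 : Disjoint S {nn w} := by
    rw [Set.disjoint_singleton_right]
    intro h
    exact absurd (hx _ h) (lt_irrefl _)
  have g2 : pp w ∉ ({nn w} : Set ℕ) := by
    intro h
    have h5 : pp w = nn w := h
    omega
  have g3 : ∀ u v, EE (Lk.E :: w) u v → EE (Lk.E :: w) v u := fun u v h =>
    hBAS.sym (Lk.E :: w) u v h
  have g4 : ∀ u ∈ S, ∀ v ∈ S, (EE (Lk.E :: w) u v ↔ EE w u v) := by
    intro u hu v hv
    rw [hE]
    constructor
    · rintro (h | h)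
      · exact h
      · exfalso
        have h5 := hx u hu
        have h6 := hx v hv
        rcases h with ⟨_, h⟩ | ⟨h, _⟩ <;> omega
    · exact Or.inl
  have g5 : ∀ u ∈ S, u ≠ pp w → ∀ v ∈ ({nn w} : Set ℕ), ¬ EE (Lk.E :: w) u v := by
    intro u hu hup v hv h
    have hv' : v = nn w := hv
    subst hv'
    have h5 := hx u hu
    rcases h with h | h
    · exact absurd (hBAS.bnd w _ _ h).2 (lt_irrefl _)
    · rcases h with ⟨h, _⟩ | ⟨h, _⟩
      · exact hup h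
      · omega
  have g6 : ∀ v ∈ ({nn w} : Set ℕ), (0 : ℝ) < (fun _ : ℕ => (1 : ℝ)) v ∧
      (fun _ : ℕ => (1 : ℝ)) v ≤ (fun _ : ℕ => (2 : ℝ)) v := by
    intro v _
    norm_num
  have g7 : ∀ u ∈ ({nn w} : Set ℕ), ∀ v ∈ ({nn w} : Set ℕ), u ∈ NT → v ∈ NT →
      ¬ EE (Lk.E :: w) u v := by
    intro u hu v hv _ _ h
    have hu' : u = nn w := hu
    have hv' : v = nn w := hv
    rw [hu', hv'] at h
    exact hBAS.irr _ _ h
  have g8 : pp w ∈ S → pp w ∈ N → ∀ v ∈ ({nn w} : Set ℕ), v ∈ NT →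
      ¬ EE (Lk.E :: w) (pp w) v := by
    intro hpS hpN v hv hvN
    have hv' : v = nn w := hv
    rw [hv'] at hvN
    exact absurd ⟨hpN, hvN⟩ (hn hpS)
  have g9 : ∀ u ∈ ({nn w} : Set ℕ), ∀ v ∈ ({nn w} : Set ℕ), u ≠ v → ¬ (u ∈ NT ∧ v ∈ NT) →
      (EE (Lk.E :: w) u v ↔ (fun _ : ℕ => (1 : ℝ)) u ≤ (fun _ : ℕ => (2 : ℝ)) v ∧
        (fun _ : ℕ => (1 : ℝ)) v ≤ (fun _ : ℕ => (2 : ℝ)) u) := by
    intro u hu v hv huv
    have hu' : u = nn w := hu
    have hv' : v = nn w := hv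
    exact absurd (hu'.trans hv'.symm) huv
  have g10 : pp w ∈ S → ∀ v ∈ ({nn w} : Set ℕ), ¬ (pp w ∈ N ∧ v ∈ NT) →
      (EE (Lk.E :: w) (pp w) v ↔ (fun _ : ℕ => (1 : ℝ)) v ≤ (1 : ℝ)) := by
    intro _ v hv _
    have hv' : v = nn w := hv
    rw [hv']
    exact ⟨fun _ => le_rfl, fun _ => hpx⟩
  obtain ⟨N', l', r', h1, h2, h3, h4⟩ := hGLU (EE w) (EE (Lk.E :: w)) S {nn w} N NT l r
    (fun _ => 1) (fun _ => 2) (pp w) M 1 hR g1 g2 hM hp zero_le_one g3 g4 g5 g6 g7 g8 g9 g10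
  refine ⟨N', l', r', h1, (h2 (nn w) rfl).1, fun v hv => ?_⟩
  rw [(h2 (nn w) rfl).2]
  by_cases hvp : v = pp w
  · subst hvp
    rw [(h4 hv).1]
    linarith
  · have := h3 v hv hvp
    linarith

end STEM

open STEM

theorem specSTE (hBAS : SpecBAS) (hGLU : SpecGLU) : SpecSTE := by
  intro w hI hs
  have hplt := hBAS.plt w
  have hmem : ∀ v, v ∈ Vw (Lk.E :: w) ↔ v < nn w + 1 := fun v => Iff.rfl
  have hpp : pp (Lk.E :: w) = nn w := rfl
  refine ⟨?_, ?_, ?_⟩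
  · -- the whole graph
    obtain ⟨N, l, r, hR, hpS, hpN, hlast⟩ := hI.full
    obtain ⟨N', l', r', h1, h2, h3⟩ := glue hGLU hBAS w (Vw w) N ∅ l r (r (pp w))
      (Set.Subset.refl _) hR hlast (fun _ => rfl) (fun _ h => h.2)
    refine ⟨N', l', r', mono h1 ?_, ?_, ?_, ?_⟩
    · intro v hv
      rw [hmem] at hv
      rcases Nat.lt_succ_iff_lt_or_eq.mp hv with h | h
      · exact Or.inl h
      · exact Or.inr h
    · rw [hpp, hmem]
      omega
    · rw [hpp, h2]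
      show nn w ∈ (∅ : Set ℕ) ↔ false = true
      simp
    · intro v hv hvx
      rw [hpp] at hvx ⊢
      rw [hmem] at hv
      refine h3 v ?_
      show v < nn w
      omega
  · intro u hu hux
    rw [hpp] at hux
    rw [hmem] at hu
    have hu' : u < nn w := by omega
    -- the sets
    have hsub : Vw (Lk.E :: w) \ {u} ⊆ (Vw w \ {u}) ∪ {nn w} := by
      rintro v ⟨hv, hvu⟩
      rw [hmem] at hv
      rcases Nat.lt_succ_iff_lt_or_eq.mp hv with h | h
      · exact Or.inl ⟨h, hvu⟩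
      · exact Or.inr h
    have hfin : ∀ (N' : Set ℕ) (l' r' : ℕ → ℝ),
        Rp (EE (Lk.E :: w)) ((Vw w \ {u}) ∪ {nn w}) N' l' r' → (nn w ∈ N' ↔ nn w ∈ ({nn w} : Set ℕ)) →
        (∀ v ∈ Vw w \ {u}, r' v < r' (nn w)) →
        Ex (EE (Lk.E :: w)) (Vw (Lk.E :: w) \ {u}) (pp (Lk.E :: w)) (!ss (Lk.E :: w)) := by
      intro N' l' r' h1 h2 h3
      refine ⟨N', l', r', mono h1 hsub, ?_, ?_, ?_⟩
      · rw [hpp]
        refine ⟨?_, fun h => ?_⟩
        · rw [hmem]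
          omega
        · have h4 : nn w = u := h
          omega
      · rw [hpp, h2]
        show nn w ∈ ({nn w} : Set ℕ) ↔ (!false) = true
        simp
      · rintro v ⟨hv, hvu⟩ hvx
        rw [hpp] at hvx ⊢
        rw [hmem] at hv
        refine h3 v ⟨?_, hvu⟩
        show v < nn w
        omega
    by_cases hup : u = pp w
    · -- the old exit is deleted
      obtain ⟨N, l, r, hR⟩ := hI.pdel
      obtain ⟨M, hM⟩ := bound (nn w) r
      rw [← hup] at hR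
      have hpS : pp w ∉ Vw w \ {u} := fun h => h.2 hup.symm
      obtain ⟨N', l', r', h1, h2, h3⟩ := glue hGLU hBAS w (Vw w \ {u}) N {nn w} l r M
        Set.sdiff_subset hR (fun v hv _ => hM v hv.1) (fun h => absurd h hpS)
        (fun h => absurd h hpS)
      exact hfin N' l' r' h1 h2 h3
    · obtain ⟨N, l, r, hR, hpS, hpN, hlast⟩ := hI.del u hu' hup
      have hpN' : pp w ∉ N := by
        intro h
        have h4 := hpN.mp h
        rw [hs] at h4
        exact absurd h4 (by decide)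
      obtain ⟨N', l', r', h1, h2, h3⟩ := glue hGLU hBAS w (Vw w \ {u}) N {nn w} l r (r (pp w))
        Set.sdiff_subset hR hlast (fun _ => rfl) (fun _ h => hpN' h.1)
      exact hfin N' l' r' h1 h2 h3
  · -- the new exit is deleted
    obtain ⟨N, l, r, hR, _⟩ := hI.full
    refine ⟨N, l, r, ?_⟩
    have hsub : Vw (Lk.E :: w) \ {pp (Lk.E :: w)} ⊆ Vw w := by
      rintro v ⟨hv, hvx⟩
      rw [hmem] at hv
      have h4 : v ≠ nn w := hvx
      show v < nn w
      omega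
    have hR' := mono hR hsub
    have hE : ∀ u ∈ Vw (Lk.E :: w) \ {pp (Lk.E :: w)}, ∀ v ∈ Vw (Lk.E :: w) \ {pp (Lk.E :: w)},
        (EE (Lk.E :: w) u v ↔ EE w u v) := by
      intro u hu v hv
      constructor
      · rintro (h | h)
        · exact h
        · exfalso
          have h5 : u < nn w := hsub hu
          have h6 : v < nn w := hsub hv
          rcases h with ⟨_, h⟩ | ⟨h, _⟩ <;> omega
      · exact Or.inl
    refine ⟨hR'.le, ?_, ?_⟩
    · intro u hu v hv h1 h2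
      rw [hE u hu v hv]
      exact hR'.ind u hu v hv h1 h2
    · intro u hu v hv huv hn
      rw [hE u hu v hv]
      exact hR'.adj u hu v hv huv hn

end Pool.Agent.Lib.MPc95e9c
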