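import Pool.Agent.Lib.MP_c95e9c_lc.OB.Spec

/-!
# STO: the link `O`
-/

set_option autoImplicit false

namespace Pool.Agent.Lib.MPc95e9c

namespace STOM

/-- adjacency of the new vertices `x, x + 1, x + 2` -/
def Adj3 (i j : ℕ) : Prop := (i = 2 ∧ j ≠ 2) ∨ (i ≠ 2 ∧ j = 2)

instance (i j : ℕ) : Decidable (Adj3 i j) := by unfold Adj3; infer_instance

/-- positive coordinates -/
def K1 (T : ℕ → Bool) (A B : ℕ → ℕ) : Prop := ∀ i < 3, T i = true → 0 < A i ∧ A i ≤ B i

/-- the new non-probes are independent, one pair -/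
def K2a (T U : ℕ → Bool) (i j : ℕ) : Prop :=
  T i = true → T j = true → U i = true → U j = true → ¬ Adj3 i j

instance (T U : ℕ → Bool) (i j : ℕ) : Decidable (K2a T U i j) := by unfold K2a; infer_instance

/-- the new non-probes are independent -/
def K2 (T U : ℕ → Bool) : Prop := ∀ i < 3, ∀ j < 3, K2a T U i j

/-- the entry and the new non-probes are independent -/
def K3 (T U : ℕ → Bool) (s n : Bool) : Prop :=
  s = true → n = true → ∀ i < 3, T i = true → U i = true → i = 2

/-- the intervals of the new vertices, one pair -/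
def K4a (T U : ℕ → Bool) (A B : ℕ → ℕ) (i j : ℕ) : Prop :=
  T i = true → T j = true → i ≠ j → ¬ (U i = true ∧ U j = true) →
    (Adj3 i j ↔ A i ≤ B j ∧ A j ≤ B i)

instance (T U : ℕ → Bool) (A B : ℕ → ℕ) (i j : ℕ) : Decidable (K4a T U A B i j) := by
  unfold K4a; infer_instance

/-- the intervals of the new vertices -/
def K4 (T U : ℕ → Bool) (A B : ℕ → ℕ) : Prop := ∀ i < 3, ∀ j < 3, K4a T U A B i j

/-- the interval of the entry -/
def K5 (T U : ℕ → Bool) (A : ℕ → ℕ) (e : ℕ) (s n : Bool) : Prop :=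
  s = true → ∀ i < 3, T i = true → ¬ (n = true ∧ U i = true) → (i ≠ 2 ↔ A i ≤ e)

instance (T : ℕ → Bool) (A B : ℕ → ℕ) : Decidable (K1 T A B) := by unfold K1; infer_instance
instance (T U : ℕ → Bool) : Decidable (K2 T U) := by unfold K2; infer_instance
instance (T U : ℕ → Bool) (s n : Bool) : Decidable (K3 T U s n) := by unfold K3; infer_instance
instance (T U : ℕ → Bool) (A B : ℕ → ℕ) : Decidable (K4 T U A B) := by unfold K4; infer_instance
instance (T U : ℕ → Bool) (A : ℕ → ℕ) (e : ℕ) (s n : Bool) : Decidable (K5 T U A e s n) := by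
  unfold K5; infer_instance

/-- the conditions on the coordinates; `T` the new vertices present, `U` the new non-probes, `s`: is the entry present, `n`: is
it a non-probe -/
def Chk (T U : ℕ → Bool) (A B : ℕ → ℕ) (e : ℕ) (s n : Bool) : Prop :=
  K1 T A B ∧ K2 T U ∧ K3 T U s n ∧ K4 T U A B ∧ K5 T U A e s n

instance (T U : ℕ → Bool) (A B : ℕ → ℕ) (e : ℕ) (s n : Bool) : Decidable (Chk T U A B e s n) := by
  unfold Chk; infer_instance

/-- the exit ends last -/
def Last (T : ℕ → Bool) (B : ℕ → ℕ) (e : ℕ) (s : Bool) : Prop :=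
  T 2 = true ∧ 0 < B 2 ∧ (s = true → e < B 2) ∧ ∀ i < 2, T i = true → B i < B 2

instance (T : ℕ → Bool) (B : ℕ → ℕ) (e : ℕ) (s : Bool) : Decidable (Last T B e s) := by
  unfold Last; infer_instance

/-- the new vertices -/
def TT (x : ℕ) (T : ℕ → Bool) : Set ℕ := {v | ∃ i < 3, T i = true ∧ v = x + i}

lemma sq_iff {p x i j : ℕ} (h : p < x) (hi : i < 3) (hj : j < 3) :
    sq p x (x + i) (x + j) ↔ Adj3 i j := by
  unfold sq ed Adj3
  omega

lemma glue (hBAS : SpecBAS) (hGLU : SpecGLU) (w : List Lk) (S N : Set ℕ) (l r : ℕ → ℝ) (M : ℝ)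
    (T U : ℕ → Bool) (A B : ℕ → ℕ) (e : ℕ) (s n : Bool) (hS : S ⊆ Vw w)
    (hR : Rp (EE w) S N l r) (h1 : ∀ v ∈ S, v ≠ pp w → r v < M) (h2 : pp w ∈ S → r (pp w) = M)
    (hs : pp w ∈ S → s = true) (hn : pp w ∈ S → (pp w ∈ N ↔ n = true)) (hC : Chk T U A B e s n) :
    ∃ (N' : Set ℕ) (l' r' : ℕ → ℝ), Rp (EE (Lk.O :: w)) (S ∪ TT (nn w) T) N' l' r' ∧
      (∀ i < 3, T i = true → (nn w + i ∈ N' ↔ U i = true) ∧ r' (nn w + i) = M + (B i : ℝ)) ∧
      (∀ v ∈ S, v ≠ pp w → r' v < M) ∧ (pp w ∈ S → r' (pp w) = M + (e : ℝ)) := by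
  obtain ⟨c1, c2, c3, c4, c5⟩ := hC
  have hp := hBAS.plt w
  have hE : ∀ u v, EE (Lk.O :: w) u v ↔ EE w u v ∨ sq (pp w) (nn w) u v := fun u v => Iff.rfl
  have hSl : ∀ v ∈ S, v < nn w := fun v hv => hS hv
  have key := hGLU (EE w) (EE (Lk.O :: w)) S (TT (nn w) T) N (TT (nn w) U) l r
    (fun v => (A (v - nn w) : ℝ)) (fun v => (B (v - nn w) : ℝ)) (pp w) M (e : ℝ) hR
    (by
      rw [Set.disjoint_left]
      rintro v hv ⟨i, hi, -, rfl⟩
      have := hSl _ hv
      omega)
    (by
      rintro ⟨i, hi, -, h⟩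
      omega)
    h1 h2 (Nat.cast_nonneg e) (fun u v => hBAS.sym (Lk.O :: w) u v)
    (by
      intro u hu v hv
      have a1 := hSl u hu
      have a2 := hSl v hv
      rw [hE]
      constructor
      · rintro (h | h)
        · exact h
        · exfalso
          unfold sq ed at h
          omega
      · exact Or.inl)
    (by
      rintro u hu hup v ⟨i, hi, -, rfl⟩ h
      have a1 := hSl u hu
      rw [hE] at h
      rcases h with h | h
      · have := (hBAS.bnd w _ _ h).2
        omega
      · unfold sq ed at h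
        omega)
    (by
      rintro v ⟨i, hi, hTi, rfl⟩
      simp only [Nat.add_sub_cancel_left]
      have := c1 i hi hTi
      exact ⟨by exact_mod_cast this.1, by exact_mod_cast this.2⟩)
    (by
      rintro u ⟨i, hi, hTi, rfl⟩ v ⟨j, hj, hTj, rfl⟩ ⟨i', hi', hUi, ei⟩ ⟨j', hj', hUj, ej⟩ h
      have ei' : i' = i := by omega
      have ej' : j' = j := by omega
      subst ei' ej'
      rw [hE] at h
      rcases h with h | h
      · have := (hBAS.bnd w _ _ h).2
        omega
      · exact c2 i' hi j' hj hTi hTj hUi hUj ((sq_iff hp hi hj).1 h))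
    (by
      rintro hpS hpN v ⟨i, hi, hTi, rfl⟩ ⟨i', hi', hUi, ei⟩ h
      have ei' : i' = i := by omega
      subst ei'
      rw [hE] at h
      rcases h with h | h
      · have := (hBAS.bnd w _ _ h).2
        omega
      · have h2 := c3 (hs hpS) ((hn hpS).1 hpN) i' hi hTi hUi
        subst h2
        unfold sq ed at h
        omega)
    (by
      rintro u ⟨i, hi, hTi, rfl⟩ v ⟨j, hj, hTj, rfl⟩ huv hnn
      simp only [Nat.add_sub_cancel_left]
      have hij : i ≠ j := by rintro rfl; exact huv rfl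
      have hU : ¬ (U i = true ∧ U j = true) := by
        rintro ⟨q1, q2⟩
        exact hnn ⟨⟨i, hi, q1, rfl⟩, ⟨j, hj, q2, rfl⟩⟩
      have h4 := c4 i hi j hj hTi hTj hij hU
      rw [hE]
      constructor
      · rintro (h | h)
        · exfalso
          have := (hBAS.bnd w _ _ h).2
          omega
        · have := h4.1 ((sq_iff hp hi hj).1 h)
          exact ⟨by exact_mod_cast this.1, by exact_mod_cast this.2⟩
      · rintro ⟨q1, q2⟩
        exact Or.inr ((sq_iff hp hi hj).2 (h4.2 ⟨by exact_mod_cast q1, by exact_mod_cast q2⟩)))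
    (by
      rintro hpS v ⟨i, hi, hTi, rfl⟩ hnn
      simp only [Nat.add_sub_cancel_left]
      have hU : ¬ (n = true ∧ U i = true) := by
        rintro ⟨q1, q2⟩
        exact hnn ⟨(hn hpS).2 q1, ⟨i, hi, q2, rfl⟩⟩
      have h5 := c5 (hs hpS) i hi hTi hU
      rw [hE]
      constructor
      · rintro (h | h)
        · exfalso
          have := (hBAS.bnd w _ _ h).2
          omega
        · have h6 : i ≠ 2 := by
            rintro rfl
            unfold sq ed at h
            omega
          exact_mod_cast h5.1 h6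
      · intro q
        have h6 : i ≠ 2 := h5.2 (by exact_mod_cast q)
        right
        unfold sq ed
        omega)
  obtain ⟨N', l', r', k1, k2, k3, k4⟩ := key
  refine ⟨N', l', r', k1, ?_, k3, fun h => (k4 h).1⟩
  intro i hi hTi
  have h7 := k2 (nn w + i) ⟨i, hi, hTi, rfl⟩
  simp only [Nat.add_sub_cancel_left] at h7
  refine ⟨?_, h7.2⟩
  rw [h7.1]
  constructor
  · rintro ⟨j, hj, hUj, ej⟩
    have : j = i := by omega
    subst this
    exact hUj
  · intro h
    exact ⟨i, hi, h, rfl⟩

lemma glueEx (hBAS : SpecBAS) (hGLU : SpecGLU) (w : List Lk) (S N : Set ℕ) (l r : ℕ → ℝ) (M : ℝ)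
    (T U : ℕ → Bool) (A B : ℕ → ℕ) (e : ℕ) (s n : Bool) (hS : S ⊆ Vw w)
    (hR : Rp (EE w) S N l r) (h1 : ∀ v ∈ S, v ≠ pp w → r v < M) (h2 : pp w ∈ S → r (pp w) = M)
    (hs : pp w ∈ S → s = true) (hn : pp w ∈ S → (pp w ∈ N ↔ n = true)) (hC : Chk T U A B e s n)
    (hL : Last T B e s) (S' : Set ℕ) (hS' : S' = S ∪ TT (nn w) T) :
    Ex (EE (Lk.O :: w)) S' (pp (Lk.O :: w)) (U 2) := by
  obtain ⟨N', l', r', k1, k2, k3, k4⟩ := glue hBAS hGLU w S N l r M T U A B e s n hS hR h1 h2 hs hn hC
  obtain ⟨L1, L2, L3, L4⟩ := hL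
  have e2 : pp (Lk.O :: w) = nn w + 2 := rfl
  have hB2 : (0 : ℝ) < (B 2 : ℝ) := by exact_mod_cast L2
  subst hS'
  rw [e2]
  refine ⟨N', l', r', k1, Or.inr ⟨2, by norm_num, L1, rfl⟩, (k2 2 (by norm_num) L1).1, ?_⟩
  rintro v (hv | ⟨i, hi, hTi, rfl⟩) hne
  · rw [(k2 2 (by norm_num) L1).2]
    by_cases hvp : v = pp w
    · subst hvp
      rw [k4 hv]
      have := L3 (hs hv)
      have : (e : ℝ) < (B 2 : ℝ) := by exact_mod_cast this
      linarith
    · have := k3 v hv hvp
      linarith
  · rw [(k2 2 (by norm_num) L1).2, (k2 i hi hTi).2]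
    have hi2 : i < 2 := by omega
    have : (B i : ℝ) < (B 2 : ℝ) := by exact_mod_cast L4 i hi2 hTi
    linarith

lemma TT_all (x v : ℕ) : v ∈ TT x (fun _ => true) ↔ x ≤ v ∧ v < x + 3 := by
  constructor
  · rintro ⟨i, hi, -, rfl⟩
    omega
  · rintro ⟨h1, h2⟩
    exact ⟨v - x, by omega, rfl, by omega⟩

/-- coordinates, the entry and the exit are in `N` -/
def A1 : ℕ → ℕ := fun i => if i = 0 then 1 else if i = 1 then 3 else 2
def B1 : ℕ → ℕ := fun i => if i = 0 then 2 else if i = 1 then 4 else 6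
/-- coordinates, the entry and the exit are not in `N` -/
def A2 : ℕ → ℕ := fun i => if i = 2 then 2 else 1
def B2 : ℕ → ℕ := fun i => if i = 2 then 3 else 2

lemma fullAny (hBAS : SpecBAS) (hGLU : SpecGLU) (w : List Lk) (S : Set ℕ) (b : Bool) (hS : S ⊆ Vw w)
    (h : Ex (EE w) S (pp w) b) (S' : Set ℕ) (hS' : S' = S ∪ TT (nn w) (fun _ => true)) :
    Ex (EE (Lk.O :: w)) S' (pp (Lk.O :: w)) b := by
  obtain ⟨N, l, r, hR, hp, hN, hlast⟩ := h
  cases b
  · exact glueEx hBAS hGLU w S N l r (r (pp w)) (fun _ => true) (fun i => decide (i ≠ 2)) A2 B2 1 true false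
      hS hR hlast (fun _ => rfl) (fun _ => rfl) (fun _ => hN) (by decide) (by decide) S' hS'
  · exact glueEx hBAS hGLU w S N l r (r (pp w)) (fun _ => true) (fun i => decide (i = 2)) A1 B1 4 true true
      hS hR hlast (fun _ => rfl) (fun _ => rfl) (fun _ => hN) (by decide) (by decide) S' hS'

lemma bound (w : List Lk) (r : ℕ → ℝ) : ∃ M : ℝ, ∀ v ∈ Vw w, r v < M := by
  obtain ⟨M, hM⟩ := ((Set.finite_lt_nat (nn w)).image r).bddAbove
  refine ⟨M + 1, fun v hv => ?_⟩
  have := hM ⟨v, hv, rfl⟩
  linarith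

end STOM

open STOM in
theorem specSTO (hBAS : SpecBAS) (hGLU : SpecGLU) : SpecSTO := by
  intro w hI
  have hp := hBAS.plt w
  have e1 : pp (Lk.O :: w) = nn w + 2 := rfl
  have e2 : Vw (Lk.O :: w) = {v | v < nn w + 3} := rfl
  have e3 : ss (Lk.O :: w) = ss w := rfl
  refine ⟨?_, ?_, ?_⟩
  · rw [e3]
    refine fullAny hBAS hGLU w (Vw w) (ss w) le_rfl hI.full _ ?_
    rw [e2]
    ext v
    rw [Set.mem_union, TT_all]
    simp only [Vw, Set.mem_ofPred_eq]
    omega
  · intro u hu hup
    rw [e1] at hup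
    rw [e2] at hu
    have hu' : u < nn w + 3 := hu
    rw [e3]
    by_cases hux : u < nn w
    · by_cases hupp : u = pp w
      · subst hupp
        obtain ⟨N, l, r, hR⟩ := hI.pdel
        obtain ⟨M, hM⟩ := bound w r
        have h := glueEx hBAS hGLU w (Vw w \ {pp w}) N l r M (fun _ => true)
          (fun i => decide (i = 2) && !ss w) A1 B1 0 false false
          Set.sdiff_subset hR (fun v hv _ => hM v hv.1) (fun h => absurd rfl h.2) (fun h => absurd rfl h.2)
          (fun h => absurd rfl h.2) (by cases ss w <;> decide) (by decide)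
          (Vw (Lk.O :: w) \ {pp w}) (by
            rw [e2]
            ext v
            rw [Set.mem_union, TT_all]
            simp only [Vw, Set.mem_ofPred_eq, Set.mem_sdiff, Set.mem_singleton_iff]
            omega)
        simpa using h
      · refine fullAny hBAS hGLU w (Vw w \ {u}) (!ss w) Set.sdiff_subset (hI.del u hux hupp) _ ?_
        rw [e2]
        ext v
        rw [Set.mem_union, TT_all]
        simp only [Vw, Set.mem_ofPred_eq, Set.mem_sdiff, Set.mem_singleton_iff]
        omega
    · obtain ⟨N, l, r, hR, hp', hN, hlast⟩ := hI.full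
      have h := glueEx hBAS hGLU w (Vw w) N l r (r (pp w)) (fun i => decide (nn w + i ≠ u))
        (fun i => decide (i = 2) && !ss w) A2 B2 1 true (ss w)
        le_rfl hR hlast (fun _ => rfl) (fun _ => rfl) (fun _ => hN)
        (by
          have hu2 : u = nn w ∨ u = nn w + 1 := by omega
          rcases hu2 with rfl | rfl
          · have : (fun i => decide (nn w + i ≠ nn w)) = (fun i => decide (i ≠ 0)) := by
              funext i
              simp
            rw [this]
            cases ss w <;> decide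
          · have : (fun i => decide (nn w + i ≠ nn w + 1)) = (fun i => decide (i ≠ 1)) := by
              funext i
              simp
            rw [this]
            cases ss w <;> decide)
        (by
          have hu2 : u = nn w ∨ u = nn w + 1 := by omega
          rcases hu2 with rfl | rfl
          · have : (fun i => decide (nn w + i ≠ nn w)) = (fun i => decide (i ≠ 0)) := by
              funext i
              simp
            rw [this]
            decide
          · have : (fun i => decide (nn w + i ≠ nn w + 1)) = (fun i => decide (i ≠ 1)) := by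
              funext i
              simp
            rw [this]
            decide)
        (Vw (Lk.O :: w) \ {u}) (by
          rw [e2]
          ext v
          simp only [Vw, Set.mem_ofPred_eq, Set.mem_sdiff, Set.mem_singleton_iff, Set.mem_union, TT,
            decide_eq_true_eq]
          constructor
          · rintro ⟨h1, h2⟩
            by_cases h3 : v < nn w
            · exact Or.inl h3
            · exact Or.inr ⟨v - nn w, by omega, by omega, by omega⟩
          · rintro (h1 | ⟨i, hi, h2, rfl⟩)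
            · omega
            · exact ⟨by omega, h2⟩)
      simpa using h
  · obtain ⟨N, l, r, hR, hp', hN, hlast⟩ := hI.full
    obtain ⟨N', l', r', k1, -⟩ := glue hBAS hGLU w (Vw w) N l r (r (pp w)) (fun i => decide (i ≠ 2))
      (fun _ => false) A1 B1 4 true (ss w) le_rfl hR hlast (fun _ => rfl) (fun _ => rfl) (fun _ => hN)
      (by cases ss w <;> decide)
    refine ⟨N', l', r', ?_⟩
    have e4 : Vw (Lk.O :: w) \ {pp (Lk.O :: w)} = Vw w ∪ TT (nn w) (fun i => decide (i ≠ 2)) := by
      rw [e2, e1]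
      ext v
      simp only [Vw, Set.mem_ofPred_eq, Set.mem_sdiff, Set.mem_singleton_iff, Set.mem_union, TT,
        decide_eq_true_eq]
      constructor
      · rintro ⟨h1, h2⟩
        by_cases h3 : v < nn w
        · exact Or.inl h3
        · exact Or.inr ⟨v - nn w, by omega, by omega, by omega⟩
      · rintro (h1 | ⟨i, hi, h2, rfl⟩)
        · omega
        · exact ⟨by omega, by omega⟩
    rw [e4]
    exact k1

end Pool.Agent.Lib.MPc95e9c
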