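import Pool.Agent.Lib.MP_c95e9c_lc.OB.Spec

/-!
# MP_c95e9c_lc, module WRD: facts on the words
-/

set_option autoImplicit false

namespace Pool.Agent.Lib.MPc95e9c

namespace WRDM

lemma nn_rep (k : ℕ) : nn (List.replicate k Lk.O) = 5 + 3 * k := by
  induction k with
  | zero => simp [nn]
  | succ k ih => rw [List.replicate_succ, nn, ih]; ring

lemma ss_rep (k : ℕ) : ss (List.replicate k Lk.O) = true := by
  induction k with
  | zero => simp [ss]
  | succ k ih => rw [List.replicate_succ, ss, ih]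

lemma ok_rep (k : ℕ) : Ok (List.replicate k Lk.O) := by
  induction k with
  | zero => simp [Ok]
  | succ k ih => rw [List.replicate_succ, Ok]; exact ih

lemma nn_wd (k : ℕ) (bs : List Bool) : nn (wd k bs) = 5 + 3 * k + 7 * bs.length := by
  induction bs with
  | nil => rw [wd, nn_rep]; simp
  | cons b bs ih =>
    cases b
    · simp only [wd, nn, List.length_cons, ih]; ring
    · simp only [wd, nn, List.length_cons, ih]; ring

lemma ok_wd (k : ℕ) (bs : List Bool) : Ok (wd k bs) ∧ ss (wd k bs) = true := by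
  induction bs with
  | nil => exact ⟨by rw [wd]; exact ok_rep k, by rw [wd]; exact ss_rep k⟩
  | cons b bs ih =>
    obtain ⟨h1, h2⟩ := ih
    cases b
    · refine ⟨?_, ?_⟩
      · rw [wd, Ok, Ok, Ok]
        refine ⟨⟨h1, ?_⟩, ?_⟩
        · rw [ss]; exact h2
        · rw [ss]
      · rw [wd, ss]
    · refine ⟨?_, ?_⟩
      · rw [wd, Ok, Ok, Ok]
        exact ⟨⟨h1, h2⟩, by rw [ss]⟩
      · rw [wd, ss, ss]

end WRDM

theorem specWRD : SpecWRD where
  num := by
    intro k bs
    rw [nn, WRDM.nn_wd]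
    ring
  frm := by
    intro k bs hk
    induction bs with
    | nil =>
      obtain ⟨j, rfl⟩ : ∃ j, k = j + 1 := ⟨k - 1, by omega⟩
      exact ⟨List.replicate j Lk.O, by rw [wd, List.replicate_succ']⟩
    | cons b bs ih =>
      obtain ⟨w, hw⟩ := ih
      cases b
      · exact ⟨Lk.A :: Lk.E :: Lk.O :: w, by rw [wd, hw]; rfl⟩
      · exact ⟨Lk.O :: Lk.A :: Lk.E :: w, by rw [wd, hw]; rfl⟩
  okk := by
    intro k bs
    rw [Ok]
    exact WRDM.ok_wd k bs

end Pool.Agent.Lib.MPc95e9c
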