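import Pool.Agent.Lib.MP_c95e9c_lc.OB.BAS
import Pool.Agent.Lib.MP_c95e9c_lc.OB.BIP
import Pool.Agent.Lib.MP_c95e9c_lc.OB.C4
import Pool.Agent.Lib.MP_c95e9c_lc.OB.CLW
import Pool.Agent.Lib.MP_c95e9c_lc.OB.CNT
import Pool.Agent.Lib.MP_c95e9c_lc.OB.CNV
import Pool.Agent.Lib.MP_c95e9c_lc.OB.END
import Pool.Agent.Lib.MP_c95e9c_lc.OB.FIN
import Pool.Agent.Lib.MP_c95e9c_lc.OB.FRC
import Pool.Agent.Lib.MP_c95e9c_lc.OB.GLU
import Pool.Agent.Lib.MP_c95e9c_lc.OB.LEV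
import Pool.Agent.Lib.MP_c95e9c_lc.OB.LIS
import Pool.Agent.Lib.MP_c95e9c_lc.OB.MIN
import Pool.Agent.Lib.MP_c95e9c_lc.OB.NIL
import Pool.Agent.Lib.MP_c95e9c_lc.OB.ROO
import Pool.Agent.Lib.MP_c95e9c_lc.OB.STA
import Pool.Agent.Lib.MP_c95e9c_lc.OB.STE
import Pool.Agent.Lib.MP_c95e9c_lc.OB.STO
import Pool.Agent.Lib.MP_c95e9c_lc.OB.WRD

/-!
# MP_c95e9c, OB: assembly
-/

set_option autoImplicit false

namespace Pool.Agent.Lib.MPc95e9c

theorem allMIN : SpecMIN :=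
  specMIN specBAS specNIL (specSTE specBAS specGLU) (specSTO specBAS specGLU) (specSTA specBAS specGLU)
    (specEND specBAS specGLU) (specFRC specBAS specC4 specCLW) specCNV

theorem allFIN : SpecFIN :=
  specFIN allMIN specLIS (specLEV specBAS) (specROO specBAS) (specCNT specBAS) specWRD (specBIP specBAS)

end Pool.Agent.Lib.MPc95e9c
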