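import Mathlib

/-!
# MP_c95e9c: exponentially many minimal forbidden induced subgraphs of interval probe graphs

THEOREM (`Results/MP_c95e9c_lc/ManyObstructions.lean`). For every `n ≥ 31` there are `2 ^ ((n - 31) / 7)` pairwise
non-isomorphic graphs with exactly `n` vertices which are not interval probe graphs (unpartitioned) but all of whose proper
induced subgraphs are; all of them are bipartite of maximum degree at most `4` (they are cacti with blocks `K_2` and `C_4`).
(For trees there are exactly two minimal forbidden graphs, Sheng 1999.)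

THE GRAPHS. A chain of links `L_1, ..., L_k` from left to right; `p_i` is the entry of `L_i`, `p_(i+1)` its exit. A link
`O` or `A` is a square `p, x, q, y` (edges `px, py, xq, yq`); the exit of `O` is `q`, the exit of `A` is `x`. A link `E` is
an edge. At both ends two pendant paths with two edges are attached (`EE []` is the left end, vertex `0 = p_1`;
`EF w` adds the right end). Lists of links are read from right to left: the head of the list is the last link.

NOT A PROBE GRAPH. In every probe representation opposite vertices of a square are in `N` (C4) and the centre of an induced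
subdivided claw is in `N` (CLW). So `p_1` is in `N`; an edge leads from `N` to `not N`; `O` keeps the status, `A` leads from
`not N` to `N`. If the last status is `not N` we have a contradiction since the last vertex is the centre of a subdivided claw.
MINIMAL. If a vertex is deleted the left part takes the statuses above and the right part the opposite ones; the
representations of the links are glued (GLU).

Module `XXX` is the file `OB/XXX.lean` with `theorem specXXX (hYYY : SpecYYY) .. : SpecXXX` (the modules named after USES, in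
this order) in the namespace `Pool.Agent.Lib.MPc95e9c`, own lemmas in a namespace `XXXM`. Every module imports only
`Pool.Agent.Lib.MP_c95e9c_lc.OB.Spec`. All modules are independent. No double-quote characters.
-/

set_option autoImplicit false

namespace Pool.Agent.Lib.MPc95e9c

/-! ## Definitions which occur in the theorem -/

/-- `H` is an interval graph: the intersection graph of the intervals `[l v, r v]`. -/
def IsInterval {V : Type} (H : SimpleGraph V) : Prop :=
  ∃ l r : V → ℝ, (∀ v, l v ≤ r v) ∧ ∀ u v : V, u ≠ v → (H.Adj u v ↔ l u ≤ r v ∧ l v ≤ r u)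

/-- `G` is an interval probe graph (no partition is given): for some independent set `N` of non-probes an interval graph `H`
arises from `G` by adding edges between vertices of `N`. -/
def IsIPG {V : Type} (G : SimpleGraph V) : Prop :=
  ∃ (N : Set V) (H : SimpleGraph V), (∀ u ∈ N, ∀ v ∈ N, ¬ G.Adj u v) ∧ G ≤ H ∧
    (∀ u v, H.Adj u v → G.Adj u v ∨ (u ∈ N ∧ v ∈ N)) ∧ IsInterval H

/-- `G` is a minimal forbidden induced subgraph of the class of interval probe graphs. -/
def MinObs {V : Type} (G : SimpleGraph V) : Prop :=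
  ¬ IsIPG G ∧ ∀ S : Set V, S ≠ Set.univ → IsIPG (G.induce S)

/-! ## The graphs -/

/-- links -/
inductive Lk : Type
  | O : Lk
  | E : Lk
  | A : Lk

/-- the number of vertices (without the right end) -/
def nn : List Lk → ℕ
  | [] => 5
  | Lk.O :: w => nn w + 3
  | Lk.E :: w => nn w + 1
  | Lk.A :: w => nn w + 3

/-- the exit -/
def pp : List Lk → ℕ
  | [] => 0
  | Lk.O :: w => nn w + 2
  | Lk.E :: w => nn w
  | Lk.A :: w => nn w

/-- `uv` is the edge `ab` -/
def ed (a b u v : ℕ) : Prop := (u = a ∧ v = b) ∨ (u = b ∧ v = a)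

/-- the square `p, x, q, y` with `y = x + 1`, `q = x + 2` -/
def sq (p x u v : ℕ) : Prop := ed p x u v ∨ ed p (x + 1) u v ∨ ed x (x + 2) u v ∨ ed (x + 1) (x + 2) u v

/-- the edges (without the right end) -/
def EE : List Lk → ℕ → ℕ → Prop
  | [], u, v => ed 0 1 u v ∨ ed 1 2 u v ∨ ed 0 3 u v ∨ ed 3 4 u v
  | Lk.O :: w, u, v => EE w u v ∨ sq (pp w) (nn w) u v
  | Lk.E :: w, u, v => EE w u v ∨ ed (pp w) (nn w) u v
  | Lk.A :: w, u, v => EE w u v ∨ sq (pp w) (nn w) u v

/-- the edges of the right end: two pendant paths at `p` -/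
def rt (p n u v : ℕ) : Prop := ed p n u v ∨ ed n (n + 1) u v ∨ ed p (n + 2) u v ∨ ed (n + 2) (n + 3) u v

/-- all edges -/
def EF (w : List Lk) (u v : ℕ) : Prop := EE w u v ∨ rt (pp w) (nn w) u v

/-- the graph on `Fin n`, used for `n = nn w + 4` -/
def GG (n : ℕ) (w : List Lk) : SimpleGraph (Fin n) := SimpleGraph.fromRel fun u v => EF w u v

/-- the status of the exit forced from the left (`true`: in `N`) -/
def ss : List Lk → Bool
  | [] => true
  | Lk.O :: w => ss w
  | Lk.E :: _ => false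
  | Lk.A :: _ => true

/-- the admissible words -/
def Ok : List Lk → Prop
  | [] => True
  | Lk.O :: w => Ok w
  | Lk.E :: w => Ok w ∧ ss w = true
  | Lk.A :: w => Ok w ∧ ss w = false

/-- the distance from the vertex `0` -/
def DD : List Lk → ℕ → ℕ
  | [], v => if v = 0 then 0 else if v = 1 ∨ v = 3 then 1 else 2
  | Lk.O :: w, v => if v < nn w then DD w v else if v = nn w + 2 then DD w (pp w) + 2 else DD w (pp w) + 1
  | Lk.E :: w, v => if v < nn w then DD w v else DD w (pp w) + 1
  | Lk.A :: w, v => if v < nn w then DD w v else if v = nn w + 2 then DD w (pp w) + 2 else DD w (pp w) + 1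

/-- the distance from the vertex `0` in the whole graph -/
def DF (w : List Lk) (v : ℕ) : ℕ :=
  if v < nn w then DD w v else if v = nn w ∨ v = nn w + 2 then DD w (pp w) + 1 else DD w (pp w) + 2

/-- the words of the theorem (without the last link `E`): `k` links `O` on the left, then for every bit a block; from left to
right the blocks are `O, E, A` for `false` and `E, A, O` for `true` (as lists `[A, E, O]` and `[O, A, E]`) -/
def wd (k : ℕ) : List Bool → List Lk
  | [] => List.replicate k Lk.O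
  | false :: bs => Lk.A :: Lk.E :: Lk.O :: wd k bs
  | true :: bs => Lk.O :: Lk.A :: Lk.E :: wd k bs

/-! ## Representations -/

/-- the intervals `[l v, r v]` represent the graph `E` on the vertices `S`, `N` the non-probes -/
structure Rp (E : ℕ → ℕ → Prop) (S N : Set ℕ) (l r : ℕ → ℝ) : Prop where
  le : ∀ v ∈ S, l v ≤ r v
  ind : ∀ u ∈ S, ∀ v ∈ S, u ∈ N → v ∈ N → ¬ E u v
  adj : ∀ u ∈ S, ∀ v ∈ S, u ≠ v → ¬ (u ∈ N ∧ v ∈ N) → (E u v ↔ l u ≤ r v ∧ l v ≤ r u)

/-- there is a representation in which `p` has the status `s` and its interval ends last -/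
def Ex (E : ℕ → ℕ → Prop) (S : Set ℕ) (p : ℕ) (s : Bool) : Prop :=
  ∃ (N : Set ℕ) (l r : ℕ → ℝ), Rp E S N l r ∧ p ∈ S ∧ (p ∈ N ↔ s = true) ∧ ∀ v ∈ S, v ≠ p → r v < r p

/-- there is a representation -/
def Pl (E : ℕ → ℕ → Prop) (S : Set ℕ) : Prop := ∃ (N : Set ℕ) (l r : ℕ → ℝ), Rp E S N l r

/-- the vertices -/
def Vw (w : List Lk) : Set ℕ := {v | v < nn w}

/-- the induction hypothesis for the minimality -/
structure Inv (w : List Lk) : Prop where
  full : Ex (EE w) (Vw w) (pp w) (ss w)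
  del : ∀ u ∈ Vw w, u ≠ pp w → Ex (EE w) (Vw w \ {u}) (pp w) (!ss w)
  pdel : Pl (EE w) (Vw w \ {pp w})

/-! ## Statements of the modules -/

/-- **BAS** (150 lines). Elementary facts, by induction on `w` (`unfold ed sq rt`, `omega`). -/
structure SpecBAS : Prop where
  five : ∀ w, 5 ≤ nn w
  plt : ∀ w, pp w < nn w
  pne : ∀ w, pp w ≠ 1 ∧ pp w ≠ 2 ∧ pp w ≠ 3 ∧ pp w ≠ 4
  bnd : ∀ w u v, EE w u v → u < nn w ∧ v < nn w
  sym : ∀ w u v, EE w u v → EE w v u
  irr : ∀ w u, ¬ EE w u u
  nbr : ∀ w, ∃ t, EE w (pp w) t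
  bndF : ∀ w u v, EF w u v → u < nn w + 4 ∧ v < nn w + 4
  symF : ∀ w u v, EF w u v → EF w v u
  irrF : ∀ w u, ¬ EF w u u
  adjG : ∀ (n : ℕ) (w : List Lk) (u v : Fin n), (GG n w).Adj u v ↔ EF w u v

/-- **GLU** (150 lines). USES nothing. Gluing at the exit `p`. If `p ∈ S` its interval ends last, at `M`, and is prolonged to
`M + e`; the new vertices `T` get the intervals `[M + a v, M + b v]` to the right of `M`.
PROOF. `l' v = M + a v` for `v ∈ T`, `l v` otherwise; `r' v = M + b v` for `v ∈ T`, `M + e` for `v = p`, `r v` otherwise;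
`N' = (N ∩ S) ∪ (NT ∩ T)`. Cases for `u, v ∈ S ∪ T`. For `v ∈ S`, `v ≠ p`: `l v ≤ r v < M`. -/
def SpecGLU : Prop := ∀ (E E' : ℕ → ℕ → Prop) (S T N NT : Set ℕ) (l r a b : ℕ → ℝ) (p : ℕ) (M e : ℝ),
  Rp E S N l r → Disjoint S T → p ∉ T →
  (∀ v ∈ S, v ≠ p → r v < M) → (p ∈ S → r p = M) → 0 ≤ e →
  (∀ u v, E' u v → E' v u) →
  (∀ u ∈ S, ∀ v ∈ S, (E' u v ↔ E u v)) →
  (∀ u ∈ S, u ≠ p → ∀ v ∈ T, ¬ E' u v) →
  (∀ v ∈ T, 0 < a v ∧ a v ≤ b v) →
  (∀ u ∈ T, ∀ v ∈ T, u ∈ NT → v ∈ NT → ¬ E' u v) →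
  (p ∈ S → p ∈ N → ∀ v ∈ T, v ∈ NT → ¬ E' p v) →
  (∀ u ∈ T, ∀ v ∈ T, u ≠ v → ¬ (u ∈ NT ∧ v ∈ NT) → (E' u v ↔ a u ≤ b v ∧ a v ≤ b u)) →
  (p ∈ S → ∀ v ∈ T, ¬ (p ∈ N ∧ v ∈ NT) → (E' p v ↔ a v ≤ e)) →
  ∃ (N' : Set ℕ) (l' r' : ℕ → ℝ), Rp E' (S ∪ T) N' l' r' ∧
    (∀ v ∈ T, (v ∈ N' ↔ v ∈ NT) ∧ r' v = M + b v) ∧
    (∀ v ∈ S, v ≠ p → r' v < M) ∧ (p ∈ S → r' p = M + e ∧ (p ∈ N' ↔ p ∈ N))

/-- **NIL** (100 lines). USES nothing. The left end.
PROOF. Vertices `0, 1, 2, 3, 4`, edges `01, 12, 03, 34`. `full` (status of `0`: in `N`): `N = {0, 4}`, `2 = [0,1]`, `1 = [1,2]`,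
`0 = [2,10]`, `3 = [3,4]`, `4 = [4,5]`. `del` (status of `0`: not in `N`; `N = ∅`): one complete arm to the left as before, the rest
of the other arm inside `0` (vertex `1` or `3` if its leaf is deleted) or far left (the leaf if `1` or `3` is deleted:
`[-3,-2]`). `pdel`: two edges. -/
def SpecNIL : Prop := Inv []

/-- **STE** (150 lines). USES BAS, GLU. The link `E`.
PROOF. New vertex `x = nn w`, `T = {x}` (or empty), edge `px`. Coordinates for GLU: `e = 1`, `x = [1,2]`.
`full`: `p ∈ N`, `x ∉ N`. `del` at `u ≠ p` in `Vw w` (`Inv.del`): `p ∉ N`, `x ∈ N`. `del` at `u = p` (`Inv.pdel`; `M` = an upper bound of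
the finitely many `r v`): `x ∈ N`. `pdel`: `Inv.full`. -/
def SpecSTE : Prop := ∀ w, Inv w → ss w = true → Inv (Lk.E :: w)

/-- **STO** (250 lines). USES BAS, GLU. The link `O`: square `p, x, q, y`, `x = nn w`, `y = x + 1`, `q = x + 2`, exit `q`.
PROOF. Coordinates for GLU (status of a vertex in brackets: `N`, `P` = not in `N`):
`full` and `del` at `u ≠ p` in `Vw w`: statuses `p [N], q [N], x [P], y [P]`: `x = [1,2], y = [3,4], q = [2,6], e = 4`;
statuses `p [P], q [P], x [N], y [N]`: `x = [1,2], y = [1,2], q = [2,3], e = 1`.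
`del` at `x` (or `y`), from `Inv.full`, `p` and `q` of different status: `y` (or `x`) `[P] = [1,2], q = [2,3], e = 1`.
`del` at `p` (from `Inv.pdel`): `x [P] = [1,2], y [P] = [3,4], q = [2,6]`, any status of `q`.
`pdel` (`q` deleted, from `Inv.full`): `x [P] = [1,2], y [P] = [3,4], e = 4`. -/
def SpecSTO : Prop := ∀ w, Inv w → Inv (Lk.O :: w)

/-- **STA** (250 lines). USES BAS, GLU. The link `A`: square `p, x, q, y`, `x = nn w`, `y = x + 1`, `q = x + 2`, exit `x`.
PROOF. Coordinates for GLU: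
`full`: statuses `p [P], x [N], y [N], q [P]`: `x = [1,4], y = [1,2], q = [2,3], e = 1`.
`del` at `u ≠ p` in `Vw w` (`Inv.del`: `p ∈ N`): `p [N], q [N], x [P], y [P]`: `y = [1,2], q = [2,3], x = [3,6], e = 4`.
`del` at `y` (`Inv.full`: `p ∉ N`): `x [P] = [1,4], q [P] = [2,3], e = 1`. `del` at `q` (`Inv.full`): `y [P] = [1,2], x [P] = [3,6], e = 4`.
`del` at `p` (`Inv.pdel`): `y [P] = [1,2], q [P] = [2,3], x [P] = [3,6]`.
`pdel` (`x` deleted, `Inv.full`): `y [P] = [1,2], q [P] = [2,3], e = 1`. -/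
def SpecSTA : Prop := ∀ w, Inv w → ss w = false → Inv (Lk.A :: w)

/-- **END** (250 lines). USES BAS, GLU. The right end: `p = pp w`, new vertices `n = nn w, n + 1, n + 2, n + 3`, edges `p n, n (n+1),
p (n+2), (n+2) (n+3)`.
PROOF. Coordinates for GLU: `u ≠ p` in `Vw w` deleted (`Inv.del`: `p ∈ N`): `n [P] = [1,2], n+1 [N] = [2,3], n+2 [P] = [4,5], n+3 [P] = [5,6], e = 4`.
`p` deleted (`Inv.pdel`): the same intervals, all `[P]`. A new vertex deleted (`Inv.full`: `p ∉ N`), all `[P]`: `n + 1` deleted: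
`n = [1,2], n+2 = [4,5], n+3 = [5,6], e = 4`; `n` deleted: `n+1 = [10,11], n+2 = [4,5], n+3 = [5,6], e = 4`; the other two are symmetric. -/
def SpecEND : Prop := ∀ w, Inv w → ss w = false → ∀ u < nn w + 4, Pl (EF w) ({v | v < nn w + 4} \ {u})

/-- **C4** (60 lines). USES nothing. Squares.
PROOF. If `a, c` are not both in `N` their intervals are disjoint, the same for `b, d`; say `r a < l c`. Then `b` and `d` both contain
`[r a, l c]`, so they overlap, contradiction. -/
def SpecC4 : Prop := ∀ (E : ℕ → ℕ → Prop) (S N : Set ℕ) (l r : ℕ → ℝ), Rp E S N l r → (∀ u v, E u v → E v u) →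
  ∀ a ∈ S, ∀ b ∈ S, ∀ c ∈ S, ∀ d ∈ S, a ≠ c → b ≠ d → a ≠ b → b ≠ c → c ≠ d → d ≠ a →
  E a b → E b c → E c d → E d a → ¬ E a c → ¬ E b d → (a ∈ N ∧ c ∈ N) ∨ (b ∈ N ∧ d ∈ N)

/-- **CLW** (150 lines). USES nothing. The centre `c` of an induced subdivided claw (arms `c, m i, t i`) is in `N`.
PROOF. Let `c ∉ N`. The `t i` are not adjacent to `c`, so their intervals are disjoint from that of `c`; two of them are on the same side,
say (mirror `l, r ↦ -r, -l`) to the left: `r (t i), r (t j) < l c`. Then `m i` and `m j` both contain `[max.., l c]`, so they overlap and are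
both in `N`; hence `t i, t j ∉ N`, these two are disjoint, say `r (t i) < l (t j)`; then `m i` overlaps `t j`: contradiction. -/
def SpecCLW : Prop := ∀ (E : ℕ → ℕ → Prop) (S N : Set ℕ) (l r : ℕ → ℝ), Rp E S N l r → (∀ u v, E u v → E v u) →
  ∀ (c : ℕ) (m t : Fin 3 → ℕ), c ∈ S → (∀ i, m i ∈ S ∧ t i ∈ S ∧ m i ≠ t i ∧ c ≠ m i ∧ c ≠ t i ∧ E c (m i) ∧ E (m i) (t i) ∧ ¬ E c (t i)) →
  (∀ i j, i ≠ j → m i ≠ m j ∧ m i ≠ t j ∧ t i ≠ t j ∧ ¬ E (m i) (m j) ∧ ¬ E (m i) (t j) ∧ ¬ E (t i) (t j)) → c ∈ N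

/-- **FRC** (250 lines). USES BAS, C4, CLW. The graphs are not probe graphs.
PROOF. Let a representation of `EF w` be given. By induction on `w'`: if `w` is `v ++ w' ++ [O]` then `pp (w' ++ [O]) ∈ N` if and only if
`ss (w' ++ [O]) = true` (here one uses that on the vertices `< nn u` the edges of `EF (v ++ u)` are those of `EE u`; state the induction for any
relation `F` which agrees with `EE u` on `Vw u`). `w' = []`: the centre `0` of the subdivided claw with the arms `1, 2`; `3, 4`; `5, 7` is in `N`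
(CLW), so `7 ∈ N` (C4 and `ind`). `O`: C4 and `ind`. `E`: `ind` (`p ∈ N`, so `x ∉ N`). `A`: `p ∉ N`, so `x ∈ N` by C4.
Finally `pp w` is the centre of the subdivided claw with the arms `n, n+1`; `n+2, n+3` and `pp w'', t` if `w = E :: w''`, `EE w'' (pp w'') t` (BAS.nbr);
so `pp w ∈ N`, but `ss w = false`. -/
def SpecFRC : Prop := ∀ w : List Lk, Ok (Lk.E :: (w ++ [Lk.O])) → ¬ Pl (EF (Lk.E :: (w ++ [Lk.O]))) {v | v < nn (Lk.E :: (w ++ [Lk.O])) + 4}

/-- **CNV** (100 lines). USES nothing. Between `IsIPG` and `Pl`.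
PROOF. `H` is the graph with `u ~ v` iff `u ≠ v` and the intervals meet; `N` pulled back. Conversely extend `l, r` by `0` outside `Fin n`. -/
structure SpecCNV : Prop where
  fwd : ∀ (n : ℕ) (G : SimpleGraph (Fin n)) (E : ℕ → ℕ → Prop), (∀ u v : Fin n, G.Adj u v ↔ E u v) → IsIPG G → Pl E {v | v < n}
  bwd : ∀ (n : ℕ) (G : SimpleGraph (Fin n)) (E : ℕ → ℕ → Prop), (∀ u v : Fin n, G.Adj u v ↔ E u v) →
    ∀ (S : Set (Fin n)) (T : Set ℕ), (∀ v ∈ S, (v : ℕ) ∈ T) → Pl E T → IsIPG (G.induce S)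

/-- **MIN** (100 lines). USES BAS, NIL, STE, STO, STA, END, FRC, CNV. The graphs are minimal obstructions.
PROOF. `Inv w` for `Ok w` by induction; if `S ≠ univ` some `u` is not in `S`: END and CNV.bwd. -/
def SpecMIN : Prop := ∀ (w : List Lk) (n : ℕ), Ok (Lk.E :: (w ++ [Lk.O])) → n = nn (Lk.E :: (w ++ [Lk.O])) + 4 →
  MinObs (GG n (Lk.E :: (w ++ [Lk.O])))

/-- `D` is the distance from `o` -/
structure Lev {V : Type} (G : SimpleGraph V) (o : V) (D : V → ℕ) : Prop where
  zero : D o = 0
  step : ∀ u v, G.Adj u v → D v ≤ D u + 1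
  pre : ∀ v, v ≠ o → ∃ u, G.Adj u v ∧ D v = D u + 1

/-- **LIS** (50 lines). USES nothing.
PROOF. `D' (φ v) ≤ D v` by strong induction on `D v` (`pre`, `step`); the converse by `φ.symm`. -/
def SpecLIS : Prop := ∀ (V V' : Type) (G : SimpleGraph V) (G' : SimpleGraph V') (o : V) (o' : V') (D : V → ℕ) (D' : V' → ℕ),
  Lev G o D → Lev G' o' D' → ∀ φ : G ≃g G', φ o = o' → ∀ v, D' (φ v) = D v

/-- **LEV** (150 lines). USES BAS. The distances.
PROOF. By induction on `w`: `EE w u v → DD w v ≤ DD w u + 1` and for `v < nn w`, `v ≠ 0` there is `u` with `EE w u v` and `DD w v = DD w u + 1`; then the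
right end. -/
def SpecLEV : Prop := ∀ (w : List Lk) (n : ℕ) (h0 : 0 < n), n = nn w + 4 → Lev (GG n w) ⟨0, h0⟩ (fun v => DF w v)

/-- **ROO** (250 lines). USES BAS. An isomorphism maps the vertex `0` to the vertex `0`.
PROOF. Call `z` a leaf if it has exactly one neighbour. In `GG n w` the leaves are `2, 4, m + 1, m + 3` with `m = nn w` (by induction on `w` every vertex `v < nn w`
different from `2, 4, pp w` has two different neighbours, `pp w` has one in `EE w`; it gets a new one in the next step). If there is a path `v, u, z` with `z ≠ v` and `z` a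
leaf, then `v = 0` or `v = pp w` (`EE w 1 v → v = 0 ∨ v = 2` etc. by induction, as `pp w ≠ 1, 2, 3, 4`). The vertex `0` has the four neighbours `1, 3, 5, 6`; the vertex `pp w` has only
three: `pp w', m, m + 2` if `w = E :: w'`. So `0` is characterized. -/
def SpecROO : Prop := ∀ (w w' : List Lk) (n : ℕ) (h0 : 0 < n), n = nn (Lk.E :: (w ++ [Lk.O])) + 4 → n = nn (Lk.E :: (w' ++ [Lk.O])) + 4 →
  ∀ φ : GG n (Lk.E :: (w ++ [Lk.O])) ≃g GG n (Lk.E :: (w' ++ [Lk.O])), φ ⟨0, h0⟩ = ⟨0, h0⟩

/-- **CNT** (150 lines). USES BAS. The number of vertices in some levels.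
PROOF. Let `u = wd k bs`, `T = DD u (pp u) = 2 k + 4 |bs|`; all vertices have `DD u v ≤ T + 1` (induction). The new vertices of a block have levels `> T`; in the level `T + 2` there is
one vertex for `false` (the exit of `O`) and two for `true` (`x`, `y` of `A`). The last link `E` and the right end have levels `> T`. -/
def SpecCNT : Prop := ∀ (k : ℕ) (bs : List Bool) (j : ℕ) (hj : j < bs.length), 1 ≤ k →
  ((Finset.range (nn (Lk.E :: wd k bs) + 4)).filter (fun v => DF (Lk.E :: wd k bs) v = 2 * k + 4 * (bs.length - 1 - j) + 2)).card =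
    1 + (bs[j]).toNat

/-- **WRD** (60 lines). USES nothing. Facts on the words. PROOF. Induction on `bs` (`List.replicate_succ'` for the left end). -/
structure SpecWRD : Prop where
  num : ∀ k bs, nn (Lk.E :: wd k bs) + 4 = 10 + 3 * k + 7 * bs.length
  frm : ∀ k bs, 1 ≤ k → ∃ w, wd k bs = w ++ [Lk.O]
  okk : ∀ k bs, Ok (Lk.E :: wd k bs)

/-- **BIP** (150 lines). USES BAS. Bipartite of maximum degree at most four.
PROOF. Colour `v` by the parity of `DF w v`: by induction adjacent vertices have levels of different parity (all edges join consecutive levels). Degrees: by induction in `EE w` the exit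
`pp w` has at most two neighbours and all vertices at most four; every step adds at most two edges at `pp w`. -/
def SpecBIP : Prop := ∀ (w : List Lk) (n : ℕ), n = nn w + 4 → (GG n w).Colorable 2 ∧ ∀ v, ((GG n w).neighborSet v).ncard ≤ 4

/-- **FIN** (150 lines). USES MIN, LIS, LEV, ROO, CNT, WRD, BIP. THE THEOREM.
PROOF. Given `n ≥ 31` let `k ∈ {1, ..., 7}` with `7 ∣ n - 10 - 3 k`, `m' = (n - 10 - 3 k) / 7 ≥ (n - 31) / 7 = m`. For `f : Fin m → Bool` let `bs = List.ofFn f ++ replicate (m' - m) false` and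
`F f = GG n (E :: wd k bs)`. An isomorphism preserves the levels (ROO, LEV, LIS), so the numbers in CNT agree and `f = f'`. -/
def SpecFIN : Prop := ∀ n : ℕ, 31 ≤ n → ∃ F : (Fin ((n - 31) / 7) → Bool) → SimpleGraph (Fin n),
  (∀ f, MinObs (F f) ∧ (F f).Colorable 2 ∧ ∀ v, ((F f).neighborSet v).ncard ≤ 4) ∧
  ∀ f g, f ≠ g → IsEmpty (F f ≃g F g)

end Pool.Agent.Lib.MPc95e9c
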